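import Pool.Agent.N669.SGDiml

/-!
# Project SG (helper23): the leaf AXIS
-/

set_option autoImplicit false

namespace SG23

open Finset MeasureTheory Quaternion
open Pool.Agent.H762R3.UQ Pool.Agent.H762R3.Rot
open Pool.Agent.TH591.Lie (Skew toMat toMat_apply vec entL entL_apply PolyRep exists_extension op
  op_apply dR dR_skew dR_bracket R_exp_eq bv bv_apply inner_bv xi xi_apply xi_skew xi_bracket
  planeJ planeJ_apply exp_planeJ exists_eigenbasis exp_mul_neg rot)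

noncomputable section

/-- the generator of the rotations about the axis number `i` -/
def axX (i : Fin 3) : EuclideanSpace ℝ (Fin 3) →L[ℝ] EuclideanSpace ℝ (Fin 3) :=
  planeJ (bv (i + 1)) (bv (i + 2))

lemma axX_eq (i : Fin 3) : axX i = xi (i + 2) (i + 1) := by
  ext1 x
  rw [axX, planeJ_apply, xi_apply, inner_bv, inner_bv]

lemma axX_skew (i : Fin 3) : Skew (axX i) := by
  rw [axX_eq]
  exact xi_skew _ _

lemma axX_bracket (i : Fin 3) :
    axX i * axX (i + 1) - axX (i + 1) * axX i = axX (i + 2) := by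
  rw [axX_eq, axX_eq, axX_eq, xi_bracket]
  fin_cases i <;> simp

lemma ax_norm_bv (a : Fin 3) : ‖(bv a : EuclideanSpace ℝ (Fin 3))‖ = 1 := by
  unfold bv
  simp

lemma ax_exp (i : Fin 3) (t : ℝ) :
    entL (NormedSpace.exp (t • axX i)) = vec ((rho (ax i t) : SO (Fin 3)) : Matrix (Fin 3) (Fin 3) ℝ) := by
  rw [entL_apply]
  congr 1
  ext a b
  have h1 : Real.cos t = Real.cos (t / 2) ^ 2 - Real.sin (t / 2) ^ 2 := by
    rw [← Real.cos_two_mul']; congr 1; ring
  have h2 : Real.sin t = 2 * Real.sin (t / 2) * Real.cos (t / 2) := by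
    rw [← Real.sin_two_mul]; congr 1; ring
  have h3 := Real.cos_sq_add_sin_sq (t / 2)
  have h4 : (bv b : EuclideanSpace ℝ (Fin 3)) = EuclideanSpace.single b 1 := rfl
  rw [toMat_apply, ← h4, axX, exp_planeJ _ _ (ax_norm_bv _) (ax_norm_bv _)
    (by rw [inner_bv, bv_apply]; fin_cases i <;> simp)]
  rw [inner_bv, inner_bv]
  change _ = rotM (axq i t) a b
  fin_cases i <;> fin_cases a <;> fin_cases b <;>
    simp [rotM, axq, bv_apply, h1, h2] <;> nlinarith [h3]

section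

variable {E : Type} [NormedAddCommGroup E] [InnerProductSpace ℝ E] [FiniteDimensional ℝ E]

/-- a representation along the rotations about an axis -/
lemma ax_generator (hD : ST_DIML) (ρ : SO (Fin 3) →* (E ≃ₗᵢ[ℝ] E)) (hρ : PR ρ) (i : Fin 3) :
    ∃ S : E →L[ℝ] E, Skew S ∧ (∀ v, ‖S v‖ ≤ Module.finrank ℝ E * ‖v‖) ∧
      ∀ (t : ℝ) (v : E), ρ (rho (ax i t)) v = NormedSpace.exp (t • S) v := by
  obtain ⟨k, hk⟩ : ∃ k, PolyRep ρ k := hρ
  obtain ⟨R, hR, hRρ⟩ := exists_extension ρ k hk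
  refine ⟨dR R (axX i), dR_skew ρ R hR hRρ _ (axX_skew i), ?_, ?_⟩
  · have hb : ∀ j : Fin 3, dR R (axX j) * dR R (axX (j + 1)) - dR R (axX (j + 1)) * dR R (axX j) =
        dR R (axX (j + 2)) := by
      intro j
      rw [dR_bracket ρ R hR hRρ _ _ (axX_skew j) (axX_skew (j + 1)), axX_bracket]
    have b1 := hb (i + 1)
    have b2 := hb (i + 2)
    have b3 := hb i
    have e1 : i + 1 + 1 = i + 2 := by fin_cases i <;> rfl
    have e2 : i + 1 + 2 = i := by fin_cases i <;> rfl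
    have e3 : i + 2 + 1 = i := by fin_cases i <;> rfl
    have e4 : i + 2 + 2 = i + 1 := by fin_cases i <;> rfl
    rw [e1, e2] at b1
    rw [e3, e4] at b2
    exact hD E (dR R (axX (i + 1))) (dR R (axX (i + 2))) (dR R (axX i))
      (dR_skew ρ R hR hRρ _ (axX_skew _)) (dR_skew ρ R hR hRρ _ (axX_skew _))
      (dR_skew ρ R hR hRρ _ (axX_skew _)) b1 b2 b3
  · intro t v
    rw [← R_exp_eq ρ R hR hRρ (axX i) (axX_skew i) t, ax_exp, hRρ, op_apply]

/-- the displacement of a vector along a one-parameter group -/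
lemma ax_norm_sq (S : E →L[ℝ] E) (hS : Skew S)
    (e : OrthonormalBasis (Fin (Module.finrank ℝ E)) ℝ E)
    (he2 : ∀ (t : ℝ) j, NormedSpace.exp (t • S) (e j)
        = Real.cos (t * ‖S (e j)‖) • e j + (Real.sin (t * ‖S (e j)‖) / ‖S (e j)‖) • S (e j))
    (hiso : ∀ (t : ℝ) (x y : E), inner ℝ (NormedSpace.exp (t • S) x) (NormedSpace.exp (t • S) y) =
      (inner ℝ x y : ℝ)) (t : ℝ) (v : E) :
    ‖NormedSpace.exp (t • S) v - v‖ ^ 2 =
      ∑ j, 4 * Real.sin (t * ‖S (e j)‖ / 2) ^ 2 * (inner ℝ (e j) v : ℝ) ^ 2 := by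
  have hexp : ∀ L : E →L[ℝ] E, (inner ℝ (L v) v : ℝ) =
      ∑ j, (inner ℝ (e j) v : ℝ) * inner ℝ (L (e j)) v := by
    intro L
    have h1 : L v = ∑ j, (inner ℝ (e j) v : ℝ) • L (e j) := by
      conv_lhs => rw [← e.sum_repr' v, map_sum]
      simp only [map_smul]
    rw [h1, sum_inner]
    simp only [real_inner_smul_left]
  have hvv : ‖v‖ ^ 2 = ∑ j, (inner ℝ (e j) v : ℝ) ^ 2 := by
    have h1 := hexp (1 : E →L[ℝ] E)
    change (inner ℝ v v : ℝ) = _ at h1
    rw [real_inner_self_eq_norm_sq] at h1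
    rw [h1]
    apply Finset.sum_congr rfl
    intro j _
    rw [sq]
    rfl
  have hinv : NormedSpace.exp ((-t) • S) (NormedSpace.exp (t • S) v) = v := by
    have h1 := exp_mul_neg ((-t) • S)
    have h2 : -((-t) • S) = t • S := by rw [neg_smul, neg_neg]
    rw [h2] at h1
    have h3 := congrArg (fun T : E →L[ℝ] E => T v) h1
    exact h3
  have hsym : (inner ℝ (NormedSpace.exp (t • S) v) v : ℝ) =
      inner ℝ (NormedSpace.exp ((-t) • S) v) v := by
    rw [← hiso (-t), hinv, real_inner_comm]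
  have h2 : 2 * (inner ℝ (NormedSpace.exp (t • S) v) v : ℝ) =
      ∑ j, 2 * Real.cos (t * ‖S (e j)‖) * (inner ℝ (e j) v : ℝ) ^ 2 := by
    have h3 : 2 * (inner ℝ (NormedSpace.exp (t • S) v) v : ℝ) =
        inner ℝ (NormedSpace.exp (t • S) v) v + inner ℝ (NormedSpace.exp ((-t) • S) v) v := by
      rw [← hsym]; ring
    rw [h3, hexp, hexp, ← Finset.sum_add_distrib]
    apply Finset.sum_congr rfl
    intro j _
    rw [he2, he2, inner_add_left, inner_add_left, real_inner_smul_left, real_inner_smul_left,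
      real_inner_smul_left, real_inner_smul_left, neg_mul, Real.cos_neg, Real.sin_neg]
    ring
  have h4 : ‖NormedSpace.exp (t • S) v‖ ^ 2 = ‖v‖ ^ 2 := by
    rw [← real_inner_self_eq_norm_sq, ← real_inner_self_eq_norm_sq, hiso]
  rw [norm_sub_sq_real, h4, h2, hvv, ← Finset.sum_sub_distrib, ← Finset.sum_add_distrib]
  apply Finset.sum_congr rfl
  intro j _
  have h5 : Real.cos (t * ‖S (e j)‖) = 1 - 2 * Real.sin (t * ‖S (e j)‖ / 2) ^ 2 := by
    have h6 : t * ‖S (e j)‖ = 2 * (t * ‖S (e j)‖ / 2) := by ring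
    conv_lhs => rw [h6]
    rw [Real.cos_two_mul, Real.cos_sq']
    ring
  rw [h5]
  ring

end

lemma ax_two_pi (i : Fin 3) : rho (ax i (2 * Real.pi)) = 1 := by
  apply Subtype.ext
  change rotM (axq i (2 * Real.pi)) = 1
  have e : 2 * Real.pi / 2 = Real.pi := by ring
  ext a b
  fin_cases i <;> fin_cases a <;> fin_cases b <;> simp [rotM, axq]

theorem AXIS (hD : ST_DIML) : ST_AXIS := by
  classical
  intro d₀ θ₀ hθ
  set Mq : ℝ := 1 + ∑ n ∈ range (d₀ + 1), (Real.sin (n * θ₀ / 2) ^ 2)⁻¹ with hMq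
  have hsum0 : 0 ≤ ∑ n ∈ range (d₀ + 1), (Real.sin (n * θ₀ / 2) ^ 2)⁻¹ :=
    Finset.sum_nonneg fun _ _ => by positivity
  have hM1 : 1 ≤ Mq := by linarith
  have hMn : ∀ n : ℕ, 0 < n → n ≤ d₀ → (1 : ℝ) ≤ Mq * Real.sin (n * θ₀ / 2) ^ 2 := by
    intro n hn hnd
    have h1 : (Real.sin (n * θ₀ / 2) ^ 2)⁻¹ ≤ Mq := by
      have h := Finset.single_le_sum (f := fun n : ℕ => (Real.sin (n * θ₀ / 2) ^ 2)⁻¹)
        (s := range (d₀ + 1)) (fun _ _ => by positivity) (mem_range.2 (Nat.lt_succ_of_le hnd))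
      linarith
    have h2 : 0 < Real.sin (n * θ₀ / 2) ^ 2 := by
      have := hθ n hn
      positivity
    calc (1 : ℝ) = (Real.sin (n * θ₀ / 2) ^ 2)⁻¹ * Real.sin (n * θ₀ / 2) ^ 2 := by
          rw [inv_mul_cancel₀ h2.ne']
      _ ≤ _ := mul_le_mul_of_nonneg_right h1 h2.le
  refine ⟨Real.sqrt Mq, Real.sqrt_pos.2 (by linarith), ?_⟩
  intro E _ _ _ ρ hρ hd i t v
  obtain ⟨S, hS, hSn, hSe⟩ := ax_generator hD ρ hρ i
  obtain ⟨e, he1, he2⟩ := exists_eigenbasis S hS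
  have hfreq : ∀ j, ∃ n : ℕ, n ≤ d₀ ∧ ‖S (e j)‖ = n := by
    intro j
    have h1 : NormedSpace.exp ((2 * Real.pi) • S) (e j) = e j := by
      rw [← hSe, ax_two_pi, map_one]
      rfl
    have h2 := he2 (2 * Real.pi) j
    rw [h1] at h2
    have h3 : (inner ℝ (e j) (S (e j)) : ℝ) = 0 := by
      have h := hS (e j) (e j)
      rw [real_inner_comm] at h
      linarith
    have hej : ‖e j‖ = 1 := e.orthonormal.1 j
    have h4 := congrArg (fun x => (inner ℝ (e j) x : ℝ)) h2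
    simp only [inner_add_right, real_inner_smul_right, h3, real_inner_self_eq_norm_sq, hej] at h4
    have h5 : Real.cos (2 * Real.pi * ‖S (e j)‖) = 1 := by linarith
    obtain ⟨m, hm⟩ := (Real.cos_eq_one_iff _).1 h5
    have hpi := Real.pi_pos
    have h6 : ‖S (e j)‖ = m := by
      have : (2 * Real.pi) * ‖S (e j)‖ = (2 * Real.pi) * m := by linarith
      exact mul_left_cancel₀ (by positivity) this
    have hm0 : 0 ≤ m := by
      have : (0 : ℝ) ≤ m := by rw [← h6]; positivity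
      exact_mod_cast this
    obtain ⟨n, rfl⟩ := Int.eq_ofNat_of_zero_le hm0
    refine ⟨n, ?_, by rw [h6]; push_cast; rfl⟩
    have h7 := hSn (e j)
    rw [h6, hej, mul_one] at h7
    have h8 : n ≤ Module.finrank ℝ E := by
      have : ((n : ℤ) : ℝ) ≤ Module.finrank ℝ E := h7
      push_cast at this
      exact_mod_cast this
    exact h8.trans hd
  have hiso : ∀ (t : ℝ) (x y : E),
      inner ℝ (NormedSpace.exp (t • S) x) (NormedSpace.exp (t • S) y) = (inner ℝ x y : ℝ) := by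
    intro t x y
    rw [← hSe, ← hSe, LinearIsometryEquiv.inner_map_map]
  have hsq : ‖ρ (rho (ax i t)) v - v‖ ^ 2 ≤ Mq * ‖ρ (rho (ax i θ₀)) v - v‖ ^ 2 := by
    rw [hSe, hSe, ax_norm_sq S hS e he2 hiso, ax_norm_sq S hS e he2 hiso, Finset.mul_sum]
    apply Finset.sum_le_sum
    intro j _
    obtain ⟨n, hn, hnj⟩ := hfreq j
    rw [hnj]
    rcases Nat.eq_zero_or_pos n with rfl | hn0
    · simp
    · have h1 := hMn n hn0 hn
      have h2 : Real.sin (t * n / 2) ^ 2 ≤ 1 := Real.sin_sq_le_one _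
      have h3 : (n : ℝ) * θ₀ / 2 = θ₀ * n / 2 := by ring
      rw [h3] at h1
      have h4 : 0 ≤ (inner ℝ (e j) v : ℝ) ^ 2 := sq_nonneg _
      nlinarith [mul_nonneg h4 (by linarith : (0 : ℝ) ≤ Mq * Real.sin (θ₀ * n / 2) ^ 2 - Real.sin (t * n / 2) ^ 2)]
  have h9 : ‖ρ (rho (ax i t)) v - v‖ ≤ Real.sqrt (Mq * ‖ρ (rho (ax i θ₀)) v - v‖ ^ 2) :=
    Real.le_sqrt_of_sq_le hsq
  rw [Real.sqrt_mul (by linarith), Real.sqrt_sq (norm_nonneg _)] at h9
  exact h9

end

end SG23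

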