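import Pool.Agent.N23.SG.BStm

/-!
# Project SG (helper23): the leaf DIML
-/

set_option autoImplicit false

namespace SG23

open Finset MeasureTheory Quaternion
open Pool.Agent.H762R3.UQ Pool.Agent.H762R3.Rot
open Pool.Agent.TH591.Lie (Skew)
noncomputable section

section

attribute [local instance 100] LieRing.ofAssociativeRing

variable {M : Type*} [AddCommGroup M] [Module ℂ M] [FiniteDimensional ℂ M]

lemma diml_bound (a b c : Module.End ℂ M) (h1 : a * b - b * a = c) (h2 : b * c - c * b = a)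
    (h3 : c * a - a * c = b) (m : M) (hm : m ≠ 0) (μ : ℝ) (hμ : 0 < μ)
    (hcm : c m = -(Complex.I * μ) • m) : 2 * μ + 1 ≤ Module.finrank ℂ M := by
  classical
  have hI : Complex.I * Complex.I = -1 := Complex.I_mul_I
  have e1 : a * b = b * a + c := by rw [← h1]; abel
  have e2 : b * c = c * b + a := by rw [← h2]; abel
  have e3 : c * a = a * c + b := by rw [← h3]; abel
  have e2' : ∀ x, b (c x) = c (b x) + a x := fun x => by
    have := congrArg (fun T : Module.End ℂ M => T x) e2
    simpa using this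
  have e3' : ∀ x, c (a x) = a (c x) + b x := fun x => by
    have := congrArg (fun T : Module.End ℂ M => T x) e3
    simpa using this
  have e1' : ∀ x, a (b x) = b (a x) + c x := fun x => by
    have := congrArg (fun T : Module.End ℂ M => T x) e1
    simpa using this
  set h : Module.End ℂ M := (2 * Complex.I) • c with hh
  set e : Module.End ℂ M := a + Complex.I • b with he
  set f : Module.End ℂ M := -a + Complex.I • b with hf
  have hhm : h m = (2 * μ : ℂ) • m := by
    rw [hh, LinearMap.smul_apply, hcm, smul_smul]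
    congr 1
    linear_combination (-2 * (μ : ℂ)) * hI
  have t : IsSl2Triple h e f := by
    constructor
    · intro h0
      rw [h0] at hhm
      have : (2 * μ : ℂ) • m = 0 := hhm.symm
      rcases smul_eq_zero.1 this with h | h
      · have : (μ : ℂ) ≠ 0 := by exact_mod_cast hμ.ne'
        apply this
        linear_combination h / 2
      · exact hm h
    · rw [Ring.lie_def]
      ext x
      simp only [hh, he, hf, LinearMap.sub_apply, Module.End.mul_apply, LinearMap.add_apply,
        LinearMap.neg_apply, LinearMap.smul_apply, map_add, map_neg, map_smul, e1', e2', e3']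
      match_scalars <;> linear_combination (0 : ℂ) * hI
    · rw [Ring.lie_def]
      ext x
      simp only [hh, he, hf, LinearMap.sub_apply, Module.End.mul_apply, LinearMap.add_apply,
        LinearMap.neg_apply, LinearMap.smul_apply, map_add, map_neg, map_smul, e1', e2', e3']
      match_scalars <;> first | linear_combination (0 : ℂ) * hI | linear_combination (2 : ℂ) * hI | linear_combination (-2 : ℂ) * hI
    · rw [Ring.lie_def]
      ext x
      simp only [hh, he, hf, LinearMap.sub_apply, Module.End.mul_apply, LinearMap.add_apply,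
        LinearMap.neg_apply, LinearMap.smul_apply, map_add, map_neg, map_smul, e1', e2', e3']
      match_scalars <;> first | linear_combination (0 : ℂ) * hI | linear_combination (2 : ℂ) * hI | linear_combination (-2 : ℂ) * hI
  -- the eigenvalue with the largest real part
  have hfin := h.finite_hasEigenvalue
  have hne : (2 * μ : ℂ) ∈ {ν | h.HasEigenvalue ν} :=
    Module.End.hasEigenvalue_of_hasEigenvector (x := m)
      (Module.End.hasEigenvector_iff.2 ⟨Module.End.mem_eigenspace_iff.2 hhm, hm⟩)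
  obtain ⟨ν, hν, hmax⟩ := Set.exists_max_image _ Complex.re hfin ⟨_, hne⟩
  obtain ⟨m₁, hm₁⟩ := Module.End.HasEigenvalue.exists_hasEigenvector hν
  have hm₁0 : m₁ ≠ 0 := hm₁.2
  have hm₁h : h m₁ = ν • m₁ := hm₁.apply_eq_smul
  have hem : e m₁ = 0 := by
    by_contra hne0
    have h5 : h (e m₁) = (ν + 2) • e m₁ := by
      have h6 := congrArg (fun T : Module.End ℂ M => T m₁) t.lie_h_e_nsmul
      rw [Ring.lie_def] at h6
      simp only [LinearMap.sub_apply, Module.End.mul_apply, LinearMap.smul_apply, hm₁h,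
        map_smul] at h6
      rw [sub_eq_iff_eq_add] at h6
      rw [h6]
      module
    have h7 : (ν + 2) ∈ {ν | h.HasEigenvalue ν} :=
      Module.End.hasEigenvalue_of_hasEigenvector (x := e m₁)
        (Module.End.hasEigenvector_iff.2 ⟨Module.End.mem_eigenspace_iff.2 h5, hne0⟩)
    have h8 := hmax _ h7
    simp at h8
    linarith
  have P : t.HasPrimitiveVectorWith m₁ ν := ⟨hm₁0, hm₁h, hem⟩
  obtain ⟨n, hn⟩ := P.exists_nat
  have hli : LinearIndependent ℂ (fun k : Fin (n + 1) =>
      ((LieModule.toEnd ℂ (Module.End ℂ M) M f) ^ (k : ℕ)) m₁) := by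
    refine Module.End.eigenvectors_linearIndependent' h (fun k : Fin (n + 1) => ν - 2 * (k : ℕ))
      ?_ _ ?_
    · intro i j hij
      have : ((i : ℕ) : ℂ) = ((j : ℕ) : ℂ) := by
        simp only at hij
        linear_combination (-1 / 2 : ℂ) * hij
      exact Fin.ext (by exact_mod_cast this)
    · intro k
      rw [Module.End.hasEigenvector_iff]
      refine ⟨Module.End.mem_eigenspace_iff.2 (P.lie_h_pow_toEnd_f k),
        P.pow_toEnd_f_ne_zero_of_eq_nat hn (Nat.lt_succ_iff.1 k.2)⟩
  have hcard := hli.fintype_card_le_finrank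
  rw [Fintype.card_fin] at hcard
  have h9 := hmax _ hne
  rw [hn] at h9
  simp at h9
  have h10 : ((n + 1 : ℕ) : ℝ) ≤ Module.finrank ℂ M := by exact_mod_cast hcard
  push_cast at h10
  linarith
end

section

open scoped TensorProduct

variable {E : Type} [NormedAddCommGroup E] [InnerProductSpace ℝ E] [FiniteDimensional ℝ E]

/-- the map `ℂ ⊗ E → ℂ` given by a vector -/
def dimlF (e : E) : ℂ ⊗[ℝ] E →ₗ[ℝ] ℂ :=
  TensorProduct.lift (LinearMap.mk₂ ℝ (fun (z : ℂ) (x : E) => (inner ℝ e x : ℝ) • z)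
    (fun a b x => by rw [smul_add]) (fun r a x => by rw [smul_comm])
    (fun a x y => by rw [inner_add_right, add_smul])
    (fun r a x => by rw [real_inner_smul_right, mul_smul]))

lemma dimlF_tmul (e : E) (z : ℂ) (x : E) : dimlF e (z ⊗ₜ[ℝ] x) = (inner ℝ e x : ℝ) • z := rfl

lemma diml_eigen (A B C : E →L[ℝ] E) (hC : Skew C) (h1 : A * B - B * A = C)
    (h2 : B * C - C * B = A) (h3 : C * A - A * C = B) (e : E) (he : ‖e‖ = 1)
    (hee : C (C e) = -(‖C e‖ ^ 2) • e) : ‖C e‖ ≤ Module.finrank ℝ E := by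
  rcases eq_or_lt_of_le (norm_nonneg (C e)) with h0 | hμ
  · rw [← h0]; positivity
  set μ : ℝ := ‖C e‖ with hμd
  set w : E := μ⁻¹ • C e with hw
  have hCe : C e = μ • w := by
    rw [hw, smul_smul, mul_inv_cancel₀ hμ.ne', one_smul]
  have hCw : C w = (-μ) • e := by
    rw [hw, map_smul, hee, smul_smul]
    congr 1
    field_simp
  have hew : inner ℝ e w = (0 : ℝ) := by
    have h := hC e e
    rw [hw, real_inner_smul_right]
    rw [real_inner_comm] at h
    have : inner ℝ e (C e) = (0 : ℝ) := by linarith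
    rw [this, mul_zero]
  have bc : ∀ S T : E →L[ℝ] E, ((S * T : E →L[ℝ] E) : E →ₗ[ℝ] E).baseChange ℂ =
      (S : E →ₗ[ℝ] E).baseChange ℂ * (T : E →ₗ[ℝ] E).baseChange ℂ := fun S T => by
    rw [← LinearMap.baseChange_mul]; rfl
  have bs : ∀ S T : E →L[ℝ] E, ((S - T : E →L[ℝ] E) : E →ₗ[ℝ] E).baseChange ℂ =
      (S : E →ₗ[ℝ] E).baseChange ℂ - (T : E →ₗ[ℝ] E).baseChange ℂ := fun S T => by
    rw [← LinearMap.baseChange_sub]; rfl
  set z : ℂ ⊗[ℝ] E := (1 : ℂ) ⊗ₜ[ℝ] e + Complex.I ⊗ₜ[ℝ] w with hz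
  have hz0 : z ≠ 0 := by
    intro h
    have h4 := congrArg (dimlF e) h
    rw [hz, map_add, dimlF_tmul, dimlF_tmul, hew, map_zero, real_inner_self_eq_norm_sq, he] at h4
    simp at h4
  have hcz : ((C : E →ₗ[ℝ] E).baseChange ℂ) z = -(Complex.I * μ) • z := by
    rw [hz, map_add, LinearMap.baseChange_tmul, LinearMap.baseChange_tmul]
    change (1 : ℂ) ⊗ₜ[ℝ] (C e) + Complex.I ⊗ₜ[ℝ] (C w) = _
    have j1 : (1 : ℂ) ⊗ₜ[ℝ] (μ • w) = (μ • (1 : ℂ)) ⊗ₜ[ℝ] w :=
      (TensorProduct.smul_tmul μ (1 : ℂ) w).symm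
    have j2 : Complex.I ⊗ₜ[ℝ] ((-μ) • e) = ((-μ) • Complex.I) ⊗ₜ[ℝ] e :=
      (TensorProduct.smul_tmul (-μ) Complex.I e).symm
    have i1 : (μ • (1 : ℂ)) = -(Complex.I * μ) • Complex.I := by
      rw [smul_eq_mul, Complex.real_smul]
      linear_combination (μ : ℂ) * Complex.I_mul_I
    have i2 : ((-μ) • Complex.I) = -(Complex.I * μ) • (1 : ℂ) := by
      rw [smul_eq_mul, Complex.real_smul]
      push_cast
      ring
    rw [hCe, hCw, j1, j2, i1, i2, smul_add, TensorProduct.smul_tmul', TensorProduct.smul_tmul',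
      add_comm]
  have h5 := diml_bound ((A : E →ₗ[ℝ] E).baseChange ℂ) ((B : E →ₗ[ℝ] E).baseChange ℂ)
    ((C : E →ₗ[ℝ] E).baseChange ℂ) (by rw [← bc, ← bc, ← bs, h1]) (by rw [← bc, ← bc, ← bs, h2])
    (by rw [← bc, ← bc, ← bs, h3]) z hz0 μ hμ hcz
  rw [Module.finrank_baseChange] at h5
  linarith

end

theorem DIML : ST_DIML := by
  intro E _ _ _ A B C _ _ hC h1 h2 h3 v
  exact Pool.Agent.TH591.Lie.norm_le_of_eigen C hC _ (Nat.cast_nonneg _)
    (fun e he hee => diml_eigen A B C hC h1 h2 h3 e he hee) v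

end

end SG23

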