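import Pool.Agent.N23.SG.BStm

/-!
# Project SG (helper23): the leaves IRR, EUL and NNB
-/

set_option autoImplicit false

namespace SG23

open Finset MeasureTheory Quaternion
open Pool.Agent.H762R3.UQ Pool.Agent.H762R3.Rot

noncomputable section

/-! ### IRR -/

lemma irr_aux (j : ℕ) : ∃ a b : ℤ,
    Real.cos (j * Real.arctan 2) * Real.sqrt 5 ^ j = a ∧
    Real.sin (j * Real.arctan 2) * Real.sqrt 5 ^ j = b ∧
    (0 < j → (b - 2 * a) % 5 = 0 ∧ a % 5 ≠ 0) := by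
  have h5 : Real.sqrt 5 ^ 2 = 5 := Real.sq_sqrt (by norm_num)
  have h5p : 0 < Real.sqrt 5 := Real.sqrt_pos.2 (by norm_num)
  have hc : Real.cos (Real.arctan 2) * Real.sqrt 5 = 1 := by
    rw [Real.cos_arctan]
    norm_num
  have hs : Real.sin (Real.arctan 2) * Real.sqrt 5 = 2 := by
    rw [Real.sin_arctan]
    norm_num
  induction j with
  | zero => exact ⟨1, 0, by simp, by simp, by simp⟩
  | succ j ih =>
    obtain ⟨a, b, ha, hb, hab⟩ := ih
    refine ⟨a - 2 * b, 2 * a + b, ?_, ?_, ?_⟩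
    · have e : ((j + 1 : ℕ) : ℝ) * Real.arctan 2 = j * Real.arctan 2 + Real.arctan 2 := by
        push_cast; ring
      rw [e, Real.cos_add, pow_succ]
      push_cast
      rw [← ha, ← hb]
      linear_combination (Real.cos (j * Real.arctan 2) * Real.sqrt 5 ^ j) * hc -
        (Real.sin (j * Real.arctan 2) * Real.sqrt 5 ^ j) * hs
    · have e : ((j + 1 : ℕ) : ℝ) * Real.arctan 2 = j * Real.arctan 2 + Real.arctan 2 := by
        push_cast; ring
      rw [e, Real.sin_add, pow_succ]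
      push_cast
      rw [← ha, ← hb]
      linear_combination (Real.cos (j * Real.arctan 2) * Real.sqrt 5 ^ j) * hs +
        (Real.sin (j * Real.arctan 2) * Real.sqrt 5 ^ j) * hc
    · intro _
      rcases Nat.eq_zero_or_pos j with rfl | hj
      · have ha1 : a = 1 := by
          have : (a : ℝ) = 1 := by rw [← ha]; simp
          exact_mod_cast this
        have hb1 : b = 0 := by
          have : (b : ℝ) = 0 := by rw [← hb]; simp
          exact_mod_cast this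
        subst ha1 hb1
        constructor <;> norm_num
      · obtain ⟨h1, h2⟩ := hab hj
        omega

theorem IRR : ST_IRR := by
  intro j hj h0
  have e : (j : ℝ) * (2 * Real.arctan 2) / 2 = j * Real.arctan 2 := by ring
  rw [e] at h0
  obtain ⟨a, b, _, hb, hab⟩ := irr_aux j
  obtain ⟨h1, h2⟩ := hab hj
  rw [h0, zero_mul] at hb
  have hb0 : b = 0 := by exact_mod_cast hb.symm
  subst hb0
  omega

/-! ### EUL -/

lemma eul_polar (p r : ℝ) : ∃ s : ℝ, Real.sqrt (p ^ 2 + r ^ 2) * Real.cos s = p ∧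
    Real.sqrt (p ^ 2 + r ^ 2) * Real.sin s = r := by
  refine ⟨Complex.arg ⟨p, r⟩, ?_, ?_⟩
  · have h := Complex.norm_mul_cos_arg (⟨p, r⟩ : ℂ)
    have h2 : ‖(⟨p, r⟩ : ℂ)‖ = Real.sqrt (p ^ 2 + r ^ 2) := by
      rw [Complex.norm_eq_sqrt_sq_add_sq]
    rw [← h2]
    exact h
  · have h := Complex.norm_mul_sin_arg (⟨p, r⟩ : ℂ)
    have h2 : ‖(⟨p, r⟩ : ℂ)‖ = Real.sqrt (p ^ 2 + r ^ 2) := by
      rw [Complex.norm_eq_sqrt_sq_add_sq]
    rw [← h2]
    exact h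

lemma eul_mul_coe (x y : U) : ((x * y : U) : ℍ[ℝ]) = (x : ℍ[ℝ]) * (y : ℍ[ℝ]) := rfl

theorem EUL : ST_EUL := by
  intro q
  have hq := unit_eq q
  obtain ⟨s, hs1, hs2⟩ := eul_polar (q : ℍ[ℝ]).re (q : ℍ[ℝ]).imK
  obtain ⟨t, ht1, ht2⟩ := eul_polar (q : ℍ[ℝ]).imI (q : ℍ[ℝ]).imJ
  set u := Real.sqrt ((q : ℍ[ℝ]).re ^ 2 + (q : ℍ[ℝ]).imK ^ 2) with hu
  set v := Real.sqrt ((q : ℍ[ℝ]).imI ^ 2 + (q : ℍ[ℝ]).imJ ^ 2) with hv
  have hu2 : u ^ 2 = (q : ℍ[ℝ]).re ^ 2 + (q : ℍ[ℝ]).imK ^ 2 := Real.sq_sqrt (by positivity)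
  have hv2 : v ^ 2 = (q : ℍ[ℝ]).imI ^ 2 + (q : ℍ[ℝ]).imJ ^ 2 := Real.sq_sqrt (by positivity)
  have huv : Real.sqrt (u ^ 2 + v ^ 2) = 1 := by
    rw [hu2, hv2]
    have : (q : ℍ[ℝ]).re ^ 2 + (q : ℍ[ℝ]).imK ^ 2 + ((q : ℍ[ℝ]).imI ^ 2 + (q : ℍ[ℝ]).imJ ^ 2) = 1 := by
      linarith
    rw [this, Real.sqrt_one]
  obtain ⟨β, hb1, hb2⟩ := eul_polar u v
  rw [huv, one_mul] at hb1 hb2
  refine ⟨s + t, 2 * β, s - t, ?_⟩
  apply Subtype.ext
  rw [eul_mul_coe, eul_mul_coe]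
  change (q : ℍ[ℝ]) = axq 2 (s + t) * axq 0 (2 * β) * axq 2 (s - t)
  have e1 : 2 * β / 2 = β := by ring
  have hcc : Real.cos s = Real.cos ((s + t) / 2) * Real.cos ((s - t) / 2) -
      Real.sin ((s + t) / 2) * Real.sin ((s - t) / 2) := by
    rw [← Real.cos_add]; congr 1; ring
  have hss : Real.sin s = Real.sin ((s + t) / 2) * Real.cos ((s - t) / 2) +
      Real.cos ((s + t) / 2) * Real.sin ((s - t) / 2) := by
    rw [← Real.sin_add]; congr 1; ring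
  have hct : Real.cos t = Real.cos ((s + t) / 2) * Real.cos ((s - t) / 2) +
      Real.sin ((s + t) / 2) * Real.sin ((s - t) / 2) := by
    rw [← Real.cos_sub]; congr 1; ring
  have hst : Real.sin t = Real.sin ((s + t) / 2) * Real.cos ((s - t) / 2) -
      Real.cos ((s + t) / 2) * Real.sin ((s - t) / 2) := by
    rw [← Real.sin_sub]; congr 1; ring
  have f1 : (axq 2 (s + t)).re = Real.cos ((s + t) / 2) := rfl
  have f2 : (axq 2 (s + t)).imI = 0 := by simp [axq]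
  have f3 : (axq 2 (s + t)).imJ = 0 := by simp [axq]
  have f4 : (axq 2 (s + t)).imK = Real.sin ((s + t) / 2) := by simp [axq]
  have g1 : (axq 2 (s - t)).re = Real.cos ((s - t) / 2) := rfl
  have g2 : (axq 2 (s - t)).imI = 0 := by simp [axq]
  have g3 : (axq 2 (s - t)).imJ = 0 := by simp [axq]
  have g4 : (axq 2 (s - t)).imK = Real.sin ((s - t) / 2) := by simp [axq]
  have k1 : (axq 0 (2 * β)).re = u := by rw [← hb1]; simp [axq]
  have k2 : (axq 0 (2 * β)).imI = v := by rw [← hb2]; simp [axq]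
  have k3 : (axq 0 (2 * β)).imJ = 0 := by simp [axq]
  have k4 : (axq 0 (2 * β)).imK = 0 := by simp [axq]
  apply Quaternion.ext
  · simp only [Quaternion.re_mul, Quaternion.imI_mul, Quaternion.imJ_mul, Quaternion.imK_mul,
      f1, f2, f3, f4, g1, g2, g3, g4, k1, k2, k3, k4]
    rw [← hs1, hcc]
    ring
  · simp only [Quaternion.re_mul, Quaternion.imI_mul, Quaternion.imJ_mul, Quaternion.imK_mul,
      f1, f2, f3, f4, g1, g2, g3, g4, k1, k2, k3, k4]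
    rw [← ht1, hct]
    ring
  · simp only [Quaternion.re_mul, Quaternion.imI_mul, Quaternion.imJ_mul, Quaternion.imK_mul,
      f1, f2, f3, f4, g1, g2, g3, g4, k1, k2, k3, k4]
    rw [← ht2, hst]
    ring
  · simp only [Quaternion.re_mul, Quaternion.imI_mul, Quaternion.imJ_mul, Quaternion.imK_mul,
      f1, f2, f3, f4, g1, g2, g3, g4, k1, k2, k3, k4]
    rw [← hs2, hss]
    ring

/-! ### NNB -/

lemma nnb_Icc (p q : ℝ) (h : p ≤ q) : (#(Icc ⌈p⌉ ⌊q⌋) : ℝ) ≤ q - p + 1 := by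
  rw [Int.card_Icc]
  have h1 : ((⌊q⌋ + 1 - ⌈p⌉).toNat : ℝ) = (((⌊q⌋ + 1 - ⌈p⌉).toNat : ℤ) : ℝ) := by norm_cast
  rw [h1, Int.toNat_eq_max]
  push_cast
  apply max_le
  · have := Int.floor_le q
    have := Int.le_ceil p
    linarith
  · linarith

lemma nnb_finite2 (k : ℕ) : Finite {x : ℤ × ℤ // x.1 ^ 2 + x.2 ^ 2 = k} := by
  have h : Set.Finite {x : ℤ × ℤ | x.1 ^ 2 + x.2 ^ 2 = k} := by
    apply Set.Finite.subset (Set.finite_Icc ((-(k : ℤ), -(k : ℤ)) : ℤ × ℤ) ((k : ℤ), (k : ℤ)))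
    rintro ⟨a, b⟩ hx
    simp only [Set.mem_ofPred_eq] at hx
    have h1 : |a| ≤ k := by
      rcases eq_or_ne a 0 with rfl | ha
      · simp
      · have : 1 ≤ |a| := Int.one_le_abs ha
        nlinarith [sq_abs a, sq_nonneg b]
    have h2 : |b| ≤ k := by
      rcases eq_or_ne b 0 with rfl | hb
      · simp
      · have : 1 ≤ |b| := Int.one_le_abs hb
        nlinarith [sq_abs b, sq_nonneg a]
    rw [abs_le] at h1 h2
    exact ⟨⟨h1.1, h2.1⟩, ⟨h1.2, h2.2⟩⟩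
  exact h.to_subtype

lemma nnb_fiber {C : ℝ} (hC : ∀ k : ℕ, 0 < k →
    (Nat.card {x : ℤ × ℤ // x.1 ^ 2 + x.2 ^ 2 = k} : ℝ) ≤ C * (k : ℝ) ^ (1 / 100 : ℝ)) (hC0 : 0 < C)
    (m : ℕ) (k : ℕ) (hk : (k : ℝ) ≤ 5 ^ (2 * m)) :
    (Nat.card {x : ℤ × ℤ // x.1 ^ 2 + x.2 ^ 2 = k} : ℝ) ≤ max C 1 * (5 : ℝ) ^ ((m : ℝ) / 50) := by
  rcases Nat.eq_zero_or_pos k with rfl | hk0
  · have h1 : Nat.card {x : ℤ × ℤ // x.1 ^ 2 + x.2 ^ 2 = ((0 : ℕ) : ℤ)} ≤ 1 := by
      have _inst := nnb_finite2 0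
      rw [Finite.card_le_one_iff_subsingleton]
      constructor
      intro x y
      have hx := x.2
      have hy := y.2
      apply Subtype.ext
      have e : ∀ z : ℤ × ℤ, z.1 ^ 2 + z.2 ^ 2 = ((0 : ℕ) : ℤ) → z = (0, 0) := by
        intro z hz
        push_cast at hz
        have a1 : z.1 ^ 2 = 0 := by nlinarith [sq_nonneg z.1, sq_nonneg z.2]
        have a2 : z.2 ^ 2 = 0 := by nlinarith [sq_nonneg z.1, sq_nonneg z.2]
        exact Prod.ext (by simpa using a1) (by simpa using a2)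
      rw [e _ hx, e _ hy]
    have h2 : (1 : ℝ) ≤ (5 : ℝ) ^ ((m : ℝ) / 50) := Real.one_le_rpow (by norm_num) (by positivity)
    have h3 : (1 : ℝ) ≤ max C 1 := le_max_right _ _
    calc (Nat.card {x : ℤ × ℤ // x.1 ^ 2 + x.2 ^ 2 = ((0 : ℕ) : ℤ)} : ℝ) ≤ 1 := by exact_mod_cast h1
      _ ≤ max C 1 * (5 : ℝ) ^ ((m : ℝ) / 50) := by nlinarith
  · refine (hC k hk0).trans ?_
    have h1 : (k : ℝ) ^ (1 / 100 : ℝ) ≤ (5 : ℝ) ^ ((m : ℝ) / 50) := by
      calc (k : ℝ) ^ (1 / 100 : ℝ) ≤ ((5 : ℝ) ^ (2 * m)) ^ (1 / 100 : ℝ) :=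
            Real.rpow_le_rpow (by positivity) hk (by norm_num)
        _ = (5 : ℝ) ^ ((m : ℝ) / 50) := by
            rw [← Real.rpow_natCast, ← Real.rpow_mul (by norm_num)]
            congr 1
            push_cast
            ring
    exact mul_le_mul (le_max_left _ _) h1 (by positivity) (by positivity)

theorem NNB (hR : ST_R2) : ST_NNB := by
  classical
  obtain ⟨C, hC0, hC⟩ := hR (1 / 100) (by norm_num)
  refine ⟨2 * max C 1, by positivity, ?_⟩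
  intro m δ hδ hδ2
  set N : ℝ := (5 : ℝ) ^ m with hN
  have hN0 : 0 < N := by positivity
  have hNN : (5 : ℝ) ^ (2 * m) = N ^ 2 := by rw [hN, ← pow_mul, mul_comm]
  set p : (Fin 4 → ℤ) → Prop := fun x => ∑ i, x i ^ 2 = 5 ^ (2 * m) ∧
    2 * ((5 : ℝ) ^ m - x 0) ≤ δ ^ 2 * 5 ^ m with hp
  -- real form of the norm equation
  have hreal : ∀ x, p x → (x 0 : ℝ) ^ 2 + (x 1 : ℝ) ^ 2 + (x 2 : ℝ) ^ 2 + (x 3 : ℝ) ^ 2 = N ^ 2 := by
    intro x hx
    have h1 := hx.1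
    rw [Fin.sum_univ_four] at h1
    rw [← hNN]
    exact_mod_cast h1
  have hfin : Set.Finite {x : Fin 4 → ℤ | p x} := by
    apply Set.Finite.subset (Set.finite_Icc (fun _ : Fin 4 => -(5 ^ m : ℤ)) (fun _ => (5 ^ m : ℤ)))
    intro x hx
    have h1 := hreal x hx
    have h2 : ∀ i, |(x i : ℝ)| ≤ N := by
      intro i
      apply abs_le_of_sq_le_sq _ hN0.le
      fin_cases i <;>
        simp only [Fin.zero_eta, Fin.mk_one, Fin.reduceFinMk] <;>
        nlinarith [sq_nonneg (x 0 : ℝ), sq_nonneg (x 1 : ℝ), sq_nonneg (x 2 : ℝ),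
          sq_nonneg (x 3 : ℝ)]
    constructor
    · intro i
      have := (abs_le.1 (h2 i)).1
      rw [hN] at this
      exact_mod_cast this
    · intro i
      have := (abs_le.1 (h2 i)).2
      rw [hN] at this
      exact_mod_cast this
  have hcard : NN m δ = Finset.card hfin.toFinset := by
    rw [NN]
    exact Nat.card_eq_card_finite_toFinset hfin
  rw [hcard]
  set S := hfin.toFinset with hS
  have hmemS : ∀ x, x ∈ S ↔ p x := by
    intro x
    rw [hS, Set.Finite.mem_toFinset]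
    rfl
  set M : ℝ := max C 1 * (5 : ℝ) ^ ((m : ℝ) / 50) with hM
  have hM0 : 0 ≤ M := by positivity
  set f : (Fin 4 → ℤ) → ℤ × ℤ := fun x => (x 0, x 1) with hf
  have hfib : ∀ ab ∈ S.image f, #{x ∈ S | f x = ab} ≤ ⌊M⌋₊ := by
    rintro ⟨a, b⟩ hab
    rw [Finset.mem_image] at hab
    obtain ⟨x₀, hx₀, hx₀f⟩ := hab
    have ha0 : x₀ 0 = a := congrArg Prod.fst hx₀f
    have hb0 : x₀ 1 = b := congrArg Prod.snd hx₀f
    have hpx := (hmemS x₀).1 hx₀
    have h1 := hpx.1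
    rw [Fin.sum_univ_four, ha0, hb0] at h1
    obtain ⟨k, hk⟩ : ∃ k : ℕ, x₀ 2 ^ 2 + x₀ 3 ^ 2 = k :=
      ⟨(x₀ 2 ^ 2 + x₀ 3 ^ 2).toNat, (Int.toNat_of_nonneg (by positivity)).symm⟩
    have hkle : (k : ℝ) ≤ 5 ^ (2 * m) := by
      have : (k : ℤ) ≤ 5 ^ (2 * m) := by
        nlinarith [sq_nonneg a, sq_nonneg b]
      exact_mod_cast this
    have h2 := nnb_fiber hC hC0 m k hkle
    apply Nat.le_floor
    refine le_trans ?_ h2
    have _inst := nnb_finite2 k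
    have h3 : #{x ∈ S | f x = (a, b)} ≤ Nat.card {x : ℤ × ℤ // x.1 ^ 2 + x.2 ^ 2 = k} := by
      have hmem : ∀ x ∈ ({x ∈ S | f x = (a, b)} : Finset (Fin 4 → ℤ)),
          x 0 = a ∧ x 1 = b ∧ x 2 ^ 2 + x 3 ^ 2 = k := by
        intro x hx
        rw [Finset.mem_filter] at hx
        have e0 : x 0 = a := congrArg Prod.fst hx.2
        have e1 : x 1 = b := congrArg Prod.snd hx.2
        have e2 := ((hmemS x).1 hx.1).1
        rw [Fin.sum_univ_four, e0, e1] at e2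
        exact ⟨e0, e1, by linarith⟩
      rw [← Nat.card_eq_finsetCard]
      apply Nat.card_le_card_of_injective
        (fun x : ({x ∈ S | f x = (a, b)} : Finset (Fin 4 → ℤ)) =>
          (⟨(x.1 2, x.1 3), (hmem x.1 x.2).2.2⟩ : {x : ℤ × ℤ // x.1 ^ 2 + x.2 ^ 2 = k}))
      intro x y hxy
      have hxy2 := congrArg Subtype.val hxy
      have c2 : x.1 2 = y.1 2 := congrArg Prod.fst hxy2
      have c3 : x.1 3 = y.1 3 := congrArg Prod.snd hxy2
      have c0 : x.1 0 = y.1 0 := by rw [(hmem x.1 x.2).1, (hmem y.1 y.2).1]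
      have c1 : x.1 1 = y.1 1 := by rw [(hmem x.1 x.2).2.1, (hmem y.1 y.2).2.1]
      apply Subtype.ext
      funext i
      fin_cases i
      · exact c0
      · exact c1
      · exact c2
      · exact c3
    exact_mod_cast h3
  have h4 := Finset.card_le_mul_card_image S ⌊M⌋₊ hfib
  -- the image
  have h5 : S.image f ⊆ Icc ⌈N - δ ^ 2 * N / 2⌉ ⌊N⌋ ×ˢ Icc ⌈-(δ * N)⌉ ⌊δ * N⌋ := by
    intro ab hab
    rw [Finset.mem_image] at hab
    obtain ⟨x, hx, rfl⟩ := hab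
    have hpx := (hmemS x).1 hx
    have hr := hreal x hpx
    have h6 : 2 * (N - x 0) ≤ δ ^ 2 * N := hpx.2
    have h7 : (x 0 : ℝ) ≤ N := by
      apply abs_le_of_sq_le_sq' _ hN0.le |>.2
      nlinarith [sq_nonneg (x 1 : ℝ), sq_nonneg (x 2 : ℝ), sq_nonneg (x 3 : ℝ)]
    have h7' : -N ≤ (x 0 : ℝ) := by
      apply abs_le_of_sq_le_sq' _ hN0.le |>.1
      nlinarith [sq_nonneg (x 1 : ℝ), sq_nonneg (x 2 : ℝ), sq_nonneg (x 3 : ℝ)]
    have h8 : (x 1 : ℝ) ^ 2 ≤ (δ * N) ^ 2 := by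
      have e : (N - x 0) * (N + x 0) ≤ (δ ^ 2 * N / 2) * (2 * N) :=
        mul_le_mul (by linarith) (by linarith) (by linarith) (by positivity)
      nlinarith [sq_nonneg (x 2 : ℝ), sq_nonneg (x 3 : ℝ)]
    have h9 := abs_le_of_sq_le_sq' h8 (by positivity)
    rw [Finset.mem_product, Finset.mem_Icc, Finset.mem_Icc]
    refine ⟨⟨?_, ?_⟩, ⟨?_, ?_⟩⟩
    · rw [Int.ceil_le]; simp only [hf]; linarith
    · rw [Int.le_floor]; simp only [hf]; exact h7
    · rw [Int.ceil_le]; simp only [hf]; exact h9.1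
    · rw [Int.le_floor]; simp only [hf]; exact h9.2
  have h6 : (#(S.image f) : ℝ) ≤ (δ ^ 2 * N / 2 + 1) * (2 * (δ * N) + 1) := by
    have e1 : (#(S.image f) : ℝ) ≤
        #(Icc ⌈N - δ ^ 2 * N / 2⌉ ⌊N⌋ ×ˢ Icc ⌈-(δ * N)⌉ ⌊δ * N⌋) := by
      exact_mod_cast Finset.card_le_card h5
    refine e1.trans ?_
    rw [Finset.card_product]
    push_cast
    have e2 := nnb_Icc (N - δ ^ 2 * N / 2) N (by nlinarith [mul_pos (pow_pos hδ 2) hN0])
    have e3 := nnb_Icc (-(δ * N)) (δ * N) (by nlinarith [mul_pos hδ hN0])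
    refine mul_le_mul (by linarith) (by linarith) (by positivity) (by positivity)
  calc (#S : ℝ) ≤ (⌊M⌋₊ : ℝ) * #(S.image f) := by exact_mod_cast h4
    _ ≤ M * ((δ ^ 2 * N / 2 + 1) * (2 * (δ * N) + 1)) :=
        mul_le_mul (Nat.floor_le hM0) h6 (by positivity) hM0
    _ ≤ 2 * max C 1 * (δ ^ 2 * N + 1) * (δ * N + 1) * (5 : ℝ) ^ ((m : ℝ) / 50) := by
        have h10 : (δ ^ 2 * N / 2 + 1) * (2 * (δ * N) + 1) ≤
            2 * ((δ ^ 2 * N + 1) * (δ * N + 1)) := by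
          have : 0 < δ * N := by positivity
          have : 0 < δ ^ 2 * N := by positivity
          nlinarith [mul_pos this (by positivity : 0 < δ * N)]
        calc M * ((δ ^ 2 * N / 2 + 1) * (2 * (δ * N) + 1))
            ≤ M * (2 * ((δ ^ 2 * N + 1) * (δ * N + 1))) := mul_le_mul_of_nonneg_left h10 hM0
          _ = 2 * max C 1 * (δ ^ 2 * N + 1) * (δ * N + 1) * (5 : ℝ) ^ ((m : ℝ) / 50) := by
              rw [hM]; ring

end

end SG23
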