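import Pool.Agent.N571.EX.Stm

/-!
# Project EX, part HAA: the Haagerup property of `L(K)` for a union `K` of finite subgroups
-/

set_option autoImplicit false

namespace Pool.Agent.N571.EX

open Filter Topology
open scoped InnerProductSpace ComplexOrder
open Pool.Agent.H494R3.GT (L2 dl inner_dl dl_inner vec_ext op_ext op_ext_inner mul_ap
  dl_apply_self dl_apply_ne)
open Pool.Agent.N557.QW (lam rgt LG LK cf rc lam_dl lam_mem lam_one mem_LG_iff)

noncomputable section

namespace HAA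

variable {G : Type} [Group G]

/-- the positivity of a block sum -/
lemma block_nonneg {E Q : Type} [NormedAddCommGroup E] [InnerProductSpace ℂ E] (q : G → Q)
    (F : Finset G) (w : G → E) [DecidableEq Q] :
    0 ≤ ∑ t ∈ F, ∑ s ∈ F, (if q t = q s then ⟪w t, w s⟫_ℂ else 0) := by
  have h1 : ∑ t ∈ F, ∑ s ∈ F, (if q t = q s then ⟪w t, w s⟫_ℂ else 0) =
      ∑ c ∈ F.image q, ⟪∑ t ∈ F with q t = c, w t, ∑ s ∈ F with q s = c, w s⟫_ℂ := by
    rw [← Finset.sum_fiberwise_of_maps_to (s := F) (t := F.image q) (g := q)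
      (fun i hi => Finset.mem_image_of_mem q hi)]
    apply Finset.sum_congr rfl
    intro c _
    rw [sum_inner]
    apply Finset.sum_congr rfl
    intro t ht
    rw [inner_sum, Finset.sum_filter]
    apply Finset.sum_congr rfl
    intro s _
    have hc : q t = c := (Finset.mem_filter.1 ht).2
    subst hc
    by_cases h : q t = q s
    · rw [if_pos h, if_pos h.symm]
    · rw [if_neg h, if_neg fun h' => h h'.symm]
  rw [h1]
  apply Finset.sum_nonneg
  intro c _
  rw [inner_self_eq_norm_sq_to_K]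
  have : (0 : ℂ) ≤ ((‖∑ t ∈ F with q t = c, w t‖ ^ 2 : ℝ) : ℂ) := by
    rw [Complex.zero_le_real]
    positivity
  simp

lemma single_eq (g : G) (c : ℂ) [DecidableEq G] : (lp.single 2 g c : L2 G) = c • dl g := by
  apply vec_ext
  intro x
  by_cases h : x = g
  · subst h
    rw [lp.coeFn_smul, Pi.smul_apply, dl_apply_self]
    simp
  · rw [lp.coeFn_smul, Pi.smul_apply, dl_apply_ne h]
    simp [lp.single_apply, h]

lemma hasSum_dl (v : L2 G) : HasSum (fun g => (v g) • (dl g : L2 G)) v := by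
  classical
  have h := lp.hasSum_single (p := 2) (by norm_num) v
  refine h.congr_fun ?_
  intro g
  exact (single_eq g (v g)).symm

/-- the elements of a finite subgroup -/
def Lf (L : Subgroup G) [Finite L] : Finset G := (Set.toFinite (L : Set G)).toFinset

lemma mem_Lf {L : Subgroup G} [Finite L] {g : G} : g ∈ Lf L ↔ g ∈ L := by
  simp [Lf]

open scoped Classical in
lemma cf_lam (g t : G) : cf (lam g) t = if t = g then 1 else 0 := by
  rw [cf, lam_dl, mul_one, dl_inner]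

/-- `lam g` as an element of `L(K)` -/
def lamK (hT : S_TR) (K : Subgroup G) (g : K) : El (LK K) :=
  ⟨lam (g : G), by
    classical
    have h := ((hT G K).1 (lam (g : G))).2 ⟨lam_mem _, fun t ht => by
      rw [cf_lam, if_neg]
      rintro rfl
      exact ht g.2⟩
    exact h⟩

/-- the coefficient as a linear map -/
def cfL (K : Subgroup G) (g : G) : El (LK K) →ₗ[ℂ] ℂ where
  toFun x := cf (x : L2 G →L[ℂ] L2 G) g
  map_add' x y := by
    simp only [cf]
    rw [← inner_add_right]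
    rfl
  map_smul' c x := by
    simp only [cf]
    rw [RingHom.id_apply, smul_eq_mul, ← inner_smul_right]
    rfl

/-- the maps -/
def phi (hT : S_TR) (K L : Subgroup G) [Finite L] (hL : L ≤ K) : El (LK K) →ₗ[ℂ] El (LK K) :=
  ∑ g ∈ (Lf L).attach, (cfL K (g : G)).smulRight (lamK hT K ⟨g, hL (mem_Lf.1 g.2)⟩)

lemma phi_coe (hT : S_TR) (K L : Subgroup G) [Finite L] (hL : L ≤ K) (x : El (LK K)) :
    (phi hT K L hL x : L2 G →L[ℂ] L2 G) =
      ∑ g ∈ Lf L, cf (x : L2 G →L[ℂ] L2 G) g • lam g := by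
  rw [phi, LinearMap.sum_apply]
  have h1 : ∀ (s : Finset (Lf L)) (f : Lf L → El (LK K)),
      ((∑ g ∈ s, f g : El (LK K)) : L2 G →L[ℂ] L2 G) = ∑ g ∈ s, (f g : L2 G →L[ℂ] L2 G) := by
    intro s f
    exact map_sum (LK K).toStarSubalgebra.subtype f s
  rw [h1, ← Finset.sum_attach (Lf L)]
  rfl

lemma phi_ap (hT : S_TR) (K L : Subgroup G) [Finite L] (hL : L ≤ K) (x : El (LK K)) (v : L2 G) :
    (phi hT K L hL x : L2 G →L[ℂ] L2 G) v =
      ∑ g ∈ Lf L, cf (x : L2 G →L[ℂ] L2 G) g • lam g v := by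
  rw [phi_coe, sum_apply]
  rfl

lemma phi_one (hT : S_TR) (K L : Subgroup G) [Finite L] (hL : L ≤ K) : phi hT K L hL 1 = 1 := by
  classical
  apply Subtype.ext
  rw [phi_coe]
  have h1 : ∀ g : G, cf ((1 : El (LK K)) : L2 G →L[ℂ] L2 G) g = if g = 1 then 1 else 0 := by
    intro g
    change cf (1 : L2 G →L[ℂ] L2 G) g = _
    rw [← lam_one, cf_lam]
  rw [Finset.sum_eq_single (1 : G)]
  · rw [h1, if_pos rfl, one_smul, lam_one]
    rfl
  · intro g _ hg
    rw [h1, if_neg hg, zero_smul]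
  · intro h
    exact absurd (mem_Lf.2 L.one_mem) h

lemma phi_normal (hT : S_TR) (K L : Subgroup G) [Finite L] (hL : L ≤ K) :
    Normal (LK K) (fun x => (phi hT K L hL x : L2 G →L[ℂ] L2 G)) := by
  intro x x₀ C _ hx w
  simp only [phi_ap]
  apply tendsto_finsetSum
  intro g _
  apply Tendsto.smul_const
  simp only [cf]
  exact Tendsto.inner tendsto_const_nhds (hx (dl 1))

lemma phi_trace (hT : S_TR) (K L : Subgroup G) [Finite L] (hL : L ≤ K) (x : El (LK K)) :
    ⟪dl (1 : G), (phi hT K L hL x : L2 G →L[ℂ] L2 G) (dl 1)⟫_ℂ =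
      ⟪dl (1 : G), (x : L2 G →L[ℂ] L2 G) (dl 1)⟫_ℂ := by
  classical
  rw [phi_ap, inner_sum, Finset.sum_eq_single (1 : G)]
  · rw [inner_smul_right, lam_dl, mul_one, dl_inner, if_pos rfl, mul_one]
    rfl
  · intro g _ hg
    rw [inner_smul_right, lam_dl, mul_one, dl_inner, if_neg (Ne.symm hg), mul_zero]
  · intro h
    exact absurd (mem_Lf.2 L.one_mem) h

lemma mem_LG_of (hT : S_TR) (K : Subgroup G) (x : El (LK K)) : (x : L2 G →L[ℂ] L2 G) ∈ LG G :=
  (((hT G K).1 (x : L2 G →L[ℂ] L2 G)).1 x.2).1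

lemma cf_out (hT : S_TR) (K : Subgroup G) (x : El (LK K)) {g : G} (hg : g ∉ K) :
    cf (x : L2 G →L[ℂ] L2 G) g = 0 :=
  (((hT G K).1 (x : L2 G →L[ℂ] L2 G)).1 x.2).2 g hg

lemma sum4_swap {A B : Type} [Fintype A] (F : Finset B) (f : A → A → B → B → ℂ) :
    ∑ i, ∑ j, ∑ t ∈ F, ∑ s ∈ F, f i j t s = ∑ t ∈ F, ∑ s ∈ F, ∑ i, ∑ j, f i j t s := by
  calc ∑ i, ∑ j, ∑ t ∈ F, ∑ s ∈ F, f i j t s
      = ∑ i, ∑ t ∈ F, ∑ j, ∑ s ∈ F, f i j t s :=
        Finset.sum_congr rfl fun i _ => Finset.sum_comm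
    _ = ∑ t ∈ F, ∑ i, ∑ j, ∑ s ∈ F, f i j t s := Finset.sum_comm
    _ = ∑ t ∈ F, ∑ i, ∑ s ∈ F, ∑ j, f i j t s :=
        Finset.sum_congr rfl fun t _ => Finset.sum_congr rfl fun i _ => Finset.sum_comm
    _ = ∑ t ∈ F, ∑ s ∈ F, ∑ i, ∑ j, f i j t s :=
        Finset.sum_congr rfl fun t _ => Finset.sum_comm

open scoped Classical in
lemma phi_entry (hT : S_TR) (K L : Subgroup G) [Finite L] (hL : L ≤ K) (x : El (LK K)) (s t : G) :
    ⟪dl t, (phi hT K L hL x : L2 G →L[ℂ] L2 G) (dl s)⟫_ℂ =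
      if t * s⁻¹ ∈ L then ⟪dl t, (x : L2 G →L[ℂ] L2 G) (dl s)⟫_ℂ else 0 := by
  rw [phi_ap, inner_sum]
  have h1 : ∀ g ∈ Lf L, ⟪dl t, cf (x : L2 G →L[ℂ] L2 G) g • lam g (dl s)⟫_ℂ =
      if g = t * s⁻¹ then cf (x : L2 G →L[ℂ] L2 G) g else 0 := by
    intro g _
    rw [inner_smul_right, lam_dl, dl_inner]
    by_cases h : g = t * s⁻¹
    · rw [if_pos h, if_pos, mul_one]
      rw [h]; group
    · rw [if_neg h, if_neg, mul_zero]
      intro h'
      apply h
      rw [h']; group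
  rw [Finset.sum_congr rfl h1, Finset.sum_ite_eq']
  rw [(mem_LG_iff.1 (mem_LG_of hT K x)) s t]
  by_cases h : t * s⁻¹ ∈ L
  · rw [if_pos h, if_pos (mem_Lf.2 h)]
  · rw [if_neg h, if_neg fun h' => h (mem_Lf.1 h')]

lemma phi_cp (hT : S_TR) (K L : Subgroup G) [Finite L] (hL : L ≤ K) (n : ℕ)
    (x : Fin n → El (LK K)) (v : Fin n → L2 G) :
    0 ≤ ∑ i, ∑ j, ⟪v i, (phi hT K L hL (star (x i) * x j) : L2 G →L[ℂ] L2 G) (v j)⟫_ℂ := by
  classical
  -- truncations
  set tr : Finset G → Fin n → L2 G := fun F i => ∑ g ∈ F, (v i g) • (dl g : L2 G) with htr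
  have hlim : ∀ i, Tendsto (fun F => tr F i) atTop (𝓝 (v i)) := fun i => hasSum_dl (v i)
  have hT1 : Tendsto (fun F => ∑ i, ∑ j,
      ⟪tr F i, (phi hT K L hL (star (x i) * x j) : L2 G →L[ℂ] L2 G) (tr F j)⟫_ℂ) atTop
      (𝓝 (∑ i, ∑ j, ⟪v i, (phi hT K L hL (star (x i) * x j) : L2 G →L[ℂ] L2 G) (v j)⟫_ℂ)) := by
    apply tendsto_finsetSum
    intro i _
    apply tendsto_finsetSum
    intro j _
    exact Tendsto.inner (hlim i)
      (((phi hT K L hL (star (x i) * x j) : L2 G →L[ℂ] L2 G).continuous.tendsto _).comp (hlim j))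
  refine ge_of_tendsto' hT1 ?_
  intro F
  -- the block form
  have hrel : ∀ s t : G, (Quotient.mk (QuotientGroup.rightRel L) t =
      Quotient.mk (QuotientGroup.rightRel L) s) ↔ t * s⁻¹ ∈ L := by
    intro s t
    rw [Quotient.eq]
    rw [QuotientGroup.rightRel_apply]
    constructor
    · intro h
      have := L.inv_mem h
      simpa using this
    · intro h
      have := L.inv_mem h
      simpa using this
  have hkey : ∑ i, ∑ j,
      ⟪tr F i, (phi hT K L hL (star (x i) * x j) : L2 G →L[ℂ] L2 G) (tr F j)⟫_ℂ =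
      ∑ t ∈ F, ∑ s ∈ F, (if Quotient.mk (QuotientGroup.rightRel L) t =
        Quotient.mk (QuotientGroup.rightRel L) s then
        ⟪∑ i, (v i t) • (x i : L2 G →L[ℂ] L2 G) (dl t),
          ∑ j, (v j s) • (x j : L2 G →L[ℂ] L2 G) (dl s)⟫_ℂ else 0) := by
    have e1 : ∀ i j, ⟪tr F i, (phi hT K L hL (star (x i) * x j) : L2 G →L[ℂ] L2 G) (tr F j)⟫_ℂ =
        ∑ t ∈ F, ∑ s ∈ F, (if t * s⁻¹ ∈ L then
          ⟪(v i t) • (x i : L2 G →L[ℂ] L2 G) (dl t),
            (v j s) • (x j : L2 G →L[ℂ] L2 G) (dl s)⟫_ℂ else 0) := by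
      intro i j
      simp only [htr]
      rw [sum_inner]
      apply Finset.sum_congr rfl
      intro t _
      rw [map_sum, inner_sum]
      apply Finset.sum_congr rfl
      intro s _
      rw [map_smul, inner_smul_left, inner_smul_right, phi_entry]
      by_cases h : t * s⁻¹ ∈ L
      · rw [if_pos h, if_pos h, inner_smul_left, inner_smul_right]
        congr 2
        have : ((star (x i) * x j : El (LK K)) : L2 G →L[ℂ] L2 G) =
            star (x i : L2 G →L[ℂ] L2 G) * (x j : L2 G →L[ℂ] L2 G) := rfl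
        rw [this, mul_ap, ContinuousLinearMap.star_eq_adjoint,
          ContinuousLinearMap.adjoint_inner_right]
      · rw [if_neg h, if_neg h, mul_zero, mul_zero]
    simp only [e1]
    rw [sum4_swap]
    apply Finset.sum_congr rfl
    intro t _
    apply Finset.sum_congr rfl
    intro s _
    by_cases h : t * s⁻¹ ∈ L
    · rw [if_pos ((hrel s t).2 h), sum_inner]
      apply Finset.sum_congr rfl
      intro i _
      rw [inner_sum]
      apply Finset.sum_congr rfl
      intro j _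
      rw [if_pos h]
    · rw [if_neg fun h' => h ((hrel s t).1 h')]
      apply Finset.sum_eq_zero
      intro i _
      apply Finset.sum_eq_zero
      intro j _
      rw [if_neg h]
  rw [hkey]
  exact block_nonneg _ F _

lemma compact_rank (g : G) :
    IsCompactOperator (((innerSL ℂ (dl g : L2 G)).smulRight (dl g : L2 G)) : L2 G →L[ℂ] L2 G) := by
  have h : IsCompactOperator (innerSL ℂ (dl g : L2 G)) :=
    isCompactOperator_of_locallyCompactSpace_dom (innerSL ℂ (dl g : L2 G))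
  have h2 := h.clm_comp ((ContinuousLinearMap.toSpanSingleton ℂ (dl g : L2 G)))
  exact h2

lemma phi_compact (hT : S_TR) (K L : Subgroup G) [Finite L] (hL : L ≤ K) :
    ∃ T : L2 G →L[ℂ] L2 G, IsCompactOperator T ∧ ∀ x : El (LK K),
      T ((x : L2 G →L[ℂ] L2 G) (dl 1)) = (phi hT K L hL x : L2 G →L[ℂ] L2 G) (dl 1) := by
  classical
  refine ⟨∑ g ∈ Lf L, (innerSL ℂ (dl g : L2 G)).smulRight (dl g : L2 G), ?_, ?_⟩
  · have : ∀ s : Finset G, IsCompactOperator
        ((∑ g ∈ s, (innerSL ℂ (dl g : L2 G)).smulRight (dl g : L2 G) : L2 G →L[ℂ] L2 G)) := by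
      intro s
      induction s using Finset.induction_on with
      | empty =>
        rw [Finset.sum_empty]
        exact isCompactOperator_zero
      | insert a s ha ih =>
        rw [Finset.sum_insert ha]
        exact (compact_rank a).add ih
    exact this _
  · intro x
    rw [phi_ap, sum_apply]
    apply Finset.sum_congr rfl
    intro g _
    rw [lam_dl, mul_one]
    rfl

lemma phi_tendsto (hT : S_TR) (K : Subgroup G) (Kn : ℕ → Subgroup G) (hm : Monotone Kn)
    [∀ n, Finite (Kn n)] (hK : ∀ x, x ∈ K ↔ ∃ n, x ∈ Kn n) (hle : ∀ n, Kn n ≤ K)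
    (x : El (LK K)) :
    Tendsto (fun k => ‖(phi hT K (Kn k) (hle k) x : L2 G →L[ℂ] L2 G) (dl 1) -
      (x : L2 G →L[ℂ] L2 G) (dl 1)‖) atTop (𝓝 0) := by
  classical
  set v : L2 G := (x : L2 G →L[ℂ] L2 G) (dl 1) with hv
  have h1 : ∀ g, cf (x : L2 G →L[ℂ] L2 G) g = v g := fun g => by rw [cf, inner_dl]
  have hout : ∀ g, g ∉ K → v g = 0 := fun g hg => by rw [← h1, cf_out hT K x hg]
  have h2 : ∀ k, (phi hT K (Kn k) (hle k) x : L2 G →L[ℂ] L2 G) (dl 1) =
      ∑ g ∈ Lf (Kn k), v g • (dl g : L2 G) := by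
    intro k
    rw [phi_ap]
    apply Finset.sum_congr rfl
    intro g _
    rw [h1, lam_dl, mul_one]
  have hs := hasSum_dl v
  rw [HasSum, SummationFilter.unconditional_filter, Metric.tendsto_atTop] at hs
  rw [Metric.tendsto_atTop]
  intro ε hε
  obtain ⟨F, hF⟩ := hs ε hε
  -- a level containing `F ∩ K`
  have hN : ∃ N, ∀ g ∈ F, g ∈ K → g ∈ Kn N := by
    clear hF
    induction F using Finset.induction_on with
    | empty => exact ⟨0, by simp⟩
    | insert a s ha ih =>
      obtain ⟨N, hN⟩ := ih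
      by_cases haK : a ∈ K
      · obtain ⟨m, hmm⟩ := (hK a).1 haK
        refine ⟨max N m, ?_⟩
        intro g hg hgK
        rcases Finset.mem_insert.1 hg with rfl | hg
        · exact hm (le_max_right N m) hmm
        · exact hm (le_max_left N m) (hN g hg hgK)
      · refine ⟨N, ?_⟩
        intro g hg hgK
        rcases Finset.mem_insert.1 hg with rfl | hg
        · exact absurd hgK haK
        · exact hN g hg hgK
  obtain ⟨N, hN⟩ := hN
  refine ⟨N, ?_⟩
  intro k hk
  have h3 := hF (Lf (Kn k) ∪ F) Finset.subset_union_right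
  have h4 : ∑ g ∈ Lf (Kn k) ∪ F, v g • (dl g : L2 G) = ∑ g ∈ Lf (Kn k), v g • (dl g : L2 G) := by
    symm
    apply Finset.sum_subset Finset.subset_union_left
    intro g hg hg2
    rcases Finset.mem_union.1 hg with hg | hg
    · exact absurd hg hg2
    · have : g ∉ K := fun hgK => hg2 (mem_Lf.2 (hm hk (hN g hg hgK)))
      rw [hout g this, zero_smul]
  rw [h4, dist_eq_norm] at h3
  rw [h2, Real.dist_eq, sub_zero, abs_of_nonneg (norm_nonneg _)]
  exact h3

end HAA

theorem t_haa (h : S_TR) : S_HAA := by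
  intro G _ K Kn hm hf hK
  have _inst : ∀ n, Finite (Kn n) := hf
  have hle : ∀ n, Kn n ≤ K := fun n x hx => (hK x).2 ⟨n, hx⟩
  refine ⟨fun k => HAA.phi h K (Kn k) (hle k), ?_, ?_⟩
  · intro k
    exact ⟨HAA.phi_one h K _ (hle k), HAA.phi_normal h K _ (hle k), HAA.phi_trace h K _ (hle k),
      fun n x v => HAA.phi_cp h K _ (hle k) n x v, HAA.phi_compact h K _ (hle k)⟩
  · intro x
    exact HAA.phi_tendsto h K Kn hm hK hle x

end

end Pool.Agent.N571.EX

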