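import Pool.Agent.N964.GX.Stm
import Pool.Agent.N99.MXD

set_option autoImplicit false

/-!
# Project GX, part H: polynomial growth of the reciprocal
-/

namespace Pool.Agent.N669.GX

open Complex
open Pool.Agent.N964.GX
open Pool.Agent.N964.MX (Dd kk ww Pl cc)
open Pool.Agent.Y23 (Lg)

theorem Dd_anti {l δ δ' : ℝ} (hl : 1 ≤ l) (hδ : 0 < δ) (h : δ ≤ δ') : Dd l δ' ≤ Dd l δ := by
  unfold Dd
  have h0 : 0 < l * δ := by positivity
  have h1 : 0 < l * δ' := by
    have : 0 < δ' := hδ.trans_le h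
    positivity
  have h2 : 1 / (l * δ') ≤ 1 / (l * δ) :=
    one_div_le_one_div_of_le h0 (by gcongr)
  have h3 : 0 < 1 / (l * δ') := by positivity
  exact Real.log_le_log (by linarith) (by linarith)

theorem Dd_le' {l δ : ℝ} (hl : 1 ≤ l) (hδ : 0 < δ) : Dd l δ ≤ 1 / (l * δ) := by
  unfold Dd
  have h0 : 0 < 1 / (l * δ) := by positivity
  have := Real.log_le_sub_one_of_pos (x := 1 + 1 / (l * δ)) (by linarith)
  linarith

theorem Dd_nn {l δ : ℝ} (hl : 1 ≤ l) (hδ : 0 < δ) : 0 ≤ Dd l δ := by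
  unfold Dd
  have h0 : 0 < 1 / (l * δ) := by positivity
  exact Real.log_nonneg (by linarith)

/-- the bound in the upper half plane -/
theorem up (hpt : S_pt) {k : ℕ} {A : ℝ} {lc : ℝ → ℝ} {F : ℂ → ℂ} {a : ℕ → ℂ} (h : LR k A lc F a)
    {δ : ℝ} (hδ : 0 < δ) (hδ1 : δ ≤ 1) : ∃ C R : ℝ, 0 < C ∧ 1 ≤ R ∧ ∀ t δ' : ℝ, R ≤ t → δ ≤ δ' →
      δ' ≤ 1 → ‖F (1 / 2 + δ' + t * I)‖⁻¹ ≤ C * (1 + |t|) ^ (1 / 2 : ℝ) := by
  obtain ⟨C1, hC1, h1⟩ := hpt k A lc F a h
  obtain ⟨C0, hC0, h0⟩ := Pool.Agent.N99.MXD.coef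
  have hk : (1 : ℝ) ≤ k := by exact_mod_cast h.hk
  set l : ℝ := 1 + 2 * k / δ with hl
  have hl1 : 1 ≤ l := by
    have : 0 < 2 * (k : ℝ) / δ := by positivity
    linarith
  have hl2 : 2 * k / δ ≤ l := by linarith
  have hD0 := Dd_nn hl1 hδ
  have hlog : 0 ≤ Real.log l := Real.log_nonneg hl1
  have hcoef : k / l * Dd l δ ≤ 1 / 2 := by
    have e1 : k / l * Dd l δ ≤ k / l * (1 / (l * δ)) := by
      gcongr
      exact Dd_le' hl1 hδ
    have e2 : k / l * (1 / (l * δ)) ≤ 1 / 2 := by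
      have hlp : 0 < l := by linarith
      rw [div_mul_div_comm, div_le_div_iff₀ (by positivity) (by norm_num)]
      have e3 : 2 * (k : ℝ) ≤ l * δ := by
        rw [div_le_iff₀ hδ] at hl2
        exact hl2
      have e4 : l * δ ≤ l * (l * δ) := by
        have : 0 ≤ l * δ := by positivity
        nlinarith
      linarith
    exact e1.trans e2
  refine ⟨2 * Real.exp (C1 * (1 + Real.log l + Dd l δ) + k * (C0 * Real.exp (l / 2) * (1 + Dd l δ))),
    max (max C1 (Real.exp (8 * l))) 1, by positivity, le_max_right _ _, ?_⟩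
  intro t δ' ht h2 h3
  have ht1 : C1 ≤ t := (le_max_left _ _).trans ((le_max_left _ _).trans ht)
  have ht2 : Real.exp (8 * l) ≤ t := (le_max_right _ _).trans ((le_max_left _ _).trans ht)
  have ht0 : 0 < t := by linarith
  have hδ' : 0 < δ' := hδ.trans_le h2
  have hb := h1 t δ' l ht1 hδ' h3 hl1 ht2
  have hDD := Dd_anti hl1 hδ h2
  have hD0' := Dd_nn hl1 hδ'
  obtain ⟨hw, -, hs, -⟩ := h0 l δ' hl1 hδ' h3
  have hPA : ‖PA a l δ' t‖ ≤ k * (C0 * Real.exp (l / 2) * (1 + Dd l δ)) := by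
    unfold PA
    calc ‖∑ p ∈ Pl l, (((cc l δ' p : ℝ) : ℂ) * al a p) * (p : ℂ) ^ (-(t : ℂ) * I)‖
        ≤ ∑ p ∈ Pl l, ‖(((cc l δ' p : ℝ) : ℂ) * al a p) * (p : ℂ) ^ (-(t : ℂ) * I)‖ := norm_sum_le _ _
      _ ≤ ∑ p ∈ Pl l, k * cc l δ' p := by
          refine Finset.sum_le_sum fun p hp => ?_
          simp only [Pl, Finset.mem_filter, Finset.mem_range] at hp
          have hpp : p.Prime := hp.2
          have hp0 : (0 : ℝ) < p := by exact_mod_cast hpp.pos
          have hlp : 0 < Real.log p := Real.log_pos (by exact_mod_cast hpp.one_lt)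
          have hlp2 : Real.log p ≤ l := by
            rw [Real.log_le_iff_le_exp hp0]
            exact (Nat.le_floor_iff (Real.exp_pos l).le).1 (by omega)
          have hww := (hw _ hlp hlp2).1
          have hcc : 0 ≤ cc l δ' p := by
            unfold cc
            positivity
          have hal : ‖al a p‖ ≤ k := by
            unfold al
            rw [norm_div, Complex.norm_real, Real.norm_of_nonneg hlp.le, div_le_iff₀ hlp]
            have := h.ram p
            rwa [ArithmeticFunction.vonMangoldt_apply_prime hpp] at this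
          have hn : ‖(p : ℂ) ^ (-(t : ℂ) * I)‖ = 1 := by
            rw [Complex.norm_natCast_cpow_of_pos hpp.pos]
            simp
          rw [norm_mul, norm_mul, hn, mul_one, Complex.norm_real, Real.norm_of_nonneg hcc, mul_comm]
          gcongr
      _ = k * ∑ p ∈ Pl l, cc l δ' p := by rw [Finset.mul_sum]
      _ ≤ k * (C0 * Real.exp (l / 2) * (1 + Dd l δ)) := by
          refine mul_le_mul_of_nonneg_left (hs.trans ?_) (by linarith)
          gcongr
  have hLg : 0 ≤ Lg t := by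
    unfold Lg
    exact Real.log_nonneg (by linarith [abs_nonneg t])
  have hLgk : k * Lg t / l * Dd l δ' ≤ 1 / 2 * Lg t := by
    have hlp : 0 < l := by linarith
    calc k * Lg t / l * Dd l δ' ≤ k * Lg t / l * Dd l δ := by gcongr
      _ = (k / l * Dd l δ) * Lg t := by ring
      _ ≤ 1 / 2 * Lg t := by gcongr
  have hCC : C1 * (1 + Real.log l + Dd l δ') ≤ C1 * (1 + Real.log l + Dd l δ) := by
    have : 0 < C1 := by linarith
    gcongr
  calc ‖F (1 / 2 + δ' + t * I)‖⁻¹
      ≤ Real.exp (k * Lg t / l * Dd l δ' + C1 * (1 + Real.log l + Dd l δ') + ‖PA a l δ' t‖) := hb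
    _ ≤ Real.exp (1 / 2 * Lg t + (C1 * (1 + Real.log l + Dd l δ) +
          k * (C0 * Real.exp (l / 2) * (1 + Dd l δ)))) := by
        apply Real.exp_le_exp.2
        linarith
    _ = (3 + |t|) ^ (1 / 2 : ℝ) * Real.exp (C1 * (1 + Real.log l + Dd l δ) +
          k * (C0 * Real.exp (l / 2) * (1 + Dd l δ))) := by
        rw [Real.exp_add]
        congr 1
        rw [Real.rpow_def_of_pos (by positivity)]
        unfold Lg
        ring_nf
    _ ≤ (2 * (1 + |t|) ^ (1 / 2 : ℝ)) * Real.exp (C1 * (1 + Real.log l + Dd l δ) +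
          k * (C0 * Real.exp (l / 2) * (1 + Dd l δ))) := by
        gcongr
        have e1 : (2 : ℝ) = (4 : ℝ) ^ (1 / 2 : ℝ) := by
          rw [show (4 : ℝ) = 2 ^ (2 : ℝ) by norm_num, ← Real.rpow_mul (by norm_num)]
          norm_num
        calc (3 + |t|) ^ (1 / 2 : ℝ) ≤ (4 * (1 + |t|)) ^ (1 / 2 : ℝ) := by
              apply Real.rpow_le_rpow (by positivity) _ (by norm_num)
              linarith [abs_nonneg t]
          _ = 2 * (1 + |t|) ^ (1 / 2 : ℝ) := by
              rw [Real.mul_rpow (by norm_num) (by positivity), ← e1]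
    _ = _ := by ring

theorem fi_eq {k r : ℕ} {A : ℝ} {lc : ℝ → ℝ} {F F' E : ℂ → ℂ} {a a' b : ℕ → ℂ}
    (h : LL k r A lc F F' E a a' b) {s : ℂ} (hs : s ≠ 1) : fi r E s = (F s)⁻¹ := by
  unfold fi
  rw [h.hE s hs]
  have : (s - 1) ^ r ≠ 0 := pow_ne_zero _ (sub_ne_zero.2 hs)
  by_cases hF : F s = 0
  · simp [hF]
  · field_simp

/-- (GX/H) polynomial growth of the reciprocal -/
theorem gr : S_gr := by
  intro hpt hlow k r A lc F F' E a a' b h hnz δ hδ hδ4
  have hF : ∀ s : ℂ, 1 / 2 < s.re → s ≠ 1 → F s ≠ 0 := by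
    intro s hs hs1 h0
    apply hnz s hs
    rw [h.hE s hs1, h0, mul_zero]
  have hLR : LR k A lc F a := ⟨h.hk, h.hA, h.hlc, h.good, h.ram, fun s hs1 hs2 => hF s hs1 (by
    rintro rfl; simp at hs2; linarith)⟩
  have hLR' : LR k A lc F' a' := ⟨h.hk, h.hA, h.hlc, h.good', h.ram', fun s hs1 hs2 => by
    rw [h.hconj s]
    intro h0
    rw [map_eq_zero] at h0
    refine hF _ (by simpa using hs1) ?_ h0
    intro h1
    have := congrArg Complex.im h1
    simp at this
    linarith⟩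
  obtain ⟨C1, R1, hC1, hR1, h1⟩ := up hpt hLR hδ (by linarith)
  obtain ⟨C2, R2, hC2, hR2, h2⟩ := up hpt hLR' hδ (by linarith)
  set R := max R1 R2 with hR
  obtain ⟨C3, hC3, h3⟩ := hlow r E h.ent hnz R
  set B0 : ℝ := ∑' n : ℕ, ‖LSeries.term b ((3 / 2 : ℝ) : ℂ) n‖ with hB0
  have hsum : Summable fun n : ℕ => ‖LSeries.term b ((3 / 2 : ℝ) : ℂ) n‖ :=
    (h.sb ((3 / 2 : ℝ) : ℂ) (by norm_num)).norm
  have hB0' : 0 ≤ B0 := tsum_nonneg fun _ => norm_nonneg _
  have hδ1 : 0 ≤ Real.log (1 / δ) := Real.log_nonneg (by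
    rw [le_div_iff₀ hδ]; linarith)
  refine ⟨B0 + C1 + C2 + Real.exp (C3 * (1 + Real.log (1 / δ))), by positivity, ?_⟩
  intro s hs
  have hone : (1 : ℝ) ≤ (1 + |s.im|) ^ (1 / 2 : ℝ) :=
    Real.one_le_rpow (by linarith [abs_nonneg s.im]) (by norm_num)
  have hexp : 0 < Real.exp (C3 * (1 + Real.log (1 / δ))) := Real.exp_pos _
  by_cases hs2 : 3 / 2 ≤ s.re
  · have hs1 : s ≠ 1 := by
      rintro rfl
      norm_num at hs2
    have hb := h.hb s (by linarith)
    have e1 : fi r E s = LSeries b s := by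
      rw [fi_eq h hs1]
      exact inv_eq_of_mul_eq_one_right hb
    have e2 : ‖LSeries b s‖ ≤ B0 := by
      unfold LSeries
      have hle : ∀ n, ‖LSeries.term b s n‖ ≤ ‖LSeries.term b ((3 / 2 : ℝ) : ℂ) n‖ := fun n =>
        LSeries.norm_term_le_of_re_le_re b (by simpa using hs2) n
      have hsum' : Summable fun n : ℕ => ‖LSeries.term b s n‖ :=
        Summable.of_nonneg_of_le (fun _ => norm_nonneg _) hle hsum
      exact (norm_tsum_le_tsum_norm hsum').trans (hsum'.tsum_le_tsum hle hsum)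
    rw [e1]
    nlinarith [e2, hone, hB0', hC1, hC2, hexp]
  · push Not at hs2
    have hs' : s = 1 / 2 + ((s.re - 1 / 2 : ℝ) : ℂ) + (s.im : ℂ) * I := by
      apply Complex.ext <;> simp
    set δ' : ℝ := s.re - 1 / 2 with hδ'
    have hd1 : δ ≤ δ' := by linarith
    have hd2 : δ' ≤ 1 := by linarith
    have hd0 : 0 < δ' := by linarith
    rcases lt_or_ge (|s.im|) R with hR' | hR'
    · have e1 := h3 s.im δ' hR'.le hd0 hd2
      rw [← hs'] at e1
      have e2 : Real.exp (C3 * (1 + Real.log (1 / δ'))) ≤ Real.exp (C3 * (1 + Real.log (1 / δ))) := by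
        apply Real.exp_le_exp.2
        have : Real.log (1 / δ') ≤ Real.log (1 / δ) :=
          Real.log_le_log (by positivity) (one_div_le_one_div_of_le hδ hd1)
        gcongr
      nlinarith [e1, e2, hone, hB0', hC1, hC2, hexp]
    · have hRpos : 1 ≤ R := hR1.trans (le_max_left _ _)
      have him : s.im ≠ 0 := by
        intro h0
        rw [h0] at hR'
        simp at hR'
        linarith
      have hs1 : s ≠ 1 := by
        rintro rfl
        simp at him
      rw [fi_eq h hs1, norm_inv]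
      rcases le_total 0 s.im with hpos | hneg
      · rw [abs_of_nonneg hpos] at hR'
        have e1 := h1 s.im δ' ((le_max_left _ _).trans hR') hd1 hd2
        rw [← hs'] at e1
        nlinarith [e1, hone, hB0', hC1, hC2, hexp]
      · rw [abs_of_nonpos hneg] at hR'
        have e1 := h2 (-s.im) δ' ((le_max_right _ _).trans hR') hd1 hd2
        have e2 : (1 / 2 + (δ' : ℂ) + ((-s.im : ℝ) : ℂ) * I) = (starRingEnd ℂ) s := by
          apply Complex.ext <;> simp [hδ']
        rw [e2, h.hconj, Complex.conj_conj, Complex.norm_conj, abs_neg] at e1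
        nlinarith [e1, hone, hB0', hC1, hC2, hexp]

end Pool.Agent.N669.GX
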