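import Pool.Agent.N964.GX.Stm
import Pool.Agent.H373R2.T4.DivB

set_option autoImplicit false

/-!
# Project GX, part J: the coefficients of the reciprocal of an L-function
-/

namespace Pool.Agent.N669.GX

open Complex
open Pool.Agent.N964.GX
open scoped ArithmeticFunction.vonMangoldt ArithmeticFunction.zeta

/-- the zeta function of arithmetic functions with real values -/
noncomputable def Z : ArithmeticFunction ℝ := ((ArithmeticFunction.zeta : ArithmeticFunction ℕ) : ArithmeticFunction ℝ)

theorem pmul_log_mul (f g : ArithmeticFunction ℝ) :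
    (f * g).pmul ArithmeticFunction.log =
      f.pmul ArithmeticFunction.log * g + f * g.pmul ArithmeticFunction.log := by
  ext n
  simp only [ArithmeticFunction.pmul_apply, ArithmeticFunction.mul_apply,
    ArithmeticFunction.add_apply, ArithmeticFunction.log_apply]
  rw [Finset.sum_mul, ← Finset.sum_add_distrib]
  refine Finset.sum_congr rfl ?_
  rintro ⟨d, e⟩ h
  rw [Nat.mem_divisorsAntidiagonal] at h
  obtain ⟨h1, h2⟩ := h
  simp only at h1
  have hd : (d : ℝ) ≠ 0 := by
    rintro h0
    apply h2
    rw [← h1, Nat.cast_eq_zero.1 h0, zero_mul]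
  have he : (e : ℝ) ≠ 0 := by
    rintro h0
    apply h2
    rw [← h1, Nat.cast_eq_zero.1 h0, mul_zero]
  have : Real.log (n : ℝ) = Real.log d + Real.log e := by
    rw [← h1, Nat.cast_mul, Real.log_mul hd he]
  rw [this]
  ring

theorem Z_log : Z.pmul ArithmeticFunction.log = ArithmeticFunction.log := by
  ext n
  rw [ArithmeticFunction.pmul_apply]
  rcases eq_or_ne n 0 with rfl | hn
  · simp
  · simp [Z, ArithmeticFunction.natCoe_apply, ArithmeticFunction.zeta_apply, hn]

theorem Z_pow_log (k : ℕ) : (Z ^ k).pmul ArithmeticFunction.log =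
    (k : ArithmeticFunction ℝ) * (ArithmeticFunction.vonMangoldt * Z ^ k) := by
  induction k with
  | zero =>
    ext n
    rw [ArithmeticFunction.pmul_apply, pow_zero, ArithmeticFunction.one_apply]
    rcases eq_or_ne n 1 with rfl | hn
    · simp
    · simp [hn]
  | succ k ih =>
    rw [pow_succ, pmul_log_mul, ih, Z_log]
    have h1 : ArithmeticFunction.log = ArithmeticFunction.vonMangoldt * Z :=
      ArithmeticFunction.vonMangoldt_mul_zeta.symm
    rw [h1]
    push_cast
    ring

theorem Z_pow_log_apply (k n : ℕ) : (Z ^ k) n * Real.log n =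
    k * ∑ p ∈ n.divisorsAntidiagonal, ArithmeticFunction.vonMangoldt p.1 * (Z ^ k) p.2 := by
  have h := congrArg (fun f : ArithmeticFunction ℝ => f n) (Z_pow_log k)
  simp only [ArithmeticFunction.pmul_apply, ArithmeticFunction.log_apply] at h
  rw [h]
  have h2 : ((k : ArithmeticFunction ℝ) * (ArithmeticFunction.vonMangoldt * Z ^ k)) =
      k • (ArithmeticFunction.vonMangoldt * Z ^ k) := by
    rw [nsmul_eq_mul]
  rw [h2]
  have h3 : ∀ (f : ArithmeticFunction ℝ) (m : ℕ), (m • f) n = m * f n := by
    intro f m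
    induction m with
    | zero => simp
    | succ m ih => rw [succ_nsmul, ArithmeticFunction.add_apply, ih]; push_cast; ring
  rw [h3, ArithmeticFunction.mul_apply]

theorem Z_pow_nonneg (k n : ℕ) : 0 ≤ (Z ^ k) n := by
  induction k generalizing n with
  | zero =>
    rw [pow_zero, ArithmeticFunction.one_apply]
    split_ifs <;> norm_num
  | succ k ih =>
    rw [pow_succ, ArithmeticFunction.mul_apply]
    refine Finset.sum_nonneg fun p _ => mul_nonneg (ih _) ?_
    simp only [Z, ArithmeticFunction.natCoe_apply]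
    positivity

theorem Z_pow_one (k : ℕ) : (Z ^ k) 1 = 1 := by
  induction k with
  | zero => rw [pow_zero, ArithmeticFunction.one_apply, if_pos rfl]
  | succ k ih =>
    rw [pow_succ, ArithmeticFunction.mul_apply, Nat.divisorsAntidiagonal_one, Finset.sum_singleton, ih]
    simp [Z, ArithmeticFunction.natCoe_apply, ArithmeticFunction.zeta_apply]

theorem Z_pow_le (k n : ℕ) : (Z ^ k) n ≤ (n.divisors.card : ℝ) ^ k := by
  induction k generalizing n with
  | zero =>
    rw [pow_zero, pow_zero, ArithmeticFunction.one_apply]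
    split_ifs <;> norm_num
  | succ k ih =>
    rw [pow_succ, ArithmeticFunction.mul_apply, pow_succ]
    calc ∑ x ∈ n.divisorsAntidiagonal, (Z ^ k) x.1 * Z x.2
        ≤ ∑ x ∈ n.divisorsAntidiagonal, (n.divisors.card : ℝ) ^ k := by
          refine Finset.sum_le_sum fun x hx => ?_
          rw [Nat.mem_divisorsAntidiagonal] at hx
          have h1 : Z x.2 ≤ 1 := by
            simp only [Z, ArithmeticFunction.natCoe_apply, ArithmeticFunction.zeta_apply]
            split_ifs <;> norm_num
          have h0 : 0 ≤ Z x.2 := by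
            simp only [Z, ArithmeticFunction.natCoe_apply]
            positivity
          have h2 : (Z ^ k) x.1 ≤ (n.divisors.card : ℝ) ^ k := by
            refine (ih x.1).trans ?_
            have : x.1.divisors ⊆ n.divisors :=
              Nat.divisors_subset_of_dvd hx.2 ⟨x.2, hx.1.symm⟩
            gcongr
          calc (Z ^ k) x.1 * Z x.2 ≤ (n.divisors.card : ℝ) ^ k * 1 :=
                mul_le_mul h2 h1 h0 (by positivity)
            _ = _ := mul_one _
      _ = (n.divisors.card : ℝ) ^ k * n.divisors.card := by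
          rw [Finset.sum_const, nsmul_eq_mul, ← Nat.map_div_right_divisors, Finset.card_map, mul_comm]

/-- the bound from the recursion -/
theorem rec_bound (k : ℕ) (a b : ℕ → ℂ) (ha : ∀ n : ℕ, ‖a n‖ ≤ k * ArithmeticFunction.vonMangoldt n)
    (hrec : ∀ n : ℕ, n ≠ 0 → ((Real.log n : ℝ) : ℂ) * b n =
      - ∑ p ∈ n.divisorsAntidiagonal, a p.1 * b p.2) :
    ∀ n : ℕ, 1 ≤ n → ‖b n‖ ≤ ‖b 1‖ * (Z ^ k) n := by
  intro n
  induction n using Nat.strong_induction_on with
  | _ n ih =>
    intro hn
    rcases hn.eq_or_lt with rfl | hn1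
    · rw [Z_pow_one, mul_one]
    · have hlog : 0 < Real.log n := Real.log_pos (by exact_mod_cast hn1)
      have h1 := hrec n (by omega)
      have h2 : Real.log n * ‖b n‖ ≤ ‖b 1‖ * ((Z ^ k) n * Real.log n) := by
        calc Real.log n * ‖b n‖ = ‖((Real.log n : ℝ) : ℂ) * b n‖ := by
              rw [norm_mul, Complex.norm_real, Real.norm_of_nonneg hlog.le]
          _ = ‖∑ p ∈ n.divisorsAntidiagonal, a p.1 * b p.2‖ := by rw [h1, norm_neg]
          _ ≤ ∑ p ∈ n.divisorsAntidiagonal, ‖a p.1 * b p.2‖ := norm_sum_le _ _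
          _ ≤ ∑ p ∈ n.divisorsAntidiagonal,
                ‖b 1‖ * (k * (ArithmeticFunction.vonMangoldt p.1 * (Z ^ k) p.2)) := by
              refine Finset.sum_le_sum fun p hp => ?_
              rw [Nat.mem_divisorsAntidiagonal] at hp
              rw [norm_mul]
              have hp1 : p.1 ≠ 0 := by
                rintro h0; apply hp.2; rw [← hp.1, h0, zero_mul]
              have hp2 : p.2 ≠ 0 := by
                rintro h0; apply hp.2; rw [← hp.1, h0, mul_zero]
              by_cases h11 : p.1 = 1
              · have h0 : ‖a p.1‖ ≤ 0 := by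
                  have := ha p.1
                  rw [h11] at this ⊢
                  simpa using this
                have h0' : ‖a p.1‖ = 0 := le_antisymm h0 (norm_nonneg _)
                rw [h0', zero_mul]
                have := Z_pow_nonneg k p.2
                have := @ArithmeticFunction.vonMangoldt_nonneg p.1
                positivity
              · have hlt : p.2 < n := by
                  rw [← hp.1]
                  have : 2 ≤ p.1 := by omega
                  nlinarith [Nat.pos_of_ne_zero hp2]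
                have h3 := ih p.2 hlt (Nat.one_le_iff_ne_zero.2 hp2)
                have h4 := ha p.1
                calc ‖a p.1‖ * ‖b p.2‖ ≤ (k * ArithmeticFunction.vonMangoldt p.1) * (‖b 1‖ * (Z ^ k) p.2) :=
                      mul_le_mul h4 h3 (norm_nonneg _) ((norm_nonneg _).trans h4)
                  _ = _ := by ring
          _ = ‖b 1‖ * ((Z ^ k) n * Real.log n) := by
              rw [← Finset.mul_sum, Z_pow_log_apply, ← Finset.mul_sum]
      have h3 : Real.log n * ‖b n‖ ≤ Real.log n * (‖b 1‖ * (Z ^ k) n) := by linarith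
      exact le_of_mul_le_mul_left h3 hlog

theorem summable_a (k : ℕ) (a : ℕ → ℂ) (ha : ∀ n : ℕ, ‖a n‖ ≤ k * ArithmeticFunction.vonMangoldt n)
    {s : ℂ} (hs : 1 < s.re) : LSeriesSummable a s := by
  have h1 : LSeriesSummable (fun n => ((ArithmeticFunction.vonMangoldt n : ℝ) : ℂ)) s :=
    ArithmeticFunction.LSeriesSummable_vonMangoldt hs
  have h2 : Summable fun n => (k : ℝ) *
      ‖LSeries.term (fun n => ((ArithmeticFunction.vonMangoldt n : ℝ) : ℂ)) s n‖ :=
    (h1.norm).mul_left _
  refine Summable.of_norm_bounded h2 fun n => ?_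
  rcases eq_or_ne n 0 with rfl | hn
  · simp
  · rw [LSeries.term_of_ne_zero hn, LSeries.term_of_ne_zero hn, norm_div, norm_div, ← mul_div_assoc]
    have := ha n
    rw [Complex.norm_real, Real.norm_of_nonneg ArithmeticFunction.vonMangoldt_nonneg]
    gcongr

theorem tsum_a (a : ℕ → ℂ) (h0 : a 0 = 0) (s : ℂ) :
    ∑' n : ℕ, a n * (n : ℂ) ^ (-s) = LSeries a s := by
  unfold LSeries
  refine tsum_congr fun n => ?_
  rcases eq_or_ne n 0 with rfl | hn
  · simp [h0]
  · rw [LSeries.term_of_ne_zero hn, Complex.cpow_neg, div_eq_mul_inv]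

theorem abs_lt (b : ℕ → ℂ) (sb : ∀ s : ℂ, 1 < s.re → LSeriesSummable b s) {s : ℂ} (hs : 1 < s.re) :
    LSeries.abscissaOfAbsConv b < s.re := by
  obtain ⟨x, hx1, hx2⟩ := exists_between hs
  have h := (sb (x : ℂ) (by simpa using hx1)).abscissaOfAbsConv_le
  refine h.trans_lt ?_
  simpa using hx2

/-- the recursion for the coefficients of the reciprocal -/
theorem rec_b {k r : ℕ} {A : ℝ} {lc : ℝ → ℝ} {F F' E : ℂ → ℂ} {a a' b : ℕ → ℂ}
    (h : LL k r A lc F F' E a a' b) : ∀ n : ℕ, n ≠ 0 → ((Real.log n : ℝ) : ℂ) * b n =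
      - ∑ p ∈ n.divisorsAntidiagonal, a p.1 * b p.2 := by
  have ha0 : a 0 = 0 := h.good.ha1 0 (by norm_num)
  have key : ∀ s : ℂ, 1 < s.re → 1 ≤ s.im →
      LSeries (LSeries.logMul b + LSeries.convolution a b) s = 0 := by
    intro s hs1 hs2
    have hab := abs_lt b h.sb hs1
    have hB : HasDerivAt (LSeries b) (-LSeries (LSeries.logMul b) s) s := LSeries_hasDerivAt hab
    have hF : HasDerivAt F (deriv F s) s :=
      (h.good.an s (by linarith)).differentiableAt.hasDerivAt
    have hprod := hF.mul hB
    have hone : (F * LSeries b) =ᶠ[nhds s] fun _ => (1 : ℂ) := by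
      have hopen : IsOpen {z : ℂ | 1 < z.re} := isOpen_lt continuous_const Complex.continuous_re
      filter_upwards [hopen.mem_nhds hs1] with z hz
      exact h.hb z hz
    have hd : deriv F s * LSeries b s + F s * -LSeries (LSeries.logMul b) s = 0 := by
      have h1 : HasDerivAt (fun _ : ℂ => (1 : ℂ))
          (deriv F s * LSeries b s + F s * -LSeries (LSeries.logMul b) s) s :=
        hprod.congr_of_eventuallyEq hone.symm
      exact h1.unique (hasDerivAt_const s 1)
    have hF0 : F s ≠ 0 := by
      intro h0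
      have := h.hb s hs1
      rw [h0, zero_mul] at this
      exact zero_ne_one this
    have hld := h.good.ld s hs1 hs2
    rw [tsum_a a ha0] at hld
    have hld' : deriv F s = - LSeries a s * F s := by
      rw [← hld]; field_simp
    have hsa := summable_a k a h.ram hs1
    have hsb := h.sb s hs1
    have hconv : LSeries (LSeries.convolution a b) s = LSeries a s * LSeries b s := LSeries_convolution' hsa hsb
    rw [LSeries_add (LSeriesSummable_logMul_of_lt_re hab) (hsa.convolution hsb), hconv]
    rw [hld'] at hd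
    have h2 : F s * (LSeries (LSeries.logMul b) s + LSeries a s * LSeries b s) = 0 := by
      linear_combination -hd
    exact (mul_eq_zero.1 h2).resolve_left hF0
  set c : ℕ → ℂ := LSeries.logMul b + LSeries.convolution a b with hc
  set c' : ℕ → ℂ := fun n => c n / (n : ℂ) ^ (2 * I) with hc'
  have hterm : ∀ (x : ℝ) (n : ℕ), LSeries.term c' x n = LSeries.term c (x + 2 * I) n := by
    intro x n
    rcases eq_or_ne n 0 with rfl | hn
    · simp
    · rw [LSeries.term_of_ne_zero hn, LSeries.term_of_ne_zero hn,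
        Complex.cpow_add _ _ (Nat.cast_ne_zero.2 hn), hc']
      simp only
      rw [div_div, mul_comm]
  have hL : ∀ x : ℝ, LSeries c' x = LSeries c (x + 2 * I) := by
    intro x
    unfold LSeries
    exact tsum_congr (hterm x)
  have hev : (fun x : ℝ => LSeries c' x) =ᶠ[Filter.atTop] 0 := by
    filter_upwards [Filter.eventually_gt_atTop 1] with x hx
    rw [hL x]
    exact key _ (by simpa using hx) (by simp)
  rcases LSeries_eventually_eq_zero_iff'.1 hev with h0 | h0
  · intro n hn
    have h1 := h0 n hn
    have h2 : c n = 0 := by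
      rw [hc'] at h1
      simp only [div_eq_zero_iff] at h1
      rcases h1 with h1 | h1
      · exact h1
      · exfalso
        rw [Complex.cpow_eq_zero_iff] at h1
        exact hn (by exact_mod_cast h1.1)
    rw [hc] at h2
    simp only [Pi.add_apply, LSeries.logMul, LSeries.convolution_def] at h2
    rw [← Complex.natCast_log] at *
    linear_combination h2
  · exfalso
    have hs : LSeriesSummable c' ((2 : ℝ) : ℂ) := by
      unfold LSeriesSummable
      have h1 : (LSeries.term c' ((2 : ℝ) : ℂ)) = LSeries.term c ((2 : ℝ) + 2 * I) :=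
        funext (hterm 2)
      rw [h1]
      have h2 : 1 < (((2 : ℝ) : ℂ) + 2 * I).re := by simp
      exact (LSeriesSummable_logMul_of_lt_re (abs_lt b h.sb h2)).add
        ((summable_a k a h.ram h2).convolution (h.sb _ h2))
    have := hs.abscissaOfAbsConv_le
    rw [h0] at this
    exact absurd this (by simp)

/-- (GX/J) the coefficients of the reciprocal -/
theorem bb : S_bb := by
  intro k r A lc F F' E a a' b h
  have hk : (0 : ℝ) < k := by exact_mod_cast h.hk
  obtain ⟨C, hC1, hC⟩ := @Pool.Agent.H373R2.T4.DivB.div_bound (1 / (4 * k)) (by positivity)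
  refine ⟨(‖b 1‖ + 1) * C ^ k, by positivity, fun n hn => ?_⟩
  have h1 := rec_bound k a b h.ram (rec_b h) n hn
  have h2 := Z_pow_le k n
  have h3 := hC n (by omega)
  have hn0 : (0 : ℝ) < n := by exact_mod_cast hn
  calc ‖b n‖ ≤ ‖b 1‖ * (Z ^ k) n := h1
    _ ≤ ‖b 1‖ * (n.divisors.card : ℝ) ^ k := by gcongr
    _ ≤ ‖b 1‖ * (C * (n : ℝ) ^ (1 / (4 * k) : ℝ)) ^ k := by gcongr
    _ = ‖b 1‖ * (C ^ k * (n : ℝ) ^ (1 / 4 : ℝ)) := by
        rw [mul_pow, ← Real.rpow_natCast ((n : ℝ) ^ (1 / (4 * k) : ℝ)) k, ← Real.rpow_mul hn0.le]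
        congr 3
        field_simp
    _ ≤ (‖b 1‖ + 1) * (C ^ k * (n : ℝ) ^ (1 / 4 : ℝ)) := by
        have : 0 ≤ C ^ k * (n : ℝ) ^ (1 / 4 : ℝ) := by positivity
        nlinarith
    _ = (‖b 1‖ + 1) * C ^ k * (n : ℝ) ^ (1 / 4 : ℝ) := by ring

end Pool.Agent.N669.GX
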