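import Pool.Agent.N585.LB.Defs

/-!
# Project LB, tasks 9 and 10: embeddings between the minimal types, Countryman orders and the ccc
-/

namespace Pool.Agent.N669.LB

open Cardinal Set Pool.Agent.N585.LB

universe u

/-- Comparable elements of a chain of the product order. -/
theorem chain_snd {C : Type u} [LinearOrder C] {K : Set (C × C)} (hK : IsChain (· ≤ ·) K)
    {a b a' b' : C} (h : (a, b) ∈ K) (h' : (a', b') ∈ K) (hlt : a < a') : b ≤ b' := by
  rcases hK.total h h' with hh | hh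
  · exact hh.2
  · exact absurd hh.1 (not_le.2 hlt)

/-- The counting argument: an uncountable suborder of a Countryman order cannot be separated by
countably many labels. -/
theorem sep_false {A C D : Type*} [LinearOrder A] [LinearOrder C] [Countable D]
    (hA : Uncountable A) (K : ℕ → Set (C × C)) (hU : (⋃ n, K n) = Set.univ)
    (hK : ∀ n, IsChain (· ≤ ·) (K n)) (e : A ↪o C) (sep : A → A → D → Prop)
    (h1 : ∀ y₁ y₂, y₁ < y₂ → ∃ d, sep y₁ y₂ d)
    (h2 : ∀ y₁ y₂ y₁' y₂' d, sep y₁ y₂ d → sep y₁' y₂' d → y₂ ≤ y₁' → False) : False := by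
  classical
  by_cases hx : ∃ x : A, ∀ n, {y : A | (e x, e y) ∈ K n}.Subsingleton
  · obtain ⟨x, hx⟩ := hx
    have hc : (⋃ n, {y : A | (e x, e y) ∈ K n}).Countable :=
      countable_iUnion fun n => (hx n).countable
    have hun : (⋃ n, {y : A | (e x, e y) ∈ K n}) = Set.univ := by
      ext y
      have : (e x, e y) ∈ ⋃ n, K n := by rw [hU]; trivial
      simpa using this
    rw [hun] at hc
    exact not_countable (α := A) (countable_univ_iff.1 hc)
  · push Not at hx
    have hx' : ∀ x : A, ∃ n, ∃ y₁ y₂ d, (e x, e y₁) ∈ K n ∧ (e x, e y₂) ∈ K n ∧ sep y₁ y₂ d := by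
      intro x
      obtain ⟨n, hn⟩ := hx x
      obtain ⟨y, hy, z, hz, hyz⟩ := hn
      rcases lt_or_gt_of_ne hyz with h | h
      · obtain ⟨d, hd⟩ := h1 y z h
        exact ⟨n, y, z, d, hy, hz, hd⟩
      · obtain ⟨d, hd⟩ := h1 z y h
        exact ⟨n, z, y, d, hz, hy, hd⟩
    choose n y₁ y₂ d ha hb hd using hx'
    have hinj : Function.Injective fun x => (n x, d x) := by
      have key : ∀ x x', x < x' → n x = n x' → d x = d x' → False := by
        intro x x' hlt hn hdd
        have hle : e (y₂ x) ≤ e (y₁ x') := by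
          refine chain_snd (hK (n x')) (hn ▸ hb x) (ha x') (e.lt_iff_lt.2 hlt)
        exact h2 _ _ _ _ _ (hd x) (hdd ▸ hd x') (e.le_iff_le.1 hle)
      intro x x' hxx
      simp only [Prod.mk.injEq] at hxx
      by_contra hne
      rcases lt_or_gt_of_ne hne with h | h
      · exact key x x' h hxx.1 hxx.2
      · exact key x' x h hxx.1.symm hxx.2.symm
    exact not_countable (α := A) hinj.countable

theorem uncountable_O1 (h : StmOmega.{u}) : Uncountable O1.{u} := by
  rw [← not_countable_iff]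
  intro hc
  obtain ⟨y, hy⟩ := h.2.2.2.2.2.1 Set.univ (Set.countable_univ)
  exact lt_irrefl y (hy y trivial)

/-- A map of `ω₁` into a Countryman order which is compatible with the chains does not exist. -/
theorem omega_false (h : StmOmega.{u}) {C : Type u} (K : ℕ → Set (C × C))
    (hU : (⋃ n, K n) = Set.univ) (f : O1.{u} → C)
    (hf : ∀ w w', w < w' → ∀ v v' n, (f w, f v) ∈ K n → (f w', f v') ∈ K n → v ≤ v') : False := by
  have hunc := uncountable_O1 h
  have hw : ∀ w : O1.{u}, ∃ n, ¬ {v : O1.{u} | (f w, f v) ∈ K n}.Countable := by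
    intro w
    by_contra hcon
    push Not at hcon
    have hc : (⋃ n, {v : O1.{u} | (f w, f v) ∈ K n}).Countable := countable_iUnion hcon
    have hun : (⋃ n, {v : O1.{u} | (f w, f v) ∈ K n}) = Set.univ := by
      ext y
      have : (f w, f y) ∈ ⋃ n, K n := by rw [hU]; trivial
      simpa using this
    rw [hun] at hc
    exact not_countable (α := O1.{u}) (countable_univ_iff.1 hc)
  choose n hn using hw
  obtain ⟨w, w', hlt, hnn⟩ : ∃ w w', w < w' ∧ n w = n w' := by
    by_contra hcon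
    push Not at hcon
    have : Function.Injective n := by
      intro w w' hww
      by_contra hne
      rcases lt_or_gt_of_ne hne with hh | hh
      · exact hcon w w' hh hww
      · exact hcon w' w hh hww.symm
    exact not_countable (α := O1.{u}) this.countable
  have hne : {v : O1.{u} | (f w', f v) ∈ K (n w')}.Nonempty := by
    rw [Set.nonempty_iff_ne_empty]
    intro h0
    apply hn w'
    rw [h0]; exact countable_empty
  obtain ⟨v', hv'⟩ := hne
  apply hn w
  have hsub : {v : O1.{u} | (f w, f v) ∈ K (n w)} ⊆ insert v' (Iio v') := by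
    intro v hv
    have := hf w w' hlt v v' (n w) hv (hnn ▸ hv')
    rcases this.lt_or_eq with hh | hh
    · exact Or.inr hh
    · exact Or.inl hh
  exact ((h.1 v').insert v').mono hsub

/-- (LB/9) Embeddings between the five minimal types. -/
theorem stmCtryA (h : StmOmega.{u}) : StmCtryA.{u} := by
  refine ⟨?_, ?_, ?_, ?_, ?_⟩
  · rintro X C _ _ hX ⟨r⟩ ⟨_, K, hU, hK⟩ ⟨e⟩
    refine sep_false (D := ℚ) hX K hU hK e
      (fun y₁ y₂ q => r y₁ < (q : ℝ) ∧ (q : ℝ) < r y₂) ?_ ?_
    · intro y₁ y₂ hy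
      obtain ⟨q, hq⟩ := exists_rat_btwn (r.lt_iff_lt.2 hy)
      exact ⟨q, hq⟩
    · intro y₁ y₂ y₁' y₂' d hd hd' hle
      have := r.le_iff_le.2 hle
      linarith [hd.2, hd'.1]
  · rintro C _ ⟨hC, K, hU, hK⟩
    refine ⟨?_, ?_, ?_⟩
    · rintro ⟨f⟩
      refine omega_false h K hU f ?_
      intro w w' hlt v v' n hv hv'
      exact f.le_iff_le.1 (chain_snd (hK n) hv hv' (f.lt_iff_lt.2 hlt))
    · rintro ⟨f⟩
      refine omega_false h K hU (fun w => f (OrderDual.toDual w)) ?_
      intro w w' hlt v v' n hv hv'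
      have h1 : f (OrderDual.toDual w') < f (OrderDual.toDual w) :=
        f.lt_iff_lt.2 (OrderDual.toDual_lt_toDual.2 hlt)
      have h2 := f.le_iff_le.1 (chain_snd (hK n) hv' hv h1)
      exact OrderDual.toDual_le_toDual.1 h2
    · rintro ⟨g⟩
      have hn : ∀ x : C, ∃ n, (x, g (OrderDual.toDual x)) ∈ K n := by
        intro x
        have : (x, g (OrderDual.toDual x)) ∈ ⋃ n, K n := by rw [hU]; trivial
        simpa using this
      choose n hn using hn
      obtain ⟨w, w', hlt, hnn⟩ : ∃ w w', w < w' ∧ n w = n w' := by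
        by_contra hcon
        push Not at hcon
        have : Function.Injective n := by
          intro w w' hww
          by_contra hne
          rcases lt_or_gt_of_ne hne with hh | hh
          · exact hcon w w' hh hww
          · exact hcon w' w hh hww.symm
        exact not_countable (α := C) this.countable
      have h1 := chain_snd (hK (n w')) (hnn ▸ hn w) (hn w') hlt
      have h2 := g.le_iff_le.1 h1
      exact absurd (OrderDual.toDual_le_toDual.1 h2) (not_le.2 hlt)
  · rintro X _ hX hno ⟨e⟩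
    apply hno
    refine h.2.2.1 X ?_
    intro S hS
    obtain ⟨y, hy⟩ := h.2.2.2.2.2.1 (e '' S) (hS.image e)
    obtain ⟨x, hx⟩ : ∃ x : X, y < e x := by
      by_contra hcon
      push Not at hcon
      have hsub : Set.range e ⊆ insert y (Iio y) := by
        rintro _ ⟨x, rfl⟩
        rcases (hcon x).lt_or_eq with hh | hh
        · exact Or.inr hh
        · exact Or.inl hh
      have hc : (Set.range e).Countable := ((h.1 y).insert y).mono hsub
      have hc' : (Set.univ : Set X).Countable :=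
        Set.countable_of_injective_of_countable_image (f := e) e.injective.injOn (by rwa [Set.image_univ])
      exact not_countable (α := X) (countable_univ_iff.1 hc')
    refine ⟨x, fun s hs => ?_⟩
    exact e.lt_iff_lt.1 ((hy _ ⟨s, hs, rfl⟩).trans hx)
  · rintro ⟨f⟩
    have hunc := uncountable_O1 h
    have hne : Nonempty O1.{u} := by
      by_contra hcon
      rw [not_nonempty_iff] at hcon
      exact not_countable (α := O1.{u}) inferInstance
    have hwf : WellFounded ((· < ·) : O1.{u} → O1.{u} → Prop) := wellFounded_lt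
    obtain ⟨_, ⟨w, rfl⟩, hmin⟩ := hwf.has_min
      (Set.range fun w : O1.{u} => f (OrderDual.toDual w)) (Set.range_nonempty _)
    obtain ⟨w', hw'⟩ := h.2.2.2.2.2.1 {w} (Set.countable_singleton w)
    exact hmin _ ⟨w', rfl⟩ (f.lt_iff_lt.2 (OrderDual.toDual_lt_toDual.2 (hw' w rfl)))
  · rintro A _ _ _ ⟨r⟩ F hF hd
    have hq : ∀ p : F, ∃ q : ℚ, r p.1.1 < (q : ℝ) ∧ (q : ℝ) < r p.1.2 := by
      rintro ⟨p, hp⟩
      obtain ⟨z, hz⟩ := hF p hp
      exact exists_rat_btwn (r.lt_iff_lt.2 (hz.1.trans hz.2))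
    choose q hq using hq
    have hinj : Function.Injective q := by
      rintro ⟨p, hp⟩ ⟨p', hp'⟩ hqq
      by_contra hne
      have hne' : p ≠ p' := fun hh => hne (Subtype.ext hh)
      have hdis := hd hp hp' hne'
      obtain ⟨z, hz⟩ := hF p hp
      obtain ⟨z', hz'⟩ := hF p' hp'
      have h1 := hq ⟨p, hp⟩
      have h2 := hq ⟨p', hp'⟩
      rw [← hqq] at h2
      have h3 : p.1 < p'.2 := r.lt_iff_lt.1 (h1.1.trans h2.2)
      have h4 : p'.1 < p.2 := r.lt_iff_lt.1 (h2.1.trans h1.2)
      have h5 : max p.1 p'.1 < min p.2 p'.2 :=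
        max_lt (lt_min (hz.1.trans hz.2) h3) (lt_min h4 (hz'.1.trans hz'.2))
      obtain ⟨t, ht1, ht2⟩ := exists_between h5
      have ha : t ∈ Ioo p.1 p.2 := ⟨(le_max_left _ _).trans_lt ht1, ht2.trans_le (min_le_left _ _)⟩
      have hb : t ∈ Ioo p'.1 p'.2 :=
        ⟨(le_max_right _ _).trans_lt ht1, ht2.trans_le (min_le_right _ _)⟩
      exact Set.disjoint_left.1 hdis ha hb
    exact hinj.countable.to_set

/-- (LB/10) Countryman orders have no ccc suborders in the class. -/
theorem stmCtryC (h : StmOmega.{u}) : StmCtryC.{u} := by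
  rintro A C _ _ ⟨_, K, hU, hK⟩ hA hcard ⟨e⟩ hccc
  classical
  have hdo : DenselyOrdered A := ⟨fun a b hab => by
    have h1 := hA.dense a b hab
    have h2 : #(Ioo a b) ≠ 0 := by rw [h1]; exact (Cardinal.aleph_pos 1).ne'
    rw [Cardinal.mk_ne_zero_iff] at h2
    obtain ⟨⟨z, hz⟩⟩ := h2
    exact ⟨z, hz⟩⟩
  have hunc := uncountable_O1 h
  obtain ⟨E⟩ : Nonempty (O1.{u} ≃ A) := by
    rw [← Cardinal.eq, h.2.1, hcard]
  have hAunc : Uncountable A := by
    rw [← not_countable_iff]
    intro hc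
    exact not_countable (α := O1.{u}) (E.injective.countable)
  -- Step 1
  have step1 : ∀ S : Set A, S.Countable → ∃ a c : A, a < c ∧ ∀ d ∈ S, d ∉ Ioo a c := by
    intro S hS
    by_contra hcon
    push Not at hcon
    have : Countable S := hS.to_subtype
    refine sep_false (D := S) hAunc K hU hK e (fun y₁ y₂ d => y₁ < d.1 ∧ d.1 < y₂) ?_ ?_
    · intro y₁ y₂ hy
      obtain ⟨d, hd, hd'⟩ := hcon y₁ y₂ hy
      exact ⟨⟨d, hd⟩, hd'⟩
    · intro y₁ y₂ y₁' y₂' d hd hd' hle
      exact lt_irrefl _ (hd.2.trans_le (hle.trans hd'.1.le))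
  have hw : ∀ w : O1.{u}, ∃ a x b y c : A, a < x ∧ x < b ∧ b < y ∧ y < c ∧
      ∀ v, v < w → E v ∉ Ioo a c := by
    intro w
    obtain ⟨a, c, hac, hd⟩ := step1 (E '' (Iio w)) ((h.1 w).image E)
    obtain ⟨b, hab, hbc⟩ := exists_between hac
    obtain ⟨x, hax, hxb⟩ := exists_between hab
    obtain ⟨y, hby, hyc⟩ := exists_between hbc
    exact ⟨a, x, b, y, c, hax, hxb, hby, hyc, fun v hv => hd _ ⟨v, hv, rfl⟩⟩
  choose a x b y c hax hxb hby hyc hav using hw
  obtain ⟨n, hn⟩ : ∃ n, ¬ {w : O1.{u} | (e (x w), e (y w)) ∈ K n}.Countable := by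
    by_contra hcon
    push Not at hcon
    have hc : (⋃ n, {w : O1.{u} | (e (x w), e (y w)) ∈ K n}).Countable := countable_iUnion hcon
    have hun : (⋃ n, {w : O1.{u} | (e (x w), e (y w)) ∈ K n}) = Set.univ := by
      ext w
      have : (e (x w), e (y w)) ∈ ⋃ n, K n := by rw [hU]; trivial
      simpa using this
    rw [hun] at hc
    exact not_countable (α := O1.{u}) (countable_univ_iff.1 hc)
  set G : Set O1.{u} := {w : O1.{u} | (e (x w), e (y w)) ∈ K n} with hG
  have hac : ∀ w, a w < c w := fun w => (hax w).trans ((hxb w).trans ((hby w).trans (hyc w)))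
  -- Step 3
  have step3 : ∃ p q : A, p < q ∧ ∀ p' q', p ≤ p' → p' < q' → q' ≤ q →
      ∃ w ∈ G, p' ≤ a w ∧ c w ≤ q' := by
    by_contra hcon
    push Not at hcon
    set U : Set (A × A) := {p | p.1 < p.2 ∧ ∀ w ∈ G, p.1 ≤ a w → ¬ (c w ≤ p.2)} with hUdef
    have hUne : ∀ p ∈ U, (Ioo p.1 p.2).Nonempty := fun p hp => nonempty_Ioo.2 hp.1
    have hcon' : ∀ p q : A, p < q → ∃ r ∈ U, p ≤ r.1 ∧ r.2 ≤ q := by
      intro p q hpq
      obtain ⟨p', q', h1, h2, h3, h4⟩ := hcon p q hpq
      exact ⟨(p', q'), ⟨h2, fun w hw hp => not_le.2 (h4 w hw hp)⟩, h1, h3⟩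
    obtain ⟨V, hV⟩ := zorn_subset
      {V : Set (A × A) | V ⊆ U ∧ V.PairwiseDisjoint fun p => Ioo p.1 p.2} (by
        intro c hc hchain
        refine ⟨⋃₀ c, ⟨Set.sUnion_subset fun s hs => (hc hs).1, ?_⟩, fun s hs =>
          Set.subset_sUnion_of_mem hs⟩
        rw [Set.pairwiseDisjoint_sUnion hchain.directedOn]
        exact fun s hs => (hc hs).2)
    have hVU : V ⊆ U := hV.prop.1
    have hVd := hV.prop.2
    have hVc : V.Countable := hccc V (fun p hp => hUne p (hVU hp)) hVd
    have hmeet : ∀ r ∈ U, ∃ p ∈ V, (Ioo r.1 r.2 ∩ Ioo p.1 p.2).Nonempty := by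
      intro r hr
      by_contra hno
      push Not at hno
      have hins : insert r V ⊆ V := by
        refine hV.le_of_ge ⟨Set.insert_subset hr hVU, ?_⟩ (Set.subset_insert r V)
        rw [Set.pairwiseDisjoint_insert]
        refine ⟨hVd, fun p hp _ => ?_⟩
        exact Set.disjoint_iff_inter_eq_empty.2 (hno p hp)
      have hrV : r ∈ V := hins (Set.mem_insert r V)
      have := hno r hrV
      rw [Set.inter_self] at this
      exact (hUne r hr).ne_empty this
    have hEc : (E.symm '' (Prod.fst '' V ∪ Prod.snd '' V)).Countable :=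
      ((hVc.image _).union (hVc.image _)).image _
    obtain ⟨v₀, hv₀⟩ := h.2.2.2.2.2.1 _ hEc
    obtain ⟨w, hwG, hww⟩ : ∃ w ∈ G, v₀ ≤ w := by
      by_contra hno
      push Not at hno
      exact hn ((h.1 v₀).mono fun w hw => hno w hw)
    obtain ⟨r, hrU, hr1, hr2⟩ := hcon' (a w) (c w) (hac w)
    obtain ⟨p, hpV, z, hz1, hz2⟩ := hmeet r hrU
    have e1 : p.1 ∉ Ioo (a w) (c w) := by
      have := hav w (E.symm p.1) ((hv₀ _ ⟨p.1, Or.inl ⟨p, hpV, rfl⟩, rfl⟩).trans_le hww)
      simpa using this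
    have e2 : p.2 ∉ Ioo (a w) (c w) := by
      have := hav w (E.symm p.2) ((hv₀ _ ⟨p.2, Or.inr ⟨p, hpV, rfl⟩, rfl⟩).trans_le hww)
      simpa using this
    have e3 : p.1 ≤ a w := by
      by_contra hlt
      exact e1 ⟨not_le.1 hlt, hz2.1.trans (hz1.2.trans_le hr2)⟩
    have e4 : c w ≤ p.2 := by
      by_contra hlt
      exact e2 ⟨(hr1.trans_lt hz1.1).trans hz2.2, not_le.1 hlt⟩
    exact (hVU hpV).2 w hwG e3 e4
  -- Step 4
  obtain ⟨p, q, hpq, hI⟩ := step3
  obtain ⟨w, hw, hw1, hw2⟩ := hI p q le_rfl hpq le_rfl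
  obtain ⟨w', hw', hw1', hw2'⟩ := hI (x w) (b w) (hw1.trans (hax w).le) (hxb w)
    (((hby w).trans (hyc w)).le.trans hw2)
  have f1 : e (x w) < e (x w') := e.lt_iff_lt.2 (hw1'.trans_lt (hax w'))
  have f2 : e (y w') < e (y w) :=
    e.lt_iff_lt.2 ((hyc w').trans_le (hw2'.trans (hby w).le))
  exact absurd (chain_snd (hK n) hw hw' f1) (not_le.2 f2)

end Pool.Agent.N669.LB
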