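import Pool.Agent.N192.MO.StmA

set_option autoImplicit false
set_option linter.unusedSectionVars false
set_option linter.unusedVariables false

/-!
# Linked members of rank three (helper669)

Adaptation of `N192/GP/Iso.lean`, `InterH.lean`, `InterP.lean`, `InterQ.lean`, `JJ.lean`, `Exc.lean`
(helper192).
-/

open Module Function TensorProduct

noncomputable section

namespace Pool.Agent.N192.GP

open Pool.Agent.Y102 Pool.Agent.W516.DR Pool.Agent.H204R3.GP Pool.Agent.W516.KC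
  Pool.Agent.H204R3.SP

section

variable {U : Type} [AddCommGroup U] [Module ℂ U] {N k r : ℕ} {E : Fin N → Module.End ℂ U}
  {c : Fin N → Fin k}

/-- An ideal contains one colour, or its projection to it is trivial. -/
theorem dicho3 (hS : S_SIM) [FiniteDimensional ℂ U] [Nontrivial U] (hE : SP.CE E)
    {s : Fin k} (hs6 : (Finset.univ.filter fun j => c j = s).card = 3 ∨
      6 ≤ (Finset.univ.filter fun j => c j = s).card)
    {I : Submodule ℂ (Module.End ℂ U)} (hI : Idl I (SP.soC E c)) :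
    SP.soS E c s ≤ I ∨ ∀ x ∈ I, SP.pS E c s x = 0 := by
  rcases (hS hE hs6).1 (I ⊓ SP.soS E c s) inf_le_right (fun x hx y hy =>
      ⟨hI.2 x (SP.soS_le s hx) y hy.1, SP.soS_br hE hx hy.2⟩) with h1 | h
  swap
  · exact Or.inl (inf_eq_right.1 h)
  right
  have hpos : 0 < finrank ℂ (SP.soS E c s) := by
    rw [finrank_soS hE rfl]
    obtain ⟨r, hr⟩ : ∃ r, r = (Finset.univ.filter fun j => c j = s).card := ⟨_, rfl⟩
    rw [← hr] at hs6 ⊢
    have h2 : 6 ≤ r * (r - 1) := by
      rcases hs6 with h3 | h3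
      · rw [h3]
      · have := Nat.mul_le_mul h3 (show 5 ≤ r - 1 by omega)
        omega
    omega
  let Z : Submodule ℂ (Module.End ℂ U) :=
    { carrier := {x | x ∈ SP.soS E c s ∧ ∀ y ∈ SP.soS E c s, y * x - x * y = 0}
      zero_mem' := ⟨Submodule.zero_mem _, fun y _ => by rw [mul_zero, zero_mul, sub_zero]⟩
      add_mem' := fun {a b} ha hb => ⟨Submodule.add_mem _ ha.1 hb.1, fun y hy => by
        have h2 := ha.2 y hy
        have h3 := hb.2 y hy
        have h4 : y * (a + b) - (a + b) * y = (y * a - a * y) + (y * b - b * y) := by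
          rw [mul_add, add_mul]
          abel
        rw [h4, h2, h3, add_zero]⟩
      smul_mem' := fun t a ha => ⟨Submodule.smul_mem _ t ha.1, fun y hy => by
        rw [mul_smul_comm, smul_mul_assoc, ← smul_sub, ha.2 y hy, smul_zero]⟩ }
  have hZ : Z = ⊥ := by
    rcases (hS hE hs6).1 Z (fun x hx => hx.1) (fun x hx y hy => by
      rw [hy.2 x hx]
      exact Z.zero_mem) with h | h
    · exact h
    · exfalso
      have h2 : SP.soS E c s ≤ ⊥ := by
        refine ((hS hE hs6).2).trans (Submodule.span_le.2 ?_)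
        rintro _ ⟨x, hx, y, hy, rfl⟩
        have h3 : y ∈ Z := by rw [h]; exact hy
        rw [h3.2 x hx]
        exact Submodule.zero_mem _
      rw [le_bot_iff] at h2
      rw [h2, finrank_bot] at hpos
      exact lt_irrefl _ hpos
  intro x hx
  have h3 : SP.pS E c s x ∈ Z := by
    refine ⟨SP.pS_mem hE (hI.1 hx), fun y hy => ?_⟩
    have h4 := SP.pS_br hE (σ := s) (SP.soS_le s hy) (hI.1 hx)
    rw [SP.pS_same hE hy] at h4
    rw [← h4]
    have h5 : y * x - x * y ∈ I ⊓ SP.soS E c s := by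
      refine ⟨hI.2 y (SP.soS_le s hy) x hx, ?_⟩
      have h6 := SP.Link_part hE hy (hI.1 hx)
      have h7 : y * x - x * y = y * SP.pS E c s x - SP.pS E c s x * y := by
        rw [← neg_sub, h6, neg_sub]
      rw [h7]
      exact SP.soS_br hE hy (SP.pS_mem hE (hI.1 hx))
    rw [h1] at h5
    rw [(Submodule.mem_bot ℂ).1 h5, map_zero]
  rw [hZ] at h3
  exact (Submodule.mem_bot ℂ).1 h3

end

section

variable {U U' : Type} [AddCommGroup U] [Module ℂ U] [AddCommGroup U'] [Module ℂ U']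
    {N k : ℕ} {E : Fin N → Module.End ℂ U} {c : Fin N → Fin k}
    {𝔮 : Submodule ℂ (Module.End ℂ U × Module.End ℂ U')} (h : Hq E c 𝔮)
include h

variable [Nontrivial U] [Nontrivial U'] (hE : SP.CE E) {r : ℕ}
  (hc : ∀ s, (Finset.univ.filter fun j => c j = s).card = r) (h6 : r = 3 ∨ 6 ≤ r)

include hE hc h6

/-- **The intertwining map.** -/
theorem Hq.exists_T3 : ∃ T : U →ₗ[ℂ] U', T ≠ 0 ∧
    ∀ x y, (x, y) ∈ 𝔮 → y.comp T = T.comp x := by
  classical
  -- base points
  have hbase : ∀ s : Fin k, ∃ i, c i = s := by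
    intro s
    have h1 : (Finset.univ.filter fun j => c j = s).Nonempty := by
      rw [← Finset.card_pos, hc]
      omega
    obtain ⟨i, hi⟩ := h1
    exact ⟨i, (Finset.mem_filter.1 hi).2⟩
  choose b0 hb0 using hbase
  let ι : Type := {a : Fin N // a ≠ b0 (c a)}
  have hcb : ∀ a : ι, c (b0 (c a.1)) = c a.1 := fun a => hb0 _
  let F : ι → Module.End ℂ U := fun a => E a.1 * E (b0 (c a.1))
  have hFm : ∀ a, F a ∈ SP.soC E c := fun a =>
    Submodule.subset_span ⟨a.1, b0 (c a.1), a.2, (hcb a).symm, rfl⟩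
  choose F' hF' using fun a => h.mem_fst (hFm a)
  -- relations for two elements of the same colour
  have hsame : ∀ a b : ι, a ≠ b → c a.1 = c b.1 → ∀ γ, (E a.1 * E b.1, γ) ∈ 𝔮 →
      F' a * F' b = -(F' b * F' a) ∧ γ = -(F' a * F' b) := by
    intro a b hab hcab γ hγ
    have hab' : a.1 ≠ b.1 := fun h' => hab (Subtype.ext h')
    have hbo : b.1 ≠ b0 (c a.1) := by rw [hcab]; exact b.2
    have hFb : F b = E b.1 * E (b0 (c a.1)) := by rw [hcab]
    have hFa : F a = E a.1 * E (b0 (c a.1)) := rfl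
    refine rel_anti (h.sq _ _ a.2 (hcb a).symm _ (hF' a)) ?_ ?_
    · have g1 := h.brk (hF' a) (hF' b)
      rw [hFa, hFb, e_ab0 hE hab' a.2 hbo] at g1
      exact h.uniq g1 (𝔮.smul_mem (-2 : ℂ) hγ)
    · have g1 := h.brk hγ (hF' a)
      rw [hFa, e_aba hE hab' a.2 hbo, ← hFb] at g1
      exact h.uniq g1 (𝔮.smul_mem (-2 : ℂ) (hF' b))
  have hne : ∀ a b : ι, a ≠ b → b.1 ≠ a.1 ∧ b.1 ≠ b0 (c a.1) := by
    intro a b hab
    refine ⟨fun h' => hab (Subtype.ext h'.symm), fun h' => ?_⟩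
    have h1 : c b.1 = c a.1 := by rw [h', hb0]
    exact b.2 (by rw [h1]; exact h')
  have htwo : Two F F' := by
    refine ⟨fun a => SP.simple_sq hE a.2, fun a => h.sq _ _ a.2 (hcb a).symm _ (hF' a),
      fun a b hab => ?_⟩
    have hab' : a.1 ≠ b.1 := fun h' => hab (Subtype.ext h')
    by_cases hcab : c a.1 = c b.1
    · obtain ⟨γ, hγ⟩ := h.mem_fst (x := E a.1 * E b.1)
        (Submodule.subset_span ⟨_, _, hab', hcab, rfl⟩)
      have g1 := (hsame a b hab hcab γ hγ).1
      have hbo : b.1 ≠ b0 (c a.1) := (hne a b hab).2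
      have hFb : F b = E b.1 * E (b0 (c a.1)) := by rw [hcab]
      have hFa : F a = E a.1 * E (b0 (c a.1)) := rfl
      refine ⟨-1, by ring, ?_, by rw [g1, neg_one_smul]⟩
      rw [neg_one_smul, hFa, hFb]
      have e1 : E a.1 * E (b0 (c a.1)) * (E b.1 * E (b0 (c a.1))) = -(E a.1 * E b.1) := by
        rw [mul_assoc, ← mul_assoc (E (b0 (c a.1))), hE.anti _ _ (Ne.symm hbo), neg_mul, mul_neg,
          mul_assoc (E b.1), hE.sq, mul_one]
      have e2 : E b.1 * E (b0 (c a.1)) * (E a.1 * E (b0 (c a.1))) = -(E b.1 * E a.1) := by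
        rw [mul_assoc, ← mul_assoc (E (b0 (c a.1))), hE.anti _ _ (Ne.symm a.2), neg_mul, mul_neg,
          mul_assoc (E a.1), hE.sq, mul_one]
      rw [e1, e2, hE.anti _ _ hab']
    · have e1 : F a * F b = F b * F a := by
        refine SP.Col_comm hE a.2 (hne a b hab).1 (hne a b hab).2 ?_ ?_
        · exact ((hne b a (Ne.symm hab)).2).symm
        · intro h'
          apply hcab
          rw [← hb0 (c a.1), ← h', hb0]
      refine ⟨1, one_mul 1, by rw [one_smul, e1], ?_⟩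
      have g1 := h.brk (hF' a) (hF' b)
      rw [e1, sub_self] at g1
      rw [one_smul, ← sub_eq_zero]
      exact h.inj _ g1
  obtain ⟨T₀, hT₀⟩ := exists_hom (U := U) (U' := U')
  obtain ⟨T₁, hT₁, ε, hε, h1⟩ := htwo.exists hT₀ Finset.univ
  have hG1 : ∀ a b : ι, a ≠ b → F b * E a.1 = E a.1 * F b := by
    intro a b hab
    have g1 := (hne b a (Ne.symm hab)).1
    have g2 := (hne b a (Ne.symm hab)).2
    change E b.1 * E (b0 (c b.1)) * E a.1 = E a.1 * (E b.1 * E (b0 (c b.1)))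
    rw [mul_assoc, hE.anti _ _ (Ne.symm g2), mul_neg, ← mul_assoc, hE.anti _ _ (Ne.symm g1), neg_mul,
      neg_neg, mul_assoc]
  have hG2 : ∀ a : ι, F a * E a.1 = -(E a.1 * F a) := by
    intro a
    change E a.1 * E (b0 (c a.1)) * E a.1 = -(E a.1 * (E a.1 * E (b0 (c a.1))))
    rw [mul_assoc, hE.anti _ _ (Ne.symm a.2), mul_neg]
  obtain ⟨T, hT, ε', -, h2, h3⟩ := Two.fix (F := F) (F' := F') hT₁ hε
    (fun a => h1 a (Finset.mem_univ a)) (G := fun a : ι => E a.1) (fun a => hE.sq _) hG1 hG2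
    Finset.univ
  have hT' : ∀ a, (F' a).comp T = T.comp (F a) := by
    intro a
    rw [h2 a, h3 a (Finset.mem_univ a), one_smul]
  refine ⟨T, hT, fun x y hxy => ?_⟩
  -- all elements
  have key : ∀ x ∈ SP.soC E c, ∃ y, (x, y) ∈ 𝔮 ∧ y.comp T = T.comp x := by
    intro x hx
    induction hx using Submodule.span_induction with
    | mem x hx =>
      obtain ⟨i, j, hij, hcij, rfl⟩ := hx
      by_cases hj : j = b0 (c i)
      · have hi : i ≠ b0 (c i) := fun h' => hij (h'.trans hj.symm)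
        have e1 : F ⟨i, hi⟩ = E i * E j := by rw [hj]
        refine ⟨F' ⟨i, hi⟩, ?_, ?_⟩
        · rw [← e1]
          exact hF' _
        · rw [← e1]
          exact hT' _
      · have hj' : j ≠ b0 (c j) := by rw [← hcij]; exact hj
        by_cases hi : i = b0 (c i)
        · have e1 : F ⟨j, hj'⟩ = E j * E i := by
            rw [hi]
            change E j * E (b0 (c j)) = _
            rw [← hcij]
          have e2 : E i * E j = -F ⟨j, hj'⟩ := by rw [e1, hE.anti i j hij]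
          refine ⟨-F' ⟨j, hj'⟩, ?_, ?_⟩
          · rw [e2]
            exact 𝔮.neg_mem (hF' ⟨j, hj'⟩)
          · rw [e2, LinearMap.neg_comp, LinearMap.comp_neg, hT']
        · obtain ⟨γ, hγ⟩ := h.mem_fst (x := E i * E j)
            (Submodule.subset_span ⟨_, _, hij, hcij, rfl⟩)
          have hab : (⟨i, hi⟩ : ι) ≠ ⟨j, hj'⟩ := fun h' => hij (congrArg Subtype.val h')
          have g1 := (hsame ⟨i, hi⟩ ⟨j, hj'⟩ hab hcij γ hγ).2
          have hbo : j ≠ b0 (c i) := hj
          have hFb : F ⟨j, hj'⟩ = E j * E (b0 (c i)) := by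
            change E j * E (b0 (c j)) = _
            rw [← hcij]
          have e1 : E i * E j = -(F ⟨i, hi⟩ * F ⟨j, hj'⟩) := by
            rw [hFb]
            change _ = -(E i * E (b0 (c i)) * (E j * E (b0 (c i))))
            rw [mul_assoc, ← mul_assoc (E (b0 (c i))), hE.anti _ _ (Ne.symm hbo), neg_mul, mul_neg,
              mul_assoc (E j), hE.sq, mul_one, neg_neg]
          refine ⟨γ, hγ, ?_⟩
          rw [g1, e1, LinearMap.neg_comp, LinearMap.comp_neg, Module.End.mul_eq_comp,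
            Module.End.mul_eq_comp, LinearMap.comp_assoc, hT', ← LinearMap.comp_assoc, hT',
            LinearMap.comp_assoc]
    | zero => exact ⟨0, 𝔮.zero_mem, by rw [LinearMap.zero_comp, LinearMap.comp_zero]⟩
    | add a b _ _ ha hb =>
      obtain ⟨y, hy, hy'⟩ := ha
      obtain ⟨z, hz, hz'⟩ := hb
      exact ⟨y + z, 𝔮.add_mem hy hz, by rw [LinearMap.add_comp, LinearMap.comp_add, hy', hz']⟩
    | smul t a _ ha =>
      obtain ⟨y, hy, hy'⟩ := ha
      exact ⟨t • y, 𝔮.smul_mem t hy, by rw [LinearMap.smul_comp, LinearMap.comp_smul, hy']⟩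
  obtain ⟨y', hy', h4⟩ := key x (h.fst_mem hxy)
  rw [h.uniq hxy hy']
  exact h4

end

section

variable {U U' : Type} [AddCommGroup U] [Module ℂ U] [AddCommGroup U'] [Module ℂ U']
    {N k N' k' : ℕ} {E : Fin N → Module.End ℂ U} {c : Fin N → Fin k}
    {E' : Fin N' → Module.End ℂ U'} {c' : Fin N' → Fin k'}
    {𝔮 : Submodule ℂ (Module.End ℂ U × Module.End ℂ U')}

/-- The intertwining map with values in an invariant subspace. -/
theorem Lk.exists_T_of3 (h : Lk E c E' c' 𝔮) [Nontrivial U] (hE : SP.CE E) {r : ℕ}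
    (hc : ∀ s, (Finset.univ.filter fun j => c j = s).card = r) (h6 : r = 3 ∨ 6 ≤ r)
    {P : Submodule ℂ U'} (hP0 : P ≠ ⊥) (hPi : ∀ y ∈ SP.soC E' c', ∀ v ∈ P, y v ∈ P)
    (hP : ∀ i j, i ≠ j → c i = c j → ∀ y, (E i * E j, y) ∈ 𝔮 → ∀ v ∈ P, y (y v) = -v) :
    ∃ T : U →ₗ[ℂ] U', T ≠ 0 ∧ ∀ x y, (x, y) ∈ 𝔮 → y.comp T = T.comp x := by
  obtain ⟨ρ, hρ⟩ := exists_rho P
  have hρ' : ∀ {x y}, (x, y) ∈ 𝔮 → ∀ v : P, ((ρ y v : P) : U') = y v := fun {x y} hp =>
    hρ y (hPi y (h.snd_mem hp))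
  have hnt : Nontrivial P := (Submodule.nontrivial_iff_ne_bot).2 hP0
  let 𝔮' : Submodule ℂ (Module.End ℂ U × Module.End ℂ P) :=
    𝔮.map (LinearMap.prodMap LinearMap.id ρ)
  have hm : ∀ {x y}, (x, y) ∈ 𝔮 → (x, ρ y) ∈ 𝔮' := fun {x y} hp => ⟨(x, y), hp, rfl⟩
  have hm' : ∀ {x Y}, (x, Y) ∈ 𝔮' → ∃ y, (x, y) ∈ 𝔮 ∧ ρ y = Y := by
    rintro x Y ⟨⟨x', y⟩, hp, he⟩
    have e1 : x' = x := congrArg Prod.fst he
    have e2 : ρ y = Y := congrArg Prod.snd he
    subst e1
    exact ⟨y, hp, e2⟩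
  have hH : Hq E c 𝔮' := by
    refine ⟨?_, ?_, fun Y hY => ?_, fun i j hij hcij Y hY => ?_⟩
    · rintro ⟨x, Y⟩ hx ⟨x', Y'⟩ hx'
      obtain ⟨y, hy, rfl⟩ := hm' hx
      obtain ⟨y', hy', rfl⟩ := hm' hx'
      have h1 := h.brk hy hy'
      have h2 := hm h1
      have h3 : ρ (y * y' - y' * y) = ρ y * ρ y' - ρ y' * ρ y := by
        refine LinearMap.ext fun v => Subtype.ext ?_
        rw [hρ' h1, LinearMap.sub_apply, LinearMap.sub_apply, Submodule.coe_sub,
          Module.End.mul_apply, Module.End.mul_apply, Module.End.mul_apply, Module.End.mul_apply,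
          hρ' hy, hρ' hy', hρ' hy', hρ' hy]
      rw [h3] at h2
      exact h2
    · rw [← h.fst]
      ext x
      constructor
      · rintro ⟨⟨x', Y⟩, hp, rfl⟩
        obtain ⟨y, hy, -⟩ := hm' hp
        exact ⟨(x', y), hy, rfl⟩
      · rintro ⟨⟨x', y⟩, hp, rfl⟩
        exact ⟨(x', ρ y), hm hp, rfl⟩
    · obtain ⟨y, hy, rfl⟩ := hm' hY
      rw [h.inj y hy, map_zero]
    · obtain ⟨y, hy, rfl⟩ := hm' hY
      refine LinearMap.ext fun v => Subtype.ext ?_
      rw [Module.End.mul_apply, hρ' hy, hρ' hy, hP i j hij hcij y hy v v.2]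
      rfl
  obtain ⟨T, hT0, hT⟩ := hH.exists_T3 hE hc h6
  refine ⟨P.subtype.comp T, fun h0 => hT0 ?_, fun x y hxy => ?_⟩
  · refine LinearMap.ext fun u => Subtype.ext ?_
    exact LinearMap.congr_fun h0 u
  · refine LinearMap.ext fun u => ?_
    have h1 := LinearMap.congr_fun (hT x (ρ y) (hm hxy)) u
    have h2 := congrArg Subtype.val h1
    rw [LinearMap.comp_apply, LinearMap.comp_apply, hρ' hxy] at h2
    exact h2

section Link

variable (h : Lk E c E' c' 𝔮)
  [FiniteDimensional ℂ U] [Nontrivial U] [FiniteDimensional ℂ U'] [Nontrivial U']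
  (hE : SP.CE E) (hE' : SP.CE E') {r : ℕ}
  (hc : ∀ s, (Finset.univ.filter fun j => c j = s).card = r)
  (hc' : ∀ s, (Finset.univ.filter fun j => c' j = s).card = r) (h6 : r = 3 ∨ 6 ≤ r)

include h hE hE' hc hc' h6

/-- The colours correspond. -/
theorem Lk.colour3 (hS : S_SIM) (s : Fin k) : ∃ t : Fin k',
    (∀ x y, (x, y) ∈ 𝔮 → x ∈ SP.soS E c s → y ∈ SP.soS E' c' t) ∧
      ∀ y ∈ SP.soS E' c' t, ∃ x ∈ SP.soS E c s, (x, y) ∈ 𝔮 := by
  have hpos : 0 < finrank ℂ (SP.soS E c s) := by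
    rw [finrank_soS hE (hc s)]
    have h2 : 6 ≤ r * (r - 1) := by
      rcases h6 with h3 | h3
      · rw [h3]
      · have := Nat.mul_le_mul h3 (show 5 ≤ r - 1 by omega)
        omega
    omega
  let X : Submodule ℂ (Module.End ℂ U × Module.End ℂ U') :=
    𝔮 ⊓ (SP.soS E c s).comap (LinearMap.fst ℂ _ _)
  let I : Submodule ℂ (Module.End ℂ U') := X.map (LinearMap.snd ℂ _ _)
  have hI : ∀ y, y ∈ I ↔ ∃ x ∈ SP.soS E c s, (x, y) ∈ 𝔮 := by
    intro y
    constructor
    · rintro ⟨⟨x, y'⟩, hp, rfl⟩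
      exact ⟨x, hp.2, hp.1⟩
    · rintro ⟨x, hx, hp⟩
      exact ⟨(x, y), ⟨hp, hx⟩, rfl⟩
  have hIdl : Idl I (SP.soC E' c') := by
    refine ⟨fun y hy => ?_, fun w hw y hy => ?_⟩
    · obtain ⟨x, -, hp⟩ := (hI y).1 hy
      exact h.snd_mem hp
    · obtain ⟨x, hx, hp⟩ := (hI y).1 hy
      obtain ⟨v, hv⟩ := h.mem_snd hw
      exact (hI _).2 ⟨v * x - x * v, (soS_idl hE).2 v (h.fst_mem hv) x hx, h.brk hv hp⟩
  have hfin : finrank ℂ I ≤ r * (r - 1) / 2 := by
    have e1 : finrank ℂ I ≤ finrank ℂ X := Submodule.finrank_map_le _ _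
    have e2 := finrank_ker X (LinearMap.fst ℂ (Module.End ℂ U) (Module.End ℂ U'))
    have e3 : X ⊓ LinearMap.ker (LinearMap.fst ℂ (Module.End ℂ U) (Module.End ℂ U')) = ⊥ := by
      rw [eq_bot_iff]
      rintro ⟨x, y⟩ ⟨⟨hp, -⟩, h0⟩
      have h1 : x = 0 := h0
      subst h1
      rw [Submodule.mem_bot, h.inj y hp]
      rfl
    have e4 : finrank ℂ (X.map (LinearMap.fst ℂ (Module.End ℂ U) (Module.End ℂ U'))) ≤
        r * (r - 1) / 2 := by
      rw [← finrank_soS hE (hc s)]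
      refine Submodule.finrank_mono ?_
      rintro _ ⟨⟨x, y⟩, hp, rfl⟩
      exact hp.2
    rw [e3, finrank_bot, zero_add] at e2
    exact e1.trans (e2.symm.trans_le e4)
  obtain ⟨t, ht⟩ : ∃ t, SP.soS E' c' t ≤ I := by
    by_contra hcon
    push Not at hcon
    have h1 : ∀ t, ∀ y ∈ I, SP.pS E' c' t y = 0 := fun t =>
      (dicho3 hS hE' (by rw [hc']; exact h6) hIdl).resolve_left (hcon t)
    have h2 : SP.soS E c s = ⊥ := by
      rw [eq_bot_iff]
      intro x hx
      obtain ⟨y, hp⟩ := h.mem_fst (SP.soS_le s hx)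
      have hy : y ∈ I := (hI y).2 ⟨x, hx, hp⟩
      have h3 : y = 0 := by
        rw [SP.pS_sum hE' (h.snd_mem hp)]
        exact Finset.sum_eq_zero fun t _ => h1 t y hy
      rw [h3] at hp
      rw [Submodule.mem_bot]
      exact h.inj' x hp
    rw [h2, finrank_bot] at hpos
    exact lt_irrefl _ hpos
  have hIt : SP.soS E' c' t = I := by
    refine Submodule.eq_of_le_of_finrank_le ht ?_
    rw [finrank_soS hE' (hc' t)]
    exact hfin
  refine ⟨t, fun x y hp hx => ?_, fun y hy => ?_⟩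
  · rw [hIt]
    exact (hI y).2 ⟨x, hx, hp⟩
  · rw [hIt] at hy
    exact (hI y).1 hy


/-- The squares. -/
theorem Lk.dich3 {i j : Fin N} (hij : i ≠ j) (hcij : c i = c j) {t : Fin k'}
    (ht1 : ∀ x y, (x, y) ∈ 𝔮 → x ∈ SP.soS E c (c i) → y ∈ SP.soS E' c' t)
    (ht2 : ∀ y ∈ SP.soS E' c' t, ∃ x ∈ SP.soS E c (c i), (x, y) ∈ 𝔮) {y : Module.End ℂ U'}
    (hy : (E i * E j, y) ∈ 𝔮) : y * y = -1 ∨ (r = 8 ∧ ∀ a, c' a = t →
      y * (y * E' a - E' a * y) - (y * E' a - E' a * y) * y = -E' a) := by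
  obtain ⟨e, he, he1, he2⟩ := exists_enum (hc (c i))
  obtain ⟨e', he', he1', he2'⟩ := exists_enum (hc' t)
  have hF := enum_CE hE he
  have hF' := enum_CE hE' he'
  have hso := enum_soE (E := E) he he1 he2
  have hso' := enum_soE (E := E') he' he1' he2'
  have hppm : ∀ a b, pp (fun a => E (e a)) a b ∈ SP.soS E c (c i) := by
    intro a b
    unfold pp
    split_ifs with hab
    · exact Submodule.zero_mem _
    · exact Submodule.subset_span ⟨_, _, fun h' => hab (he h'), he1 a, he1 b, rfl⟩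
  choose Y hY using fun a b => h.mem_fst (SP.soS_le (c i) (hppm a b))
  have hrel : RelE (fun a => E' (e' a)) Y := by
    refine ⟨fun a b => ?_, fun a b => ?_, fun a b d hab hbd had => ?_, fun a b z hz => ?_,
      fun z hz => ?_⟩
    · rw [hso']
      exact ht1 _ _ (hY a b) (hppm a b)
    · refine h.uniq (hY a b) ?_
      have h1 := 𝔮.neg_mem (hY b a)
      have h2 : pp (fun a => E (e a)) a b = -pp (fun a => E (e a)) b a := by
        unfold pp
        by_cases hab : a = b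
        · rw [if_pos hab, if_pos hab.symm, neg_zero]
        · rw [if_neg hab, if_neg (Ne.symm hab), hF.anti a b hab]
      rw [h2]
      exact h1
    · refine h.uniq (h.brk (hY a b) (hY b d)) ?_
      have h1 := 𝔮.smul_mem (2 : ℂ) (hY a d)
      have h2 : pp (fun a => E (e a)) a b * pp (fun a => E (e a)) b d -
          pp (fun a => E (e a)) b d * pp (fun a => E (e a)) a b =
          (2 : ℂ) • pp (fun a => E (e a)) a d := by
        unfold pp
        rw [if_neg hab, if_neg hbd, if_neg had]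
        exact SP.simple_br hF hab hbd had
      rw [h2]
      exact h1
    · rw [hso'] at hz
      obtain ⟨w, hw, hp⟩ := ht2 z hz
      by_cases hab : a = b
      · have h1 : Y a b = 0 := by
          refine h.uniq (hY a b) ?_
          unfold pp
          rw [if_pos hab]
          exact 𝔮.zero_mem
        rw [h1]
        simp
      · have g1 := h.brk (hY a b) hp
        have g2 := h.brk (hY a b) g1
        have g3 := h.brk (hY a b) g2
        refine h.uniq g3 ?_
        have g4 := 𝔮.smul_mem (-4 : ℂ) g1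
        have g5 := three_C hE (c := c) (fun h' => hab (he h') : e a ≠ e b) (SP.soS_le (c i) hw)
        have g6 : pp (fun a => E (e a)) a b = E (e a) * E (e b) := by
          unfold pp
          rw [if_neg hab]
        rw [g6] at g4 ⊢
        rw [g5]
        exact g4
    · rw [hso'] at hz
      obtain ⟨w, hw, hp⟩ := ht2 z hz
      have g1 : ∀ a b, (pp (fun a => E (e a)) a b * (pp (fun a => E (e a)) a b * w -
          w * pp (fun a => E (e a)) a b) - (pp (fun a => E (e a)) a b * w -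
          w * pp (fun a => E (e a)) a b) * pp (fun a => E (e a)) a b,
          Y a b * (Y a b * z - z * Y a b) - (Y a b * z - z * Y a b) * Y a b) ∈ 𝔮 :=
        fun a b => h.brk (hY a b) (h.brk (hY a b) hp)
      have g2 := 𝔮.sum_mem (t := Finset.univ) fun a _ => 𝔮.sum_mem (t := Finset.univ)
        fun b _ => g1 a b
      have g3 : ∀ f : Fin r → Fin r → Module.End ℂ U × Module.End ℂ U',
          ∑ a, ∑ b, f a b = (∑ a, ∑ b, (f a b).1, ∑ a, ∑ b, (f a b).2) := by
        intro f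
        refine Prod.ext ?_ ?_
        · simp only [Prod.fst_sum]
        · simp only [Prod.snd_sum]
      rw [g3] at g2
      simp only at g2
      rw [cas_pp hF (by rw [hso]; exact hw)] at g2
      exact h.uniq g2 (𝔮.smul_mem (-16 * ((r : ℂ) - 2)) hp)
  obtain ⟨a, rfl⟩ := he2 i rfl
  obtain ⟨b, rfl⟩ := he2 j hcij.symm
  have hab : a ≠ b := fun h' => hij (by rw [h'])
  have h2 : Y a b = y := by
    refine h.uniq (hY a b) ?_
    unfold pp
    rw [if_neg hab]
    exact hy
  rcases hrel.dich hF' (by omega) hab with h1 | ⟨h1, h3⟩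
  · left
    rwa [h2] at h1
  · right
    refine ⟨h1, fun d hd => ?_⟩
    obtain ⟨d', rfl⟩ := he2' d hd
    have h4 := h3 d'
    rwa [h2] at h4

/-- The parity of the element `y`. -/
theorem Lk.exists_g3 {i j : Fin N} (hij : i ≠ j) (hcij : c i = c j) {t : Fin k'}
    (ht1 : ∀ x y, (x, y) ∈ 𝔮 → x ∈ SP.soS E c (c i) → y ∈ SP.soS E' c' t)
    (ht2 : ∀ y ∈ SP.soS E' c' t, ∃ x ∈ SP.soS E c (c i), (x, y) ∈ 𝔮) {y : Module.End ℂ U'}
    (hy : (E i * E j, y) ∈ 𝔮) : ∃ g : Module.End ℂ U', g * g = 1 ∧ (y * y + 1) * (g - 1) = 0 ∧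
      (g = -1 ∨ ∀ a, c' a = t → g * E' a = -(E' a * g)) ∧ ∀ z, y * z = z * y → g * z = z * g := by
  rcases h.dich3 hE hE' hc hc' h6 hij hcij ht1 ht2 hy with h1 | ⟨h8, h1⟩
  · refine ⟨-1, by simp, by rw [h1]; simp, Or.inl rfl, fun z _ => by simp⟩
  · subst h8
    obtain ⟨e', he', he1', he2'⟩ := exists_enum (hc' t)
    have hF' := enum_CE hE' he'
    have hys : y ∈ SP.soE fun a => E' (e' a) := by
      rw [enum_soE he' he1' he2']
      exact ht1 _ _ hy (Submodule.subset_span ⟨i, j, hij, rfl, hcij.symm, rfl⟩)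
    obtain ⟨g, g1, g2, g3, g4⟩ := parity (F := fun a => E' (e' a)) hF'.sq hF'.anti
      (SP.soE_rec hF' hys).symm fun a => h1 _ (he1' a)
    refine ⟨g, g1, g2, Or.inr fun a ha => ?_, g4⟩
    obtain ⟨d', rfl⟩ := he2' a ha
    exact g3 d'

end Link

end

theorem exists_pair3 {N k r : ℕ} {c : Fin N → Fin k}
    (hc : ∀ s, (Finset.univ.filter fun j => c j = s).card = r) (h6 : r = 3 ∨ 6 ≤ r) (s : Fin k) :
    ∃ i j : Fin N, i ≠ j ∧ c i = s ∧ c j = s := by
  have h1 : 1 < (Finset.univ.filter fun j => c j = s).card := by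
    rw [hc]
    omega
  obtain ⟨i, hi, j, hj, hij⟩ := Finset.one_lt_card.1 h1
  exact ⟨i, j, hij, (Finset.mem_filter.1 hi).2, (Finset.mem_filter.1 hj).2⟩

section

variable {U U' : Type} [AddCommGroup U] [Module ℂ U] [AddCommGroup U'] [Module ℂ U']
    {N k N' k' : ℕ} {E : Fin N → Module.End ℂ U} {c : Fin N → Fin k}
    {E' : Fin N' → Module.End ℂ U'} {c' : Fin N' → Fin k'}
    {𝔮 : Submodule ℂ (Module.End ℂ U × Module.End ℂ U')} (h : Lk E c E' c' 𝔮)

section Main

variable [FiniteDimensional ℂ U] [Nontrivial U] [FiniteDimensional ℂ U'] [Nontrivial U']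
  (hE : SP.CE E) (hE' : SP.CE E') {r : ℕ}
  (hc : ∀ s, (Finset.univ.filter fun j => c j = s).card = r)
  (hc' : ∀ s, (Finset.univ.filter fun j => c' j = s).card = r) (h6 : r = 3 ∨ 6 ≤ r)

include h hE hE' hc hc' h6

theorem Lk.exists_P3 (hS : S_SIM) : ∃ P : Submodule ℂ U', P ≠ ⊥ ∧ (∀ y ∈ SP.soC E' c', ∀ v ∈ P, y v ∈ P) ∧
    ∀ i j, i ≠ j → c i = c j → ∀ y, (E i * E j, y) ∈ 𝔮 → ∀ v ∈ P, y (y v) = -v := by
  classical
  choose i0 j0 hij0 hi0 hj0 using exists_pair3 hc h6
  choose t ht1 ht2 using h.colour3 hE hE' hc hc' h6 hS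
  have tinj : ∀ s s', t s = t s' → s = s' := by
    intro s s' hss
    by_contra hne
    obtain ⟨a, b, hab, ha, hb⟩ := exists_pair3 hc' h6 (t s)
    have hy : E' a * E' b ∈ SP.soS E' c' (t s) :=
      Submodule.subset_span ⟨a, b, hab, ha, hb, rfl⟩
    obtain ⟨x, hx, hp⟩ := ht2 s _ hy
    obtain ⟨x', hx', hp'⟩ := ht2 s' _ (hss ▸ hy)
    have h1 := 𝔮.sub_mem hp hp'
    have h2 : ((x, E' a * E' b) : Module.End ℂ U × Module.End ℂ U') - (x', E' a * E' b) =
        (x - x', 0) := Prod.ext rfl (sub_self _)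
    rw [h2] at h1
    have h3 : x = x' := sub_eq_zero.1 (h.inj' _ h1)
    have h4 := SP.pS_same hE hx
    rw [h3, SP.pS_other hE hne hx', ← h3] at h4
    rw [← h4] at hp
    have h5 : E' a * E' b = 0 := h.inj _ hp
    have h6 := SP.simple_sq hE' hab
    rw [h5, mul_zero] at h6
    exact one_ne_zero (neg_eq_zero.1 h6.symm)
  choose y0 hy0 using fun s => h.mem_fst (x := E (i0 s) * E (j0 s))
    (Submodule.subset_span ⟨_, _, hij0 s, (hi0 s).trans (hj0 s).symm, rfl⟩)
  have hy0m : ∀ s, y0 s ∈ SP.soS E' c' (t s) := fun s => ht1 s _ _ (hy0 s)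
    (Submodule.subset_span ⟨_, _, hij0 s, hi0 s, hj0 s, rfl⟩)
  choose g g1 g2 g3 g4 using fun s => h.exists_g3 hE hE' hc hc' h6 (hij0 s)
    ((hi0 s).trans (hj0 s).symm) (t := t s) (by rw [hi0 s]; exact ht1 s)
    (by rw [hi0 s]; exact ht2 s) (hy0 s)
  -- the parities commute with the Lie algebra
  have hgo : ∀ s a, c' a ≠ t s → g s * E' a = E' a * g s := fun s a ha =>
    g4 s _ (soS_gen hE' ha (hy0m s))
  have hgC : ∀ s, ∀ y ∈ SP.soC E' c', g s * y = y * g s := by
    intro s y hy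
    induction hy using Submodule.span_induction with
    | mem y hy =>
      obtain ⟨i, j, hij, hcij, rfl⟩ := hy
      by_cases hi : c' i = t s
      · rcases g3 s with h1 | h1
        · rw [h1]
          simp
        · rw [← mul_assoc, h1 i hi, neg_mul, mul_assoc, h1 j (hcij ▸ hi), mul_neg, neg_neg,
            mul_assoc]
      · rw [← mul_assoc, hgo s i hi, mul_assoc, hgo s j (by rw [← hcij]; exact hi), mul_assoc]
    | zero => rw [mul_zero, zero_mul]
    | add u v _ _ hu hv => rw [mul_add, add_mul, hu, hv]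
    | smul t u _ hu => rw [mul_smul_comm, smul_mul_assoc, hu]
  have hgg : ∀ s s', g s * g s' = g s' * g s := by
    intro s s'
    refine g4 s _ ?_
    exact (hgC s' (y0 s) (SP.soS_le _ (hy0m s))).symm
  let P : Submodule ℂ U' :=
    { carrier := {v | ∀ s, g s v = -v}
      zero_mem' := fun s => by rw [map_zero, neg_zero]
      add_mem' := fun {u v} hu hv s => by rw [map_add, hu s, hv s, neg_add]
      smul_mem' := fun z v hv s => by rw [map_smul, hv s, smul_neg] }
  have hPi : ∀ y ∈ SP.soC E' c', ∀ v ∈ P, y v ∈ P := by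
    intro y hy v hv s
    have h1 := LinearMap.congr_fun (hgC s y hy) v
    rw [Module.End.mul_apply, Module.End.mul_apply, hv s, map_neg] at h1
    exact h1
  have hP0 : ∀ S : Finset (Fin k), ∃ v : U', v ≠ 0 ∧ ∀ s ∈ S, g s v = -v := by
    intro S
    induction S using Finset.induction_on with
    | empty =>
      obtain ⟨v, hv⟩ := exists_ne (0 : U')
      exact ⟨v, hv, fun s hs => absurd hs (Finset.notMem_empty s)⟩
    | insert b S hb ih =>
      obtain ⟨v, hv, hvS⟩ := ih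
      have hbb : ∀ w, g b (g b w) = w := fun w => LinearMap.congr_fun (g1 b) w
      by_cases hw : v - g b v = 0
      · have hbv : g b v = v := (sub_eq_zero.1 hw).symm
        rcases g3 b with h1 | h1
        · exfalso
          rw [h1] at hbv
          have h2 : -v = v := hbv
          have h3 : (2 : ℂ) • v = 0 := by
            rw [two_smul]
            nth_rewrite 1 [← h2]
            rw [neg_add_cancel]
          exact hv ((smul_eq_zero.1 h3).resolve_left two_ne_zero)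
        · obtain ⟨a, -, -, ha, -⟩ := exists_pair3 hc' h6 (t b)
          refine ⟨E' a v, fun h0 => hv ?_, fun s hs => ?_⟩
          · have h2 := LinearMap.congr_fun (hE'.sq a) v
            rw [Module.End.mul_apply, h0, map_zero] at h2
            exact h2.symm
          · rcases Finset.mem_insert.1 hs with rfl | hs
            · have h2 := LinearMap.congr_fun (h1 a ha) v
              rw [Module.End.mul_apply, LinearMap.neg_apply, Module.End.mul_apply, hbv] at h2
              exact h2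
            · have hne : c' a ≠ t s := by
                rw [ha]
                intro h2
                rw [tinj _ _ h2] at hb
                exact hb hs
              have h2 := LinearMap.congr_fun (hgo s a hne) v
              rw [Module.End.mul_apply, Module.End.mul_apply, hvS s hs, map_neg] at h2
              exact h2
      · refine ⟨_, hw, fun s hs => ?_⟩
        rcases Finset.mem_insert.1 hs with rfl | hs
        · rw [map_sub, hbb]
          abel
        · have h2 := LinearMap.congr_fun (hgg s b) v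
          rw [Module.End.mul_apply, Module.End.mul_apply, hvS s hs, map_neg] at h2
          rw [map_sub, hvS s hs, h2]
          abel
  obtain ⟨v, hv, hvP⟩ := hP0 Finset.univ
  refine ⟨P, ?_, hPi, fun i j hij hcij => ?_⟩
  · rw [Submodule.ne_bot_iff]
    exact ⟨v, fun s => hvP s (Finset.mem_univ s), hv⟩
  · have hs0 : Sq E 𝔮 P (i0 (c i)) (j0 (c i)) := by
      intro y hy v hv
      rw [h.uniq hy (hy0 (c i))]
      have h1 := LinearMap.congr_fun (g2 (c i)) v
      rw [Module.End.mul_apply, LinearMap.sub_apply, Module.End.one_apply, hv (c i),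
        LinearMap.zero_apply, LinearMap.add_apply, Module.End.mul_apply, Module.End.one_apply] at h1
      have h2 : (-2 : ℂ) • (y0 (c i) (y0 (c i) v) + v) = 0 := by
        rw [← h1, map_sub, map_sub, map_neg, map_neg]
        module
      exact eq_neg_of_add_eq_zero_left ((smul_eq_zero.1 h2).resolve_left (by norm_num))
    exact Sq.all h hE hPi (hij0 _) ((hi0 _).trans (hj0 _).symm) hs0 hij (hi0 _).symm
      (by rw [← hcij, hi0])

/-- **The intertwining map, for all ranks.** -/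
theorem Lk.exists_T'3 (hS : S_SIM) : ∃ T : U →ₗ[ℂ] U', T ≠ 0 ∧
    ∀ x y, (x, y) ∈ 𝔮 → y.comp T = T.comp x := by
  obtain ⟨P, hP0, hPi, hP⟩ := h.exists_P3 hE hE' hc hc' h6 hS
  exact h.exists_T_of3 hE hc h6 hP0 hPi hP

end Main

end

section

variable {T : Type} [Fintype T] [DecidableEq T] {n : T → ℕ}
  {η : ∀ t, Basis (Fin (n t)) ℂ ((Fin (n t) → ℚ) →ₗ[ℚ] ℂ)}

/-- The intertwining map over the rational numbers. -/
theorem exists_f3 (hS : S_SIM) {s t : T} (h : Linked η s t) {r : ℕ} (hs : Spin (gg η s) r)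
    (ht : Spin (gg η t) r) (h6 : r = 3 ∨ 6 ≤ r)
    [Nontrivial (ℂ ⊗[ℚ] (Fin (n s) → ℚ))] [Nontrivial (ℂ ⊗[ℚ] (Fin (n t) → ℚ))] :
    ∃ f : (Fin (n s) → ℚ) →ₗ[ℚ] (Fin (n t) → ℚ), f ≠ 0 ∧
      ∀ X Y, (X, Y) ∈ (LG η).map (prq s t) → Y.comp f = f.comp X := by
  obtain ⟨N, k, E, c, hE, hc, hg⟩ := hs
  obtain ⟨N', k', E', c', hE', hc', hg'⟩ := ht
  have hLk : Lk E c E' c' (cx2 ((LG η).map (prq s t))) := by
    refine ⟨cx2_br qq_br, ?_, ?_, fun Y hY => ?_, fun X hX => ?_⟩
    · rw [cx2_fst, qq_fst, hg]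
    · rw [cx2_snd, qq_snd, hg']
    · have h1 : ∀ lam : ℂ →ₗ[ℚ] ℚ, cmpE lam Y = 0 := by
        intro lam
        have h2 := cx2_comp hY lam
        have h3 : cmpE lam (0 : Module.End ℂ (ℂ ⊗[ℚ] (Fin (n s) → ℚ))) = 0 :=
          LinearMap.ext fun w => by rw [cmpE_apply, LinearMap.zero_apply, map_zero]; rfl
        simp only at h2
        rw [h3] at h2
        exact h.inj h2
      have h2 : ∀ w, Y ((1 : ℂ) ⊗ₜ[ℚ] w) = 0 := fun w => eq_zero_of_cmp fun lam =>
        LinearMap.congr_fun (h1 lam) w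
      refine LinearMap.ext fun z => ?_
      induction z with
      | zero => rw [map_zero, map_zero]
      | add z z' hz hz' => rw [map_add, map_add, hz, hz']
      | tmul a w =>
        have h3 : a ⊗ₜ[ℚ] w = a • ((1 : ℂ) ⊗ₜ[ℚ] w) := by rw [smul_tmul', smul_eq_mul, mul_one]
        rw [h3, map_smul, h2, smul_zero, LinearMap.zero_apply]
    · have h1 : ∀ lam : ℂ →ₗ[ℚ] ℚ, cmpE lam X = 0 := by
        intro lam
        have h2 := cx2_comp hX lam
        have h3 : cmpE lam (0 : Module.End ℂ (ℂ ⊗[ℚ] (Fin (n t) → ℚ))) = 0 :=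
          LinearMap.ext fun w => by rw [cmpE_apply, LinearMap.zero_apply, map_zero]; rfl
        simp only at h2
        rw [h3] at h2
        exact h.inj' h2
      have h2 : ∀ w, X ((1 : ℂ) ⊗ₜ[ℚ] w) = 0 := fun w => eq_zero_of_cmp fun lam =>
        LinearMap.congr_fun (h1 lam) w
      refine LinearMap.ext fun z => ?_
      induction z with
      | zero => rw [map_zero, map_zero]
      | add z z' hz hz' => rw [map_add, map_add, hz, hz']
      | tmul a w =>
        have h3 : a ⊗ₜ[ℚ] w = a • ((1 : ℂ) ⊗ₜ[ℚ] w) := by rw [smul_tmul', smul_eq_mul, mul_one]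
        rw [h3, map_smul, h2, smul_zero, LinearMap.zero_apply]
  obtain ⟨f₀, hf₀, hf₁⟩ := hLk.exists_T'3 hE hE' hc hc' h6 hS
  -- the components
  let F : (ℂ →ₗ[ℚ] ℚ) → (Fin (n s) → ℚ) →ₗ[ℚ] (Fin (n t) → ℚ) := fun lam =>
    cmp lam ∘ₗ (f₀.restrictScalars ℚ) ∘ₗ (TensorProduct.mk ℚ ℂ (Fin (n s) → ℚ) 1)
  have hF : ∀ lam w, F lam w = cmp lam (f₀ ((1 : ℂ) ⊗ₜ[ℚ] w)) := fun _ _ => rfl
  obtain ⟨lam, hlam⟩ : ∃ lam, F lam ≠ 0 := by
    by_contra hcon
    push Not at hcon
    have h2 : ∀ w, f₀ ((1 : ℂ) ⊗ₜ[ℚ] w) = 0 := fun w => eq_zero_of_cmp fun lam =>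
        LinearMap.congr_fun (hcon lam) w
    refine hf₀ (LinearMap.ext fun z => ?_)
    induction z with
    | zero => rw [map_zero, map_zero]
    | add z z' hz hz' => rw [map_add, map_add, hz, hz']
    | tmul a w =>
      have h3 : a ⊗ₜ[ℚ] w = a • ((1 : ℂ) ⊗ₜ[ℚ] w) := by rw [smul_tmul', smul_eq_mul, mul_one]
      rw [h3, map_smul, h2, smul_zero, LinearMap.zero_apply]
  refine ⟨F lam, hlam, fun X Y hXY => LinearMap.ext fun w => ?_⟩
  have h1 := LinearMap.congr_fun (hf₁ _ _ (cx2_mem hXY)) ((1 : ℂ) ⊗ₜ[ℚ] w)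
  rw [LinearMap.comp_apply, LinearMap.comp_apply] at h1
  simp only [LinearMap.baseChange_tmul] at h1
  have h2 := congrArg (cmp lam) h1
  rw [cmp_bcg] at h2
  exact h2

end

section

variable {I J : Type} [Fintype I] [DecidableEq I] [Fintype J] [DecidableEq J]
  {g : I → ℕ} {A : ∀ i, AbVar (g i)} {d : J → ℕ} {V : ∀ j, DRS (d j)}

/-- Linked members have homomorphisms. -/
theorem hom_of_linked3 (hS : S_SIM) {i i' : I} {r : ℕ} (h : Linked (ηη A V) (Sum.inl i) (Sum.inl i'))
    (h1 : SpinMat (A i) r) (h2 : SpinMat (A i') r) (h6 : r = 3 ∨ 6 ≤ r)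
    (hn : gg (ηη A V) (Sum.inl i) ≠ ⊥) :
    ∃ f : (A i).H1 →ₗ[ℚ] (A i').H1, f ≠ 0 ∧ IsHomAb (A i) (A i') f := by
  have hn1 : Nontrivial (ℂ ⊗[ℚ] (Fin (nn g d (Sum.inl i)) → ℚ)) := by
    by_contra hc
    exact hn (gg_bot hc)
  have hn2 : Nontrivial (ℂ ⊗[ℚ] (Fin (nn g d (Sum.inl i')) → ℚ)) := by
    by_contra hc
    exact hn (h.symm.bot (gg_bot hc))
  obtain ⟨f, hf, hf1⟩ := exists_f3 hS h (gg_spin h1) (gg_spin h2) h6
  have hNN : ∀ (D : Derivation QBar ℂ ℂ) (lam : ℂ →ₗ[ℚ] ℚ),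
        (NN (ηη A V (Sum.inl i')) D lam).comp f = f.comp (NN (ηη A V (Sum.inl i)) D lam) := by
    intro D lam
    have h1 := hf1 _ _ (⟨gn (ηη A V) D lam, gn_mem_LG (ηη A V) D lam, rfl⟩ :
      (pr (Sum.inl i) (gn (ηη A V) D lam), pr (Sum.inl i') (gn (ηη A V) D lam)) ∈
        (LG (ηη A V)).map (prq (Sum.inl i) (Sum.inl i')))
    refine LinearMap.ext fun w => ?_
    have h2 := LinearMap.congr_fun h1 w
    simp only [pr_apply, LinearMap.comp_apply, LinearMap.sub_apply, LinearMap.smul_apply,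
      Module.End.one_apply, map_sub, map_smul] at h2
    exact sub_left_injective h2
  obtain ⟨a, ha⟩ := hom_of_comm (ηη A V) (s := Sum.inl i) (t := Sum.inl i') hNN
  have hdR : ∃ a : (Fin (g i') ⊕ Fin (g i')) → (Fin (g i) ⊕ Fin (g i)) → QBar,
      ∀ p w, (A i').dR p (f w) = ∑ q, algebraMap QBar ℂ (a p q) * (A i).dR q w := by
    refine ⟨fun p q => a (eqv (g i') p) (eqv (g i) q), fun p w => ?_⟩
    have h1 : (A i').dR p (f w) = ηA A i' (eqv (g i') p) (f w) := by
      unfold ηA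
      rw [Basis.reindex_apply, Equiv.symm_apply_apply, (A i').coe_basis]
    have h2 : ∀ q, ηA A i (eqv (g i) q) w = (A i).dR q w := by
      intro q
      unfold ηA
      rw [Basis.reindex_apply, Equiv.symm_apply_apply, (A i).coe_basis]
    have h3 : ηA A i' (eqv (g i') p) (f w) = ∑ q, algebraMap QBar ℂ (a (eqv (g i') p) q) *
        ηA A i q w := ha (eqv (g i') p) w
    refine h1.trans (h3.trans ?_)
    refine (Equiv.sum_comp (eqv (g i)) (fun q => algebraMap QBar ℂ (a (eqv (g i') p) q) *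
        ηA A i q w)).symm.trans ?_
    exact Finset.sum_congr rfl fun q _ => by rw [h2]
  exact ⟨f, hf, (A i).hodge_hom (A i') hdR, hdR⟩

/-- **Part HOM.** -/
theorem hom (hS : S_SIM) : S_HOM := fun h h1 h2 h6 hn => hom_of_linked3 hS h h1 h2 h6 hn

end

end Pool.Agent.N192.GP
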