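import Pool.Agent.N134.P1_PTWP

/-!
# Project P1 (helper979), task JPOL (helper669): the form in polar coordinates
-/

set_option autoImplicit false

open MeasureTheory Metric Set Filter Topology

namespace Pool.Agent.N669.P1_JPOL

open Pool.Agent.H241R3.FV Pool.Agent.N526.CP Pool.Agent.N979.P1 Pool.Agent.N134.P1_PTWP

theorem inner2 (u v : E 2) : inner ℝ u v = u 0 * v 0 + u 1 * v 1 := by
  rw [PiLp.inner_apply, Fin.sum_univ_two]
  simp
  ring

theorem norm2 (u : E 2) (h : ‖u‖ = 1) : u 0 * u 0 + u 1 * u 1 = 1 := by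
  rw [← inner2, real_inner_self_eq_norm_sq, h]
  norm_num

theorem Jr0 (v : E 2) : Jr v 0 = -(v 1) := by simp [Jr]
theorem Jr1 (v : E 2) : Jr v 1 = v 0 := by simp [Jr]

theorem Ax0 (θ : Sph 2) (z : E 2) : Ax θ z 0 = z 0 * (θ : E 2) 0 + z 1 * (θ : E 2) 1 := by
  have : Ax θ z 0 = inner ℝ z (θ : E 2) := by simp [Ax]
  rw [this, inner2]

theorem Ax1 (θ : Sph 2) (z : E 2) : Ax θ z 1 = -(z 0 * (θ : E 2) 1) + z 1 * (θ : E 2) 0 := by
  have : Ax θ z 1 = inner ℝ z (Jr (θ : E 2)) := by simp [Ax]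
  rw [this, inner2, Jr0, Jr1]
  ring

theorem sph2 (θ : Sph 2) : (θ : E 2) 0 * (θ : E 2) 0 + (θ : E 2) 1 * (θ : E 2) 1 = 1 :=
  norm2 _ (norm_sph θ)

theorem inner_Ax (θ : Sph 2) (u v : E 2) : inner ℝ (Ax θ u) (Ax θ v) = inner ℝ u v := by
  rw [inner2, inner2, Ax0, Ax0, Ax1, Ax1]
  linear_combination (u 0 * v 0 + u 1 * v 1) * sph2 θ

theorem inner_Jr_Ax (θ : Sph 2) (u v : E 2) :
    inner ℝ (Jr (Ax θ u)) (Ax θ v) = inner ℝ (Jr u) v := by
  rw [inner2, inner2, Jr0, Jr1, Jr0, Jr1, Ax0, Ax0, Ax1, Ax1]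
  linear_combination (u 0 * v 1 - u 1 * v 0) * sph2 θ

theorem norm_Ax (θ e : Sph 2) : ‖Ax θ (e : E 2)‖ = 1 := by
  have h : ‖Ax θ (e : E 2)‖ ^ 2 = 1 := by
    rw [← real_inner_self_eq_norm_sq, inner_Ax, real_inner_self_eq_norm_sq, norm_sph]
    norm_num
  have h0 := norm_nonneg (Ax θ (e : E 2))
  nlinarith

open scoped Pointwise in
/-- hyperplanes meet the sphere in a null set -/
theorem ae_ne (u : E 2) (hu : u ≠ 0) : ∀ᵐ θ : Sph 2 ∂(sg 2), inner ℝ u (θ : E 2) ≠ 0 := by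
  unfold sg
  apply Measure.ae_smul_measure
  rw [ae_iff]
  have hc : Continuous (fun θ : Sph 2 => inner ℝ u (θ : E 2)) :=
    continuous_const.inner continuous_subtype_val
  have hm : MeasurableSet {θ : Sph 2 | ¬ inner ℝ u (θ : E 2) ≠ 0} := by
    have : {θ : Sph 2 | ¬ inner ℝ u (θ : E 2) ≠ 0} = (fun θ : Sph 2 => inner ℝ u (θ : E 2)) ⁻¹' {0} := by
      ext θ
      simp
    rw [this]
    exact hc.measurable (measurableSet_singleton 0)
  unfold sig
  rw [Measure.toSphere_apply' _ hm]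
  have h0 : (volume : Measure (E 2)) (Ioo (0 : ℝ) 1 •
      (Subtype.val '' {θ : Sph 2 | ¬ inner ℝ u (θ : E 2) ≠ 0} : Set (E 2))) = 0 := by
    have hker : (LinearMap.ker (innerSL ℝ u : E 2 →L[ℝ] ℝ).toLinearMap : Submodule ℝ (E 2)) ≠ ⊤ := by
      intro htop
      have : u ∈ LinearMap.ker (innerSL ℝ u : E 2 →L[ℝ] ℝ).toLinearMap := by
        rw [htop]
        trivial
      rw [LinearMap.mem_ker] at this
      have h2 : inner ℝ u u = 0 := this
      exact hu (inner_self_eq_zero.1 h2)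
    refine measure_mono_null ?_ (Measure.addHaar_submodule volume _ hker)
    rintro x ⟨s, hs, y, ⟨θ, hθ, rfl⟩, rfl⟩
    have hθ' : inner ℝ u (θ : E 2) = 0 := not_not.1 hθ
    show (innerSL ℝ u) (s • (θ : E 2)) = 0
    rw [map_smul]
    show s • inner ℝ u (θ : E 2) = 0
    rw [hθ', smul_zero]
  rw [h0, mul_zero]

theorem ae_good (e : Sph 2) (L : ℕ) (t : Fin L → ℝ) :
    ∀ᵐ θ ∂(sg 2), Ax θ (e : E 2) 0 ≠ 0 ∧ ∀ i, |Ax θ (e : E 2) 1| ≠ t i * |Ax θ (e : E 2) 0| := by
  have he := sph2 e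
  have hne : ∀ c : ℝ, (!₂[-((e : E 2) 1) - c * (e : E 2) 0, (e : E 2) 0 - c * (e : E 2) 1] : E 2) ≠ 0 := by
    intro c h
    have h0 := congrArg (fun v : E 2 => v 0) h
    have h1 := congrArg (fun v : E 2 => v 1) h
    simp only [PiLp.zero_apply] at h0 h1
    simp at h0 h1
    nlinarith [sq_nonneg ((e : E 2) 0), sq_nonneg ((e : E 2) 1), sq_nonneg c]
  have h1 : ∀ᵐ θ : Sph 2 ∂(sg 2), inner ℝ (e : E 2) (θ : E 2) ≠ 0 := by
    apply ae_ne
    intro h
    have := norm_sph e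
    rw [h, norm_zero] at this
    exact zero_ne_one this
  have h2 : ∀ᵐ θ : Sph 2 ∂(sg 2), ∀ i : Fin L, inner ℝ (!₂[-((e : E 2) 1) - (t i) * (e : E 2) 0,
      (e : E 2) 0 - (t i) * (e : E 2) 1] : E 2) (θ : E 2) ≠ 0 := by
    rw [ae_all_iff]
    exact fun i => ae_ne _ (hne _)
  have h3 : ∀ᵐ θ : Sph 2 ∂(sg 2), ∀ i : Fin L, inner ℝ (!₂[-((e : E 2) 1) - (-(t i)) * (e : E 2) 0,
      (e : E 2) 0 - (-(t i)) * (e : E 2) 1] : E 2) (θ : E 2) ≠ 0 := by
    rw [ae_all_iff]
    exact fun i => ae_ne _ (hne _)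
  filter_upwards [h1, h2, h3] with θ g1 g2 g3
  rw [inner2] at g1
  refine ⟨by rw [Ax0]; exact g1, fun i hi => ?_⟩
  have g2' := g2 i
  have g3' := g3 i
  rw [inner2] at g2' g3'
  simp only [Matrix.cons_val_zero, Matrix.cons_val_one] at g2' g3'
  rw [Ax0, Ax1] at hi
  set x := (e : E 2) 0 * (θ : E 2) 0 + (e : E 2) 1 * (θ : E 2) 1 with hx
  set y := -((e : E 2) 0 * (θ : E 2) 1) + (e : E 2) 1 * (θ : E 2) 0 with hy
  have k2 : -y - t i * x ≠ 0 := by
    intro h
    apply g2'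
    rw [hx, hy] at h
    linear_combination h
  have k3 : -y + t i * x ≠ 0 := by
    intro h
    apply g3'
    rw [hx, hy] at h
    linear_combination h
  rcases abs_cases x with ⟨ex, _⟩ | ⟨ex, _⟩ <;> rcases abs_cases y with ⟨ey, _⟩ | ⟨ey, _⟩ <;>
    rw [ex, ey] at hi
  · exact k3 (by linear_combination -hi)
  · exact k2 (by linear_combination hi)
  · exact k2 (by linear_combination -hi)
  · exact k3 (by linear_combination hi)

/-! ### The derivative -/

theorem cont0 : Continuous (fun z : E 2 => z 0) := by fun_prop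
theorem cont1 : Continuous (fun z : E 2 => z 1) := by fun_prop

/-- the coordinate functionals -/
noncomputable def pr (i : Fin 2) : E 2 →L[ℝ] ℝ := EuclideanSpace.proj i

theorem pr_apply (i : Fin 2) (z : E 2) : pr i z = z i := rfl

theorem Mc_near {t r : ℝ} (ht : 0 < t) (hr : 0 < r) {w : E 2} (h0 : w 0 ≠ 0)
    (hw : |w 1| ≠ t * |w 0|) : ∃ l : E 2 →L[ℝ] ℝ, (∀ᶠ z in 𝓝 (r • w), Mc t z = l z) ∧
      l w = Mc t w ∧ l (Jr w) = Mc' t w := by
  have a0 : 0 < |w 0| := abs_pos.2 h0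
  have e0 : (r • w) 0 = r * w 0 := by simp
  have e1 : (r • w) 1 = r * w 1 := by simp
  rcases lt_or_gt_of_ne hw with h | h
  · refine ⟨pr 1, ?_, ?_, ?_⟩
    · have h1 : ∀ᶠ z : E 2 in 𝓝 (r • w), |z 1| < t * |z 0| := by
        apply (cont1.abs.continuousAt).eventually_lt ((continuous_const.mul cont0.abs).continuousAt)
        show |(r • w) 1| < t * |(r • w) 0|
        rw [e0, e1, abs_mul, abs_mul, abs_of_pos hr]
        nlinarith
      filter_upwards [h1] with z hz
      have hz' := abs_lt.1 hz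
      rw [pr_apply, Mc, min_eq_right hz'.2.le, max_eq_right hz'.1.le]
    · have hz' := abs_lt.1 h
      rw [pr_apply, Mc, min_eq_right hz'.2.le, max_eq_right hz'.1.le]
    · rw [pr_apply, Jr1, Mc', if_pos h]
  · have hn : ¬ |w 1| < t * |w 0| := not_lt.2 h.le
    have hta : 0 < t * |w 0| := mul_pos ht a0
    -- the sign of `w 1`
    rcases lt_or_gt_of_ne (show w 1 ≠ 0 by
      intro h1
      rw [h1, abs_zero] at h
      linarith) with s1 | s1
    · rw [abs_of_neg s1] at h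
      have hM : ∀ z : E 2, z 1 < -(t * |z 0|) → Mc t z = -(t * |z 0|) := by
        intro z hz
        have hp : 0 ≤ t * |z 0| := by positivity
        rw [Mc, min_eq_right (by linarith), max_eq_left hz.le]
      have h1 : ∀ᶠ z : E 2 in 𝓝 (r • w), z 1 < -(t * |z 0|) := by
        apply (cont1.continuousAt).eventually_lt ((continuous_const.mul cont0.abs).neg.continuousAt)
        show (r • w) 1 < -(t * |(r • w) 0|)
        rw [e0, e1, abs_mul, abs_of_pos hr]
        nlinarith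
      rcases lt_or_gt_of_ne h0 with s0 | s0
      · refine ⟨t • pr 0, ?_, ?_, ?_⟩
        · have h2 : ∀ᶠ z : E 2 in 𝓝 (r • w), z 0 < 0 := by
            apply (cont0.continuousAt).eventually_lt continuousAt_const
            rw [e0]
            nlinarith
          filter_upwards [h1, h2] with z hz hz2
          rw [hM z hz, abs_of_neg hz2]
          simp [pr_apply]
        · rw [hM w (by linarith), abs_of_neg s0]
          simp [pr_apply]
        · rw [Mc', if_neg hn, if_neg (not_lt.2 s0.le), abs_of_neg s1]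
          simp [pr_apply, Jr0]
      · refine ⟨(-t) • pr 0, ?_, ?_, ?_⟩
        · have h2 : ∀ᶠ z : E 2 in 𝓝 (r • w), 0 < z 0 := by
            apply continuousAt_const.eventually_lt (cont0.continuousAt)
            rw [e0]
            exact mul_pos hr s0
          filter_upwards [h1, h2] with z hz hz2
          rw [hM z hz, abs_of_pos hz2]
          simp [pr_apply]
        · rw [hM w (by linarith), abs_of_pos s0]
          simp [pr_apply]
        · rw [Mc', if_neg hn, if_pos s0, abs_of_neg s1]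
          simp [pr_apply, Jr0]
    · rw [abs_of_pos s1] at h
      have hM : ∀ z : E 2, t * |z 0| < z 1 → Mc t z = t * |z 0| := by
        intro z hz
        have hp : 0 ≤ t * |z 0| := by positivity
        rw [Mc, min_eq_left hz.le, max_eq_right (by linarith)]
      have h1 : ∀ᶠ z : E 2 in 𝓝 (r • w), t * |z 0| < z 1 := by
        apply ((continuous_const.mul cont0.abs).continuousAt).eventually_lt (cont1.continuousAt)
        show t * |(r • w) 0| < (r • w) 1
        rw [e0, e1, abs_mul, abs_of_pos hr]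
        nlinarith
      rcases lt_or_gt_of_ne h0 with s0 | s0
      · refine ⟨(-t) • pr 0, ?_, ?_, ?_⟩
        · have h2 : ∀ᶠ z : E 2 in 𝓝 (r • w), z 0 < 0 := by
            apply (cont0.continuousAt).eventually_lt continuousAt_const
            rw [e0]
            nlinarith
          filter_upwards [h1, h2] with z hz hz2
          rw [hM z hz, abs_of_neg hz2]
          simp [pr_apply]
        · rw [hM w h, abs_of_neg s0]
          simp [pr_apply]
        · rw [Mc', if_neg hn, if_neg (not_lt.2 s0.le), abs_of_pos s1]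
          simp [pr_apply, Jr0]
      · refine ⟨t • pr 0, ?_, ?_, ?_⟩
        · have h2 : ∀ᶠ z : E 2 in 𝓝 (r • w), 0 < z 0 := by
            apply continuousAt_const.eventually_lt (cont0.continuousAt)
            rw [e0]
            exact mul_pos hr s0
          filter_upwards [h1, h2] with z hz hz2
          rw [hM z hz, abs_of_pos hz2]
          simp [pr_apply]
        · rw [hM w h, abs_of_pos s0]
          simp [pr_apply]
        · rw [Mc', if_neg hn, if_pos s0, abs_of_pos s1]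
          simp [pr_apply, Jr0]

/-- decomposition along `w`, `Jr w` -/
theorem decomp {w : E 2} (hw : ‖w‖ = 1) (G : E 2 →L[ℝ] ℝ) (v : E 2) :
    G v = inner ℝ w v * G w + inner ℝ (Jr w) v * G (Jr w) := by
  have h := norm2 w hw
  have hv : v = (inner ℝ w v : ℝ) • w + (inner ℝ (Jr w) v : ℝ) • Jr w := by
    rw [inner2, inner2, Jr0, Jr1]
    ext i
    fin_cases i
    · simp only [Fin.zero_eta, Fin.isValue, PiLp.add_apply, PiLp.smul_apply, smul_eq_mul, Jr0]
      linear_combination -(v 0) * h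
    · simp only [Fin.mk_one, Fin.isValue, PiLp.add_apply, PiLp.smul_apply, smul_eq_mul, Jr1]
      linear_combination -(v 1) * h
  conv_lhs => rw [hv]
  rw [map_add, map_smul, map_smul, smul_eq_mul, smul_eq_mul]

theorem rad_der {ρ r : ℝ} (hr : 0 < r) {w : E 2} (hw : ‖w‖ = 1) :
    HasFDerivAt (fun z : E 2 => 1 - ρ / ‖z‖) ((ρ / r ^ 2) • innerSL ℝ w) (r • w) := by
  have h1 : HasDerivAt (fun x : ℝ => 1 - ρ / √x) (ρ / (2 * r ^ 3)) (‖r • w‖ ^ 2) := by
    have hn : ‖r • w‖ ^ 2 = r ^ 2 := by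
      rw [norm_smul, hw, mul_one, Real.norm_eq_abs, sq_abs]
    rw [hn]
    have hs : √(r ^ 2) = r := Real.sqrt_sq hr.le
    have h2 : HasDerivAt (fun x : ℝ => √x) (1 / (2 * √(r ^ 2))) (r ^ 2) :=
      Real.hasDerivAt_sqrt (by positivity)
    rw [hs] at h2
    have h3 := (h2.inv (by rw [hs]; exact hr.ne')).const_mul ρ
    have h4 := h3.const_sub 1
    rw [hs] at h4
    have hfun : (fun x : ℝ => 1 - ρ / √x) = fun x : ℝ => 1 - ρ * (√x)⁻¹ := by
      funext x
      rw [div_eq_mul_inv]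
    rw [hfun]
    refine h4.congr_deriv ?_
    field_simp
  have h5 : HasFDerivAt (fun z : E 2 => ‖z‖ ^ 2) (2 • innerSL ℝ (r • w)) (r • w) :=
    (hasStrictFDerivAt_norm_sq (r • w)).hasFDerivAt
  have h6 := h1.comp_hasFDerivAt (r • w) h5
  have h7 : ((fun x : ℝ => 1 - ρ / √x) ∘ fun z : E 2 => ‖z‖ ^ 2) = fun z : E 2 => 1 - ρ / ‖z‖ := by
    funext z
    simp only [Function.comp_apply, Real.sqrt_sq (norm_nonneg z)]
  rw [h7] at h6
  refine h6.congr_fderiv ?_
  apply ContinuousLinearMap.ext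
  intro v
  have e1 : (innerSL ℝ (r • w)) v = r * inner ℝ w v := by
    rw [innerSL_apply_apply, real_inner_smul_left]
  simp only [_root_.smul_apply, e1, innerSL_apply_apply, smul_eq_mul, nsmul_eq_mul]
  push_cast
  field_simp

theorem term {ρ r : ℝ} (hr : 0 < r) (hρr : r ≠ ρ) {w : E 2} (hw : ‖w‖ = 1)
    (g : E 2 → ℝ) (G : E 2 →L[ℝ] ℝ) (hg : ∀ᶠ z in 𝓝 (r • w), g z = G z) :
    HasFDerivAt (fun z : E 2 => max 0 (1 - ρ / ‖z‖) * g z)
      (if ρ < r then (G w) • innerSL ℝ w + ((1 - ρ / r) * G (Jr w)) • innerSL ℝ (Jr w) else 0)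
      (r • w) := by
  have hn : ‖r • w‖ = r := by
    rw [norm_smul, hw, mul_one, Real.norm_eq_abs, abs_of_pos hr]
  have hcn : ContinuousAt (fun z : E 2 => ‖z‖) (r • w) := continuous_norm.continuousAt
  rcases lt_or_gt_of_ne hρr with h | h
  · rw [if_neg (not_lt.2 h.le)]
    have h1 : ∀ᶠ z : E 2 in 𝓝 (r • w), ‖z‖ < ρ := by
      apply hcn.eventually_lt continuousAt_const
      rw [hn]
      exact h
    have h2 : ∀ᶠ z : E 2 in 𝓝 (r • w), 0 < ‖z‖ := by
      apply continuousAt_const.eventually_lt hcn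
      rw [hn]
      exact hr
    refine (hasFDerivAt_const (0 : ℝ) (r • w)).congr_of_eventuallyEq ?_
    filter_upwards [h1, h2] with z hz hz2
    have : 1 - ρ / ‖z‖ ≤ 0 := by
      rw [sub_nonpos, le_div_iff₀ hz2]
      linarith
    rw [max_eq_left this, zero_mul]
  · rw [if_pos h]
    have h1 : ∀ᶠ z : E 2 in 𝓝 (r • w), ρ < ‖z‖ := by
      apply continuousAt_const.eventually_lt hcn
      rw [hn]
      exact h
    have h2 : ∀ᶠ z : E 2 in 𝓝 (r • w), 0 < ‖z‖ := by
      apply continuousAt_const.eventually_lt hcn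
      rw [hn]
      exact hr
    have h3 := (rad_der (ρ := ρ) hr hw).mul G.hasFDerivAt
    have h4 : HasFDerivAt (fun z : E 2 => max 0 (1 - ρ / ‖z‖) * g z)
        ((1 - ρ / ‖r • w‖) • G + G (r • w) • ((ρ / r ^ 2) • innerSL ℝ w)) (r • w) := by
      refine h3.congr_of_eventuallyEq ?_
      filter_upwards [h1, h2, hg] with z hz hz2 hz3
      have : 0 ≤ 1 - ρ / ‖z‖ := by
        rw [sub_nonneg, div_le_iff₀ hz2]
        linarith
      rw [max_eq_right this, hz3]
      rfl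
    refine h4.congr_fderiv ?_
    apply ContinuousLinearMap.ext
    intro v
    rw [hn, map_smul]
    simp only [_root_.add_apply, _root_.smul_apply, innerSL_apply_apply, smul_eq_mul]
    rw [decomp hw G v]
    field_simp
    ring

theorem der {N L : ℕ} (D : Dat N L) (ht : ∀ i, 0 < D.t i) {r : ℝ} (hr : 0 < r)
    (hrj : ∀ j, r ≠ D.ρ j) {w : E 2} (hw : ‖w‖ = 1) (hw0 : w 0 ≠ 0)
    (hwt : ∀ i, |w 1| ≠ D.t i * |w 0|) :
    HasFDerivAt D.k (D.A r w • innerSL ℝ w - D.C r w • innerSL ℝ (Jr w)) (r • w) := by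
  choose l hl1 hl2 hl3 using fun i => Mc_near (ht i) hr hw0 (hwt i)
  let G : Fin N → (E 2 →L[ℝ] ℝ) := fun j => D.m0 j • pr 1 + ∑ i, D.m j i • l i
  have hG : ∀ j, ∀ᶠ z in 𝓝 (r • w), D.m0 j * z 1 + ∑ i, D.m j i * Mc (D.t i) z = G j z := by
    intro j
    have h1 : ∀ᶠ z in 𝓝 (r • w), ∀ i, Mc (D.t i) z = l i z := by
      rw [eventually_all]
      exact hl1
    filter_upwards [h1] with z hz
    simp only [G, _root_.add_apply, _root_.smul_apply, pr_apply, smul_eq_mul,
      _root_.sum_apply]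
    congr 1
    exact Finset.sum_congr rfl fun i _ => by rw [hz i]
  have hGw : ∀ j, G j w = D.m0 j * w 1 + ∑ i, D.m j i * Mc (D.t i) w := by
    intro j
    simp only [G, _root_.add_apply, _root_.smul_apply, pr_apply, smul_eq_mul,
      _root_.sum_apply]
    congr 1
    exact Finset.sum_congr rfl fun i _ => by rw [hl2 i]
  have hGJ : ∀ j, G j (Jr w) = D.m0 j * w 0 + ∑ i, D.m j i * Mc' (D.t i) w := by
    intro j
    simp only [G, _root_.add_apply, _root_.smul_apply, pr_apply, smul_eq_mul,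
      _root_.sum_apply, Jr1]
    congr 1
    exact Finset.sum_congr rfl fun i _ => by rw [hl3 i]
  have h1 : HasFDerivAt (fun z : E 2 => D.ka * z 1) (D.ka • pr 1) (r • w) :=
    (pr 1).hasFDerivAt.const_mul D.ka
  have h2 := HasFDerivAt.fun_sum (u := Finset.univ) (fun j (_ : j ∈ Finset.univ) =>
    term hr (hrj j) hw _ (G j) (hG j))
  have h3 := h1.add h2
  have h4 : HasFDerivAt D.k (D.ka • pr 1 + ∑ j, if D.ρ j < r then (G j w) • innerSL ℝ w +
      ((1 - D.ρ j / r) * G j (Jr w)) • innerSL ℝ (Jr w) else 0) (r • w) := h3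
  refine h4.congr_fderiv ?_
  apply ContinuousLinearMap.ext
  intro v
  have hp := decomp hw (pr 1) v
  simp only [pr_apply, Jr1] at hp
  simp only [_root_.add_apply, _root_.sub_apply, _root_.smul_apply,
    innerSL_apply_apply, smul_eq_mul, _root_.sum_apply, pr_apply]
  rw [hp]
  set x := (inner ℝ w v : ℝ) with hx
  set y := (inner ℝ (Jr w) v : ℝ) with hy
  have h5 : ∀ j, (if D.ρ j < r then (G j w) • innerSL ℝ w +
      ((1 - D.ρ j / r) * G j (Jr w)) • innerSL ℝ (Jr w) else (0 : E 2 →L[ℝ] ℝ)) v =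
      (if D.ρ j < r then D.m0 j * w 1 + ∑ i, D.m j i * Mc (D.t i) w else 0) * x +
      (if D.ρ j < r then (1 - D.ρ j / r) * (D.m0 j * w 0 + ∑ i, D.m j i * Mc' (D.t i) w) else 0) * y := by
    intro j
    split_ifs
    · simp only [_root_.add_apply, _root_.smul_apply, innerSL_apply_apply, smul_eq_mul]
      rw [hGw, hGJ]
    · simp
  rw [Finset.sum_congr rfl fun j _ => h5 j, Finset.sum_add_distrib, ← Finset.sum_mul,
    ← Finset.sum_mul]
  unfold Dat.A Dat.C
  ring

/-! ### Measurability -/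

/-- bounded measurable functions -/
def BM (f : Sph 2 → ℝ) : Prop := Measurable f ∧ ∃ C : ℝ, ∀ θ, |f θ| ≤ C

theorem BM.add {f g : Sph 2 → ℝ} (hf : BM f) (hg : BM g) : BM (fun θ => f θ + g θ) := by
  obtain ⟨hf, C, hC⟩ := hf
  obtain ⟨hg, C', hC'⟩ := hg
  exact ⟨hf.add hg, C + C', fun θ => (abs_add_le _ _).trans (add_le_add (hC θ) (hC' θ))⟩

theorem BM.cmul {f : Sph 2 → ℝ} (hf : BM f) (c : ℝ) : BM (fun θ => c * f θ) := by
  obtain ⟨hf, C, hC⟩ := hf
  refine ⟨hf.const_mul c, |c| * C, fun θ => ?_⟩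
  rw [abs_mul]
  exact mul_le_mul_of_nonneg_left (hC θ) (abs_nonneg c)

theorem BM.zero : BM (fun _ => 0) := ⟨measurable_const, 0, fun _ => by simp⟩

theorem BM.sum {ι : Type} (s : Finset ι) {f : ι → Sph 2 → ℝ} (hf : ∀ i ∈ s, BM (f i)) :
    BM (fun θ => ∑ i ∈ s, f i θ) := by
  classical
  induction s using Finset.induction_on with
  | empty => simpa using BM.zero
  | insert i s hi ih =>
    have h1 := (hf i (Finset.mem_insert_self i s)).add
      (ih fun j hj => hf j (Finset.mem_insert_of_mem hj))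
    have h2 : (fun θ => ∑ j ∈ insert i s, f j θ) = fun θ => f i θ + ∑ j ∈ s, f j θ := by
      funext θ
      rw [Finset.sum_insert hi]
    rw [h2]
    exact h1

theorem BM.ite {f : Sph 2 → ℝ} (p : Prop) [Decidable p] (hf : BM f) :
    BM (fun θ => if p then f θ else 0) := by
  by_cases hp : p
  · simpa only [hp, if_true] using hf
  · simpa only [hp, if_false] using BM.zero

theorem Ax_le (θ e : Sph 2) (i : Fin 2) : |Ax θ (e : E 2) i| ≤ 1 := by
  have h := norm2 _ (norm_Ax θ e)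
  rw [abs_le]
  fin_cases i
  · constructor <;> simp only [Fin.zero_eta] <;>
      nlinarith [sq_nonneg (Ax θ (e : E 2) 0), sq_nonneg (Ax θ (e : E 2) 1)]
  · constructor <;> simp only [Fin.mk_one] <;>
      nlinarith [sq_nonneg (Ax θ (e : E 2) 0), sq_nonneg (Ax θ (e : E 2) 1)]

theorem meas_Ax (e : Sph 2) (i : Fin 2) : Measurable (fun θ : Sph 2 => Ax θ (e : E 2) i) := by
  have c0 : Continuous (fun θ : Sph 2 => (θ : E 2) 0) := cont0.comp continuous_subtype_val
  have c1 : Continuous (fun θ : Sph 2 => (θ : E 2) 1) := cont1.comp continuous_subtype_val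
  fin_cases i
  · simp only [Fin.zero_eta, Ax0]
    exact ((continuous_const.mul c0).add (continuous_const.mul c1)).measurable
  · simp only [Fin.mk_one, Ax1]
    exact ((continuous_const.mul c1).neg.add (continuous_const.mul c0)).measurable

theorem bm_Ax (e : Sph 2) (i : Fin 2) : BM (fun θ : Sph 2 => Ax θ (e : E 2) i) :=
  ⟨meas_Ax e i, 1, fun θ => Ax_le θ e i⟩

theorem bm_Mc (e : Sph 2) {t : ℝ} (ht : 0 < t) : BM (fun θ : Sph 2 => Mc t (Ax θ (e : E 2))) := by
  refine ⟨?_, 1, fun θ => ?_⟩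
  · unfold Mc
    exact ((measurable_const.mul (meas_Ax e 0).abs).neg).max
      ((measurable_const.mul (meas_Ax e 0).abs).min (meas_Ax e 1))
  · have h1 := abs_le.1 (Ax_le θ e 1)
    have h0 : 0 ≤ t * |Ax θ (e : E 2) 0| := by positivity
    show |Mc t (Ax θ (e : E 2))| ≤ 1
    unfold Mc
    rw [abs_le]
    constructor
    · rcases min_choice (t * |Ax θ (e : E 2) 0|) (Ax θ (e : E 2) 1) with h | h <;> rw [h]
      · exact le_trans (by linarith) (le_max_right _ _)
      · exact le_trans h1.1 (le_max_right _ _)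
    · refine max_le (by linarith) ((min_le_right _ _).trans h1.2)

theorem bm_Mc' (e : Sph 2) {t : ℝ} (ht : 0 < t) : BM (fun θ : Sph 2 => Mc' t (Ax θ (e : E 2))) := by
  refine ⟨?_, 1 + t, fun θ => ?_⟩
  · unfold Mc'
    refine Measurable.ite (measurableSet_lt (meas_Ax e 1).abs
      (measurable_const.mul (meas_Ax e 0).abs)) (meas_Ax e 0) ?_
    refine Measurable.ite (measurableSet_lt measurable_const (meas_Ax e 0)) ?_ ?_
    · exact (measurable_const.mul (meas_Ax e 1).abs).neg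
    · exact measurable_const.mul (meas_Ax e 1).abs
  · have h1 := Ax_le θ e 1
    have h0 := Ax_le θ e 0
    have h2 : t * |Ax θ (e : E 2) 1| ≤ t := by nlinarith
    have h3 : 0 ≤ t * |Ax θ (e : E 2) 1| := by positivity
    show |Mc' t (Ax θ (e : E 2))| ≤ 1 + t
    unfold Mc'
    split_ifs
    · linarith
    · rw [abs_neg, abs_of_nonneg h3]
      linarith
    · rw [abs_of_nonneg h3]
      linarith

theorem bm_A {N L : ℕ} (D : Dat N L) (ht : ∀ i, 0 < D.t i) (r : ℝ) (e : Sph 2) :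
    BM (fun θ : Sph 2 => D.A r (Ax θ (e : E 2))) := by
  unfold Dat.A
  refine ((bm_Ax e 1).cmul D.ka).add (BM.sum _ fun j _ => ?_)
  refine BM.ite _ (((bm_Ax e 1).cmul (D.m0 j)).add (BM.sum _ fun i _ => ?_))
  exact (bm_Mc e (ht i)).cmul (D.m j i)

theorem bm_C {N L : ℕ} (D : Dat N L) (ht : ∀ i, 0 < D.t i) (r : ℝ) (e : Sph 2) :
    BM (fun θ : Sph 2 => D.C r (Ax θ (e : E 2))) := by
  have h1 : BM (fun θ : Sph 2 => (-1) * (D.ka * Ax θ (e : E 2) 0 + ∑ j, if D.ρ j < r then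
      (1 - D.ρ j / r) * (D.m0 j * Ax θ (e : E 2) 0 + ∑ i, D.m j i * Mc' (D.t i) (Ax θ (e : E 2)))
      else 0)) := by
    refine BM.cmul (((bm_Ax e 0).cmul D.ka).add (BM.sum _ fun j _ => ?_)) (-1)
    refine BM.ite _ (BM.cmul (((bm_Ax e 0).cmul (D.m0 j)).add (BM.sum _ fun i _ => ?_)) _)
    exact (bm_Mc' e (ht i)).cmul (D.m j i)
  unfold Dat.C
  simpa only [neg_one_mul] using h1

theorem BM.int {f : Sph 2 → ℝ} (hf : BM f) {a : Sph 2 → E 2} (ha : Measurable a)
    (hb : ∀ᵐ θ ∂(sg 2), ‖a θ‖ ≤ 1) : Integrable (fun θ => f θ • a θ) (sg 2) := by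
  obtain ⟨hf, C, hC⟩ := hf
  refine Integrable.of_bound (hf.smul ha).aestronglyMeasurable (C * 1) ?_
  filter_upwards [hb] with θ hθ
  rw [norm_smul, Real.norm_eq_abs]
  exact mul_le_mul (hC θ) hθ (norm_nonneg _) ((abs_nonneg _).trans (hC θ))

/-- `dt u` as a linear functional -/
noncomputable def dtL (u : E 2) : E 2 →L[ℝ] ℝ := u 0 • pr 1 - u 1 • pr 0

theorem dtL_apply (u v : E 2) : dtL u v = dt u v := by
  simp only [dtL, dt, _root_.sub_apply, _root_.smul_apply, pr_apply, smul_eq_mul]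

theorem dt_lin (c c' : ℝ) (x x' v : E 2) :
    dt (c • x + c' • x') v = c * dt x v + c' * dt x' v := by
  unfold dt
  simp only [PiLp.add_apply, PiLp.smul_apply, smul_eq_mul]
  ring

theorem dt_int {f : Sph 2 → ℝ} (hf : BM f) {a : Sph 2 → E 2} (ha : Measurable a)
    (hb : ∀ᵐ θ ∂(sg 2), ‖a θ‖ ≤ 1) (u : E 2) :
    Integrable (fun θ => f θ * dt u (a θ)) (sg 2) ∧
    ∫ θ, f θ * dt u (a θ) ∂(sg 2) = dt u (∫ θ, f θ • a θ ∂(sg 2)) := by
  have h1 : ∀ θ, f θ * dt u (a θ) = dtL u (f θ • a θ) := by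
    intro θ
    rw [map_smul, dtL_apply, smul_eq_mul]
  have h2 := (dtL u).integrable_comp (hf.int ha hb)
  refine ⟨?_, ?_⟩
  · refine h2.congr (Eventually.of_forall fun θ => ?_)
    exact (h1 θ).symm
  · rw [integral_congr_ae (Eventually.of_forall h1), (dtL u).integral_comp_comm (hf.int ha hb),
      dtL_apply]

theorem int_lin {f g : Sph 2 → E 2} (hf : Integrable f (sg 2)) (hg : Integrable g (sg 2))
    (c c' : ℝ) : ∫ θ, (c • f θ + c' • g θ) ∂(sg 2) =
      c • ∫ θ, f θ ∂(sg 2) + c' • ∫ θ, g θ ∂(sg 2) := by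
  have h := integral_add (hf.smul c) (hg.smul c')
  have h1 : ∫ θ, (c • f) θ ∂(sg 2) = c • ∫ θ, f θ ∂(sg 2) := integral_smul c f
  have h2 : ∫ θ, (c' • g) θ ∂(sg 2) = c' • ∫ θ, g θ ∂(sg 2) := integral_smul c' g
  rw [h1, h2] at h
  exact h

theorem main : S_JPOL := by
  intro N L D hρ ht r e hr hrj a ha hb
  set x0 : E 2 := ∫ θ, Ax θ (e : E 2) 0 • a θ ∂(sg 2) with hx0
  set x1 : E 2 := ∫ θ, Ax θ (e : E 2) 1 • a θ ∂(sg 2) with hx1
  have hA := bm_A D ht r e
  have hC := bm_C D ht r e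
  have hin : ∀ᵐ θ ∂(sg 2), dt (∫ θ' : Sph 2,
      (fderiv ℝ (fun w => D.k (Ax θ w)) (r • (e : E 2)) (θ' : E 2)) • a θ' ∂(sg 2)) (a θ) =
      D.A r (Ax θ (e : E 2)) * dt x0 (a θ) + D.C r (Ax θ (e : E 2)) * dt x1 (a θ) := by
    filter_upwards [ae_good e L D.t] with θ hθ
    have hd := der D ht hr hrj (norm_Ax θ e) hθ.1 hθ.2
    have hAx : AxL θ (r • (e : E 2)) = r • Ax θ (e : E 2) := by
      rw [map_smul, AxL_apply]
    have hf : HasFDerivAt (fun w => D.k (Ax θ w))
        ((D.A r (Ax θ (e : E 2)) • innerSL ℝ (Ax θ (e : E 2)) -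
          D.C r (Ax θ (e : E 2)) • innerSL ℝ (Jr (Ax θ (e : E 2)))).comp (AxL θ)) (r • (e : E 2)) := by
      have h1 : (fun w => D.k (Ax θ w)) = D.k ∘ (AxL θ) := by
        funext w
        rw [Function.comp_apply, AxL_apply]
      rw [h1]
      apply HasFDerivAt.comp
      · rw [hAx]
        exact hd
      · exact (AxL θ).hasFDerivAt
    have hval : ∀ θ' : Sph 2, (fderiv ℝ (fun w => D.k (Ax θ w)) (r • (e : E 2)) (θ' : E 2)) • a θ' =
        D.A r (Ax θ (e : E 2)) • (Ax θ' (e : E 2) 0 • a θ') +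
        D.C r (Ax θ (e : E 2)) • (Ax θ' (e : E 2) 1 • a θ') := by
      intro θ'
      rw [hf.fderiv, smul_smul, smul_smul, ← add_smul]
      congr 1
      simp only [ContinuousLinearMap.comp_apply, _root_.sub_apply, _root_.smul_apply,
        innerSL_apply_apply, smul_eq_mul, AxL_apply, inner_Ax, inner_Jr_Ax]
      rw [inner2, inner2, Jr0, Jr1, Ax0, Ax1]
      ring
    rw [integral_congr_ae (Eventually.of_forall hval),
      int_lin ((bm_Ax e 0).int ha hb) ((bm_Ax e 1).int ha hb), dt_lin]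
  unfold Jk
  rw [integral_congr_ae hin]
  obtain ⟨i1, e1⟩ := dt_int hA ha hb x0
  obtain ⟨i2, e2⟩ := dt_int hC ha hb x1
  rw [integral_add i1 i2, e1, e2]

end Pool.Agent.N669.P1_JPOL
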